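import Mathlib

/-!
# The largest colour class
-/

set_option autoImplicit false

namespace Pool.Agent.Q253.Cov

open Finset

theorem pigeon {α γ : Type*} [DecidableEq γ] (G : Finset α) (K : Finset γ) (κ : α → γ) (hκ : ∀ n ∈ G, κ n ∈ K) (hK : K.Nonempty) :
    ∃ c ∈ K, 1 / (K.card : ℝ) * (G.card : ℝ) ≤ ((G.filter (fun n => κ n = c)).card : ℝ) := by
  classical
  by_contra hcon
  push Not at hcon
  have h1 := sum_lt_sum_of_nonempty hK hcon
  have h2 : ∑ c ∈ K, ((G.filter (fun n => κ n = c)).card : ℝ) = G.card := by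
    have := card_eq_sum_card_fiberwise (f := κ) (s := G) (t := K) (fun n hn => hκ n hn)
    exact_mod_cast this.symm
  rw [h2, sum_const, nsmul_eq_mul] at h1
  have h3 : (K.card : ℝ) * (1 / (K.card : ℝ) * (G.card : ℝ)) = G.card := by
    have h4 : (0 : ℝ) < K.card := by exact_mod_cast hK.card_pos
    field_simp
  linarith

end Pool.Agent.Q253.Cov
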