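import Pool.Agent.Y882.KW.Alm
import Pool.Agent.Y882.KW.Num
import Pool.Agent.Y882.MG.EngS
import Pool.Agent.Y882.SI.Quad
import Pool.Agent.Q253.Thin.Int

/-!
# The weighted sieve for the values of a polynomial in all short intervals
-/

set_option autoImplicit false

namespace Pool.Agent.Q253.Cov

open Finset Filter Polynomial
open Pool.Agent.W23.DC (pr tt Mer)
open Pool.Agent.Y882 (PZ tt_lt prod_inj)
open Pool.Agent.Y882.KW
open Pool.Agent.Y882.PX
open Pool.Agent.Y843.HS (Pr VV Pr_mem Pr_prime)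
open Pool.Agent.Q253.Thin (SysZ VZ_nonneg VZ_low)

/-- the roots modulo `q` -/
def Zf (F : ℤ[X]) (q : ℕ) : Finset ℕ := (range q).filter (fun n : ℕ => (q : ℤ) ∣ F.eval (n : ℤ))

theorem Zf_ro (F : ℤ[X]) (q : ℕ) : (Zf F q).card = ro F 0 q := by
  rw [ro_eq]
  unfold Zf
  simp

theorem Zf_mem (F : ℤ[X]) {q n : ℕ} (hq : 0 < q) : n % q ∈ Zf F q ↔ (q : ℤ) ∣ F.eval (n : ℤ) := by
  unfold Zf
  rw [mem_filter, mem_range]
  have h1 : (q : ℤ) ∣ F.eval (n : ℤ) - F.eval ((n % q : ℕ) : ℤ) := by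
    refine dvd_trans ?_ (F.sub_dvd_eval_sub (n : ℤ) ((n % q : ℕ) : ℤ))
    push_cast
    exact Int.dvd_self_sub_emod
  constructor
  · rintro ⟨_, h⟩
    have := dvd_add h1 h
    rwa [sub_add_cancel] at this
  · intro h
    refine ⟨Nat.mod_lt _ hq, ?_⟩
    have := dvd_sub h h1
    rwa [sub_sub_cancel] at this

/-- the `n` of `(A, A + H]` with `F n` having at most `r` prime factors, all at least `z` -/
noncomputable def GP (F : ℤ[X]) (r : ℕ) (z : ℝ) (A H : ℕ) : Finset ℕ :=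
  open Classical in (Ioc A (A + H)).filter (fun n : ℕ => (F.eval (n : ℤ)).natAbs.primeFactorsList.length ≤ r ∧
    ∀ q : ℕ, q.Prime → (q : ℤ) ∣ F.eval (n : ℤ) → z ≤ q)

/-- the number of the multiples among the values in an interval -/
theorem cnt_int (F : ℤ[X]) (q A H : ℕ) (hq : 0 < q) :
    |((((Ioc A (A + H)).filter (fun n : ℕ => (q : ℤ) ∣ F.eval (n : ℤ))).card : ℝ)) - (H : ℝ) / q * ro F 0 q| ≤ 2 * (ro F 0 q + 1) := by
  have h1 : (Icc 1 (A + H)).filter (fun n : ℕ => (q : ℤ) ∣ F.eval (n : ℤ) + 0) =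
      ((Icc 1 A).filter (fun n : ℕ => (q : ℤ) ∣ F.eval (n : ℤ) + 0)) ∪
        ((Ioc A (A + H)).filter (fun n : ℕ => (q : ℤ) ∣ F.eval (n : ℤ))) := by
    ext j
    rw [mem_union, mem_filter, mem_filter, mem_filter, mem_Icc, mem_Icc, mem_Ioc, add_zero]
    constructor
    · rintro ⟨h2, h3⟩
      by_cases h4 : j ≤ A
      · exact Or.inl ⟨⟨h2.1, h4⟩, h3⟩
      · exact Or.inr ⟨⟨by omega, h2.2⟩, h3⟩
    · rintro (⟨h2, h3⟩ | ⟨h2, h3⟩)
      · exact ⟨⟨h2.1, by omega⟩, h3⟩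
      · exact ⟨⟨by omega, h2.2⟩, h3⟩
  have h2 : Disjoint ((Icc 1 A).filter (fun n : ℕ => (q : ℤ) ∣ F.eval (n : ℤ) + 0))
      ((Ioc A (A + H)).filter (fun n : ℕ => (q : ℤ) ∣ F.eval (n : ℤ))) := by
    apply disjoint_filter_filter
    rw [disjoint_left]
    intro j hj hj'
    rw [mem_Icc] at hj
    rw [mem_Ioc] at hj'
    omega
  have h3 := congrArg card h1
  rw [card_union_of_disjoint h2] at h3
  have h4 : ((cnt F 0 q (A + H) : ℕ) : ℝ) = cnt F 0 q A +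
      (((Ioc A (A + H)).filter (fun n : ℕ => (q : ℤ) ∣ F.eval (n : ℤ))).card : ℝ) := by
    unfold cnt
    exact_mod_cast h3
  have h5 := cnt_le F 0 q (A + H) hq
  have h6 := cnt_le F 0 q A hq
  unfold rr at h5 h6
  rw [abs_le] at h5 h6 ⊢
  have h7 : (((A + H : ℕ) : ℝ)) / q * ro F 0 q = (A : ℝ) / q * ro F 0 q + (H : ℝ) / q * ro F 0 q := by
    push_cast
    ring
  rw [h7, h4] at h5
  constructor <;> linarith

/-- **The weighted sieve for the values of a polynomial in all short intervals.** -/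
theorem pw (F : ℤ[X]) (K : ℕ) (hK1 : 1 ≤ K) (hsys : SysZ K (Zf F))
    (HM : ∀ ε₁ υ η : ℝ, 0 < ε₁ → υ ≤ 1 → 0 < η → ∃ Y0 : ℕ, ∀ Y : ℕ, Y0 ≤ Y →
      Mer (pr Y ε₁ υ) (tt Y) (fun p => (ro F 0 p : ℝ) / p) ε₁ υ η)
    (hsq : ∃ q₀ : ℕ, ∀ q : ℕ, q.Prime → q₀ ≤ q → ∀ A H : ℕ,
      ((((Ioc A (A + H)).filter (fun n : ℕ => ((q ^ 2 : ℕ) : ℤ) ∣ F.eval (n : ℤ))).card : ℝ)) ≤ K * (H / (q : ℝ) ^ 2 + 1))
    (h0 : ∀ n : ℕ, F.eval (n : ℤ) ≠ 0) (r : ℕ) (τ h S : ℝ) (hτ0 : 0 < τ) (hτh : τ < h) (hh : h ≤ 1)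
    (hsize : ∃ X₁ : ℕ, ∀ X : ℕ, X₁ ≤ X → ∀ n : ℕ, n ≤ X → ((F.eval (n : ℤ)).natAbs : ℝ) ≤ (X : ℝ) ^ S)
    (hr : 9 / 8 + S / (24 / 25 * τ) ≤ r + 1) :
    ∃ δ : ℝ, 0 < δ ∧ ∃ X₀ : ℕ, ∀ X : ℕ, X₀ ≤ X → ∀ A H : ℕ, A + H ≤ X → (X : ℝ) ^ h ≤ H →
      δ * (H * VV (Zf F) 0 H) ≤ ((GP F r ((X : ℝ) ^ (τ / 4)) A H).card : ℝ) := by
  classical
  obtain ⟨g, hg⟩ : ∃ g, g = h - τ := ⟨_, rfl⟩
  have hg0 : 0 < g := by rw [hg]; linarith
  have h24 : 0 < 24 / 25 * τ := by positivity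
  have hc := cond_A τ (8 / 9) hτ0 (by norm_num) (by norm_num)
  obtain ⟨δ, ε₁, η, hδ, hε₁, hε₁ζ, hε₁β, hη, Y0, HC⟩ := core4 K τ (τ / 4) (24 / 25 * τ) (8 / 9)
    ((8 / 9) / (24 / 25 * τ)) (τ + g / 4) h (g / 4) (by positivity) (by linarith) (by linarith) (by linarith)
    (by linarith) (by linarith) (by norm_num) (by positivity) (by rw [div_mul_cancel₀ _ h24.ne']) hc (by linarith)
    (by linarith) (by positivity)
  obtain ⟨Y1, HM1⟩ := HM ε₁ (24 / 25 * τ) η hε₁ (by linarith) hη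
  obtain ⟨C, hC1, hCT⟩ := pow_card_le K (g / 4) (by positivity)
  obtain ⟨cV, hcV, hlow⟩ := VZ_low K hK1
  obtain ⟨q₀, hsq⟩ := hsq
  obtain ⟨X₁, hsize⟩ := hsize
  have hKr : (1 : ℝ) ≤ K := by exact_mod_cast hK1
  -- eventual inequalities
  have hlog : ∀ M s : ℝ, ∀ k : ℕ, 0 < M → 0 < s → ∀ᶠ X : ℕ in atTop, M * Real.log X ^ k ≤ (X : ℝ) ^ s := by
    intro M s k hM hs
    have h1 := (isLittleO_log_rpow_rpow_atTop (k : ℝ) hs).def (show (0 : ℝ) < 1 / M by positivity)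
    have h2 := (tendsto_natCast_atTop_atTop (R := ℝ)).eventually h1
    filter_upwards [h2, eventually_ge_atTop 1] with X hX h1
    have hX1 : (1 : ℝ) ≤ X := by exact_mod_cast h1
    have hl := Real.log_nonneg hX1
    rw [Real.norm_of_nonneg (by positivity), Real.norm_of_nonneg (by positivity), Real.rpow_natCast] at hX
    calc M * Real.log X ^ k ≤ M * (1 / M * (X : ℝ) ^ s) := mul_le_mul_of_nonneg_left hX hM.le
      _ = _ := by field_simp
  have ev1 := hlog (20 * C) (g / 8) 1 (by positivity) (by positivity)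
  obtain ⟨sg, hsg⟩ : ∃ sg, sg = min (τ / 4) (h - 24 / 25 * τ) := ⟨_, rfl⟩
  have hsg0 : 0 < sg := by
    rw [hsg]
    apply lt_min <;> linarith
  have ev2 := hlog (2 * (4 * K) / (δ * cV)) sg K (by positivity) hsg0
  have ev3 : ∀ᶠ Y : ℕ in atTop, (q₀ : ℝ) + 2 ≤ (Y : ℝ) ^ (τ / 4) :=
    ((tendsto_rpow_atTop (by positivity)).comp tendsto_natCast_atTop_atTop).eventually_ge_atTop _
  have ev4 : ∀ᶠ Y : ℕ in atTop, (2 : ℝ) ≤ (Y : ℝ) ^ h :=
    ((tendsto_rpow_atTop (by linarith)).comp tendsto_natCast_atTop_atTop).eventually_ge_atTop _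
  obtain ⟨X2, e1⟩ := eventually_atTop.1 (ev1.and (ev2.and (ev3.and (ev4.and (eventually_ge_atTop 3)))))
  refine ⟨δ / 2, by positivity, max (max Y0 Y1) (max X₁ X2), ?_⟩
  intro X hX A H hAH hH
  have x0 : Y0 ≤ X := ((le_max_left _ _).trans (le_max_left _ _)).trans hX
  have x1 : Y1 ≤ X := ((le_max_right _ _).trans (le_max_left _ _)).trans hX
  have x1' : X₁ ≤ X := ((le_max_left _ _).trans (le_max_right _ _)).trans hX
  obtain ⟨x2, x3, x4, x5, x6⟩ := e1 X (((le_max_right _ _).trans (le_max_right _ _)).trans hX)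
  have hXr : (3 : ℝ) ≤ X := by exact_mod_cast x6
  have hX1 : (1 : ℝ) ≤ X := by linarith
  have hX0 : (0 : ℝ) < X := by linarith
  have hlX : 0 < Real.log X := Real.log_pos (by linarith)
  rw [pow_one] at x2
  obtain ⟨cw, hw1, hw2, hw3⟩ := HC X x0
  have hPZ : ∀ w : ℝ, ∀ p ∈ PZ X w, p.Prime := by
    intro w p hp
    unfold PZ at hp
    rw [mem_filter] at hp
    exact hp.2.1
  have hJ : (Ioc A (A + H)).card = H := by rw [Nat.card_Ioc]; omega
  have hHr : (0 : ℝ) ≤ H := Nat.cast_nonneg H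
  have hH2 : 2 ≤ H := by
    have : (2 : ℝ) ≤ H := x5.trans hH
    exact_mod_cast this
  have hHX : (H : ℝ) ≤ X := by exact_mod_cast (by omega : H ≤ X)
  have hro : ∀ p : ℕ, p.Prime → ro F 0 p ≤ K := fun p hp => by
    rw [← Zf_ro]
    exact hsys.card p hp
  -- the remainder
  have hrem : |∑ T ∈ (PZ X (24 / 25 * τ)).powerset, cw T * ((((Ioc A (A + H)).filter (fun j : ℕ => ∏ p ∈ T, p ∣ (F.eval (j : ℤ)).natAbs)).card : ℝ) -
      (Ioc A (A + H)).card * ∏ p ∈ T, ((ro F 0 p : ℝ) / p))| ≤ (Ioc A (A + H)).card * (X : ℝ) ^ (-(g / 4)) := by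
    rw [hJ]
    have hterm : ∀ T ∈ (PZ X (24 / 25 * τ)).powerset, |cw T * ((((Ioc A (A + H)).filter (fun j : ℕ => ∏ p ∈ T, p ∣ (F.eval (j : ℤ)).natAbs)).card : ℝ) -
        H * ∏ p ∈ T, ((ro F 0 p : ℝ) / p))| ≤ if cw T ≠ 0 then 5 * Real.log X * (4 * (C * (X : ℝ) ^ (g / 4))) else 0 := by
      intro T hT
      rw [mem_powerset] at hT
      split_ifs with hcw
      · rw [abs_mul]
        have hTp : ∀ p ∈ T, p.Prime := fun p hp => hPZ _ p (hT hp)
        have hd : 0 < ∏ p ∈ T, p := prod_pos fun p hp => (hTp p hp).pos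
        have h1 : (H : ℝ) * ∏ p ∈ T, ((ro F 0 p : ℝ) / p) = (H : ℝ) / ((∏ p ∈ T, p : ℕ) : ℝ) * ro F 0 (∏ p ∈ T, p) := by
          rw [ro_prod F 0 T hTp, prod_div_distrib]
          push_cast
          ring
        have h2 : (Ioc A (A + H)).filter (fun j : ℕ => ∏ p ∈ T, p ∣ (F.eval (j : ℤ)).natAbs) =
            (Ioc A (A + H)).filter (fun n : ℕ => ((∏ p ∈ T, p : ℕ) : ℤ) ∣ F.eval (n : ℤ)) := by
          apply filter_congr
          intro n _
          exact Int.natCast_dvd.symm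
        rw [h1, h2]
        have h3 := cnt_int F (∏ p ∈ T, p) A H hd
        have h4 : (ro F 0 (∏ p ∈ T, p) : ℝ) ≤ C * (X : ℝ) ^ (g / 4) := by
          have h5 : (ro F 0 (∏ p ∈ T, p) : ℝ) ≤ (K : ℝ) ^ T.card := by
            rw [ro_prod F 0 T hTp]
            push_cast
            calc ∏ p ∈ T, (ro F 0 p : ℝ) ≤ ∏ p ∈ T, (K : ℝ) := by
                  apply Finset.prod_le_prod
                  · intro p _; positivity
                  · intro p hp
                    exact_mod_cast hro p (hTp p hp)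
              _ = _ := by rw [prod_const]
          have h6 := hCT T hTp
          have h7 : ((∏ p ∈ T, p : ℕ) : ℝ) ≤ X := by
            refine (hw2 T hT hcw).trans ?_
            calc (X : ℝ) ^ (τ + g / 4) ≤ (X : ℝ) ^ (1 : ℝ) := Real.rpow_le_rpow_of_exponent_le hX1 (by linarith)
              _ = X := Real.rpow_one _
          refine h5.trans (h6.trans ?_)
          apply mul_le_mul_of_nonneg_left _ (by linarith)
          exact Real.rpow_le_rpow (by positivity) h7 (by positivity)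
        have h5 : (1 : ℝ) ≤ C * (X : ℝ) ^ (g / 4) := by
          have := Real.one_le_rpow hX1 (show 0 ≤ g / 4 by positivity)
          nlinarith
        calc |cw T| * _ ≤ (5 * Real.log X) * (2 * (ro F 0 (∏ p ∈ T, p) + 1)) :=
              mul_le_mul (hw1 T) h3 (abs_nonneg _) (by positivity)
          _ ≤ _ := mul_le_mul_of_nonneg_left (by linarith) (by positivity)
      · push Not at hcw
        rw [hcw, zero_mul, abs_zero]
    refine (abs_sum_le_sum_abs _ _).trans ((sum_le_sum hterm).trans ?_)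
    rw [← sum_filter, sum_const, nsmul_eq_mul]
    have hcard : ((((PZ X (24 / 25 * τ)).powerset.filter (fun T => cw T ≠ 0)).card : ℕ) : ℝ) ≤ (X : ℝ) ^ (τ + g / 4) := by
      have h1 : ((PZ X (24 / 25 * τ)).powerset.filter (fun T => cw T ≠ 0)).card ≤
          (Icc 1 ⌊(X : ℝ) ^ (τ + g / 4)⌋₊).card := by
        apply card_le_card_of_injOn (fun T => ∏ p ∈ T, p)
        · intro T hT
          rw [coe_filter, Set.mem_ofPred_eq, mem_powerset] at hT
          rw [coe_Icc, Set.mem_Icc]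
          exact ⟨Nat.pos_of_ne_zero (prod_ne_zero_iff.2 fun p hp => (hPZ _ p (hT.1 hp)).ne_zero),
            Nat.le_floor (hw2 T hT.1 hT.2)⟩
        · intro T hT T' hT' he
          rw [coe_filter, Set.mem_ofPred_eq, mem_powerset] at hT hT'
          exact prod_inj _ (hPZ _) hT.1 hT'.1 he
      rw [Nat.card_Icc, Nat.add_sub_cancel] at h1
      calc ((((PZ X (24 / 25 * τ)).powerset.filter (fun T => cw T ≠ 0)).card : ℕ) : ℝ) ≤
            (⌊(X : ℝ) ^ (τ + g / 4)⌋₊ : ℝ) := by exact_mod_cast h1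
        _ ≤ _ := Nat.floor_le (by positivity)
    calc ((((PZ X (24 / 25 * τ)).powerset.filter (fun T => cw T ≠ 0)).card : ℕ) : ℝ) * (5 * Real.log X * (4 * (C * (X : ℝ) ^ (g / 4)))) ≤
          (X : ℝ) ^ (τ + g / 4) * (5 * Real.log X * (4 * (C * (X : ℝ) ^ (g / 4)))) :=
          mul_le_mul_of_nonneg_right hcard (by positivity)
      _ = (X : ℝ) ^ (τ + g / 4) * (X : ℝ) ^ (g / 4) * (20 * C * Real.log X) := by ring
      _ ≤ (X : ℝ) ^ (τ + g / 4) * (X : ℝ) ^ (g / 4) * (X : ℝ) ^ (g / 8) :=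
          mul_le_mul_of_nonneg_left x2 (by positivity)
      _ = (X : ℝ) ^ (τ + g / 4 + g / 4 + g / 8) := by
          rw [← Real.rpow_add hX0, ← Real.rpow_add hX0]
      _ ≤ (X : ℝ) ^ h * (X : ℝ) ^ (-(g / 4)) := by
          rw [← Real.rpow_add hX0]
          apply Real.rpow_le_rpow_of_exponent_le hX1
          linarith
      _ ≤ _ := by gcongr
  have hmain := hw3 (Ioc A (A + H)) (fun j : ℕ => (F.eval (j : ℤ)).natAbs) (fun p => ro F 0 p) H hH
    (fun p hp => hro p hp) (fun p _ => ro_le_self F 0 p) (HM1 X x1) hrem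
  rw [hJ] at hmain
  have hVX : ∏ p ∈ (Icc 1 H).filter Nat.Prime, (1 - (ro F 0 p : ℝ) / p) = VV (Zf F) 0 H := by
    unfold VV
    apply prod_congr
    · ext q
      rw [Pr_mem, mem_filter, mem_Icc]
      constructor
      · rintro ⟨⟨a, b⟩, c⟩
        exact ⟨⟨c.pos, b⟩, c⟩
      · rintro ⟨⟨a, b⟩, c⟩
        exact ⟨⟨c.pos, b⟩, c⟩
    · intro q _
      rw [Zf_ro]
  rw [hVX] at hmain
  -- the squares
  obtain ⟨S2, hS2⟩ : ∃ S2 : Finset ℕ, S2 = (pr X (τ / 4) (24 / 25 * τ)).biUnion (fun q => (Ioc A (A + H)).filter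
      (fun n : ℕ => ((q ^ 2 : ℕ) : ℤ) ∣ F.eval (n : ℤ))) := ⟨_, rfl⟩
  have hprm : ∀ q ∈ pr X (τ / 4) (24 / 25 * τ), q.Prime ∧ (X : ℝ) ^ (τ / 4) ≤ q ∧ (q : ℝ) < (X : ℝ) ^ (24 / 25 * τ) := by
    intro q hq
    unfold pr at hq
    rw [mem_filter] at hq
    refine ⟨hq.2.1, ?_, (tt_lt X q _ (by omega) hq.2.1.pos).1 hq.2.2.2⟩
    by_contra hlt
    push Not at hlt
    have := (tt_lt X q (τ / 4) (by omega) hq.2.1.pos).2 hlt
    linarith [hq.2.2.1]
  have hS2c : (S2.card : ℝ) ≤ 4 * K * (H / (X : ℝ) ^ sg) := by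
    have h1 : (S2.card : ℝ) ≤ ∑ q ∈ pr X (τ / 4) (24 / 25 * τ), ((K : ℝ) * (H / (q : ℝ) ^ 2 + 1)) := by
      rw [hS2]
      calc ((((pr X (τ / 4) (24 / 25 * τ)).biUnion (fun q => (Ioc A (A + H)).filter
            (fun n : ℕ => ((q ^ 2 : ℕ) : ℤ) ∣ F.eval (n : ℤ)))).card : ℕ) : ℝ) ≤
            ∑ q ∈ pr X (τ / 4) (24 / 25 * τ), ((((Ioc A (A + H)).filter (fun n : ℕ => ((q ^ 2 : ℕ) : ℤ) ∣ F.eval (n : ℤ))).card : ℕ) : ℝ) := by
            exact_mod_cast card_biUnion_le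
        _ ≤ _ := by
            apply sum_le_sum
            intro q hq
            obtain ⟨q1, q2, q3⟩ := hprm q hq
            apply hsq q q1
            have : (q₀ : ℝ) ≤ q := by linarith
            exact_mod_cast this
    have h2 := Pool.Agent.Y882.MG.tail_sq (pr X (τ / 4) (24 / 25 * τ)) ((X : ℝ) ^ (τ / 4)) (by
      have : (0 : ℝ) ≤ q₀ := Nat.cast_nonneg _
      linarith) (fun q hq => (hprm q hq).2.1)
    have h3 := Pool.Agent.Y882.MG.card_lt (pr X (τ / 4) (24 / 25 * τ)) ((X : ℝ) ^ (24 / 25 * τ)) (by positivity)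
      (fun q hq => ⟨(hprm q hq).1.one_le, (hprm q hq).2.2.le⟩)
    have h4 : ∑ q ∈ pr X (τ / 4) (24 / 25 * τ), ((K : ℝ) * (H / (q : ℝ) ^ 2 + 1)) =
        K * (H * ∑ q ∈ pr X (τ / 4) (24 / 25 * τ), 1 / (q : ℝ) ^ 2 + ((pr X (τ / 4) (24 / 25 * τ)).card : ℝ)) := by
      rw [mul_sum, ← mul_sum, sum_add_distrib, sum_const, nsmul_eq_mul, mul_one]
      congr 2
      apply sum_congr rfl
      intro q _
      ring
    have h5 : (H : ℝ) * (2 / (X : ℝ) ^ (τ / 4)) ≤ 2 * (H / (X : ℝ) ^ sg) := by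
      have h6 : (X : ℝ) ^ sg ≤ (X : ℝ) ^ (τ / 4) :=
        Real.rpow_le_rpow_of_exponent_le hX1 (by rw [hsg]; exact min_le_left _ _)
      calc (H : ℝ) * (2 / (X : ℝ) ^ (τ / 4)) = 2 * (H / (X : ℝ) ^ (τ / 4)) := by ring
        _ ≤ _ := by
            apply mul_le_mul_of_nonneg_left _ (by norm_num)
            exact div_le_div_of_nonneg_left hHr (by positivity) h6
    have h6 : (X : ℝ) ^ (24 / 25 * τ) ≤ H / (X : ℝ) ^ sg := by
      rw [le_div_iff₀ (by positivity), ← Real.rpow_add hX0]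
      refine le_trans ?_ hH
      apply Real.rpow_le_rpow_of_exponent_le hX1
      have := min_le_right (τ / 4) (h - 24 / 25 * τ)
      rw [← hsg] at this
      linarith
    rw [h4] at h1
    have h7 : 0 ≤ H / (X : ℝ) ^ sg := by positivity
    calc (S2.card : ℝ) ≤ K * (H * ∑ q ∈ pr X (τ / 4) (24 / 25 * τ), 1 / (q : ℝ) ^ 2 + ((pr X (τ / 4) (24 / 25 * τ)).card : ℝ)) := h1
      _ ≤ K * (H * (2 / (X : ℝ) ^ (τ / 4)) + (X : ℝ) ^ (24 / 25 * τ)) := by gcongr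
      _ ≤ K * (2 * (H / (X : ℝ) ^ sg) + H / (X : ℝ) ^ sg) :=
          mul_le_mul_of_nonneg_left (add_le_add h5 h6) (by positivity)
      _ ≤ _ := by nlinarith
  have hsubset : ((Ioc A (A + H)).filter (fun j : ℕ => 0 < WW X (τ / 4) (24 / 25 * τ) (8 / 9) ((8 / 9) / (24 / 25 * τ)) (F.eval (j : ℤ)).natAbs)) ⊆
      GP F r ((X : ℝ) ^ (τ / 4)) A H ∪ S2 := by
    intro n hn
    rw [mem_filter] at hn
    obtain ⟨hn1, hn2⟩ := hn
    rw [mem_union]
    by_cases hs : n ∈ S2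
    · exact Or.inr hs
    · left
      have hnI := mem_Ioc.1 hn1
      have hn0 : (F.eval (n : ℤ)).natAbs ≠ 0 := Int.natAbs_ne_zero.2 (h0 n)
      have hsq' : ∀ q ∈ pr X (τ / 4) (24 / 25 * τ), ¬ q ^ 2 ∣ (F.eval (n : ℤ)).natAbs := by
        intro q hq hd
        apply hs
        rw [hS2, mem_biUnion]
        exact ⟨q, hq, mem_filter.2 ⟨hn1, Int.natCast_dvd.2 hd⟩⟩
      obtain ⟨r1, r2⟩ := almost X (by omega) (τ / 4) (24 / 25 * τ) (8 / 9) S r (by linarith) (by linarith) (by linarith)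
        (by norm_num) (by
          have : (1 : ℝ) / (8 / 9) = 9 / 8 := by norm_num
          rw [this]
          exact hr) (F.eval (n : ℤ)).natAbs hn0 (hsize X x1' n (by omega)) hn2 hsq'
      unfold GP
      rw [mem_filter]
      exact ⟨hn1, r1, fun q hq hd => r2 q hq (Int.natCast_dvd.1 hd)⟩
  have hfin : δ * H * VV (Zf F) 0 H ≤ ((GP F r ((X : ℝ) ^ (τ / 4)) A H).card : ℝ) + S2.card := by
    refine hmain.trans ?_
    exact_mod_cast (card_le_card hsubset).trans (card_union_le _ _)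
  have hVlow := hlow H hH2 (Zf F) hsys
  have hsm : 4 * K * (H / (X : ℝ) ^ sg) ≤ δ / 2 * (H * VV (Zf F) 0 H) := by
    have hlH : 0 < Real.log H := Real.log_pos (by exact_mod_cast (by omega : 1 < H))
    have h1 : Real.log H ^ K ≤ Real.log X ^ K := pow_le_pow_left₀ hlH.le (Real.log_le_log (by
      have : (2 : ℝ) ≤ H := by exact_mod_cast hH2
      linarith) hHX) K
    have h2 : cV / Real.log X ^ K ≤ VV (Zf F) 0 H := by
      refine le_trans ?_ hVlow
      exact div_le_div_of_nonneg_left hcV.le (by positivity) h1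
    have h3 : 4 * K / (X : ℝ) ^ sg ≤ δ / 2 * (cV / Real.log X ^ K) := by
      rw [mul_div_assoc', div_le_div_iff₀ (by positivity) (by positivity)]
      have h4 : δ / 2 * cV * (2 * (4 * K) / (δ * cV) * Real.log X ^ K) ≤ δ / 2 * cV * (X : ℝ) ^ sg :=
        mul_le_mul_of_nonneg_left x3 (by positivity)
      have h5 : δ / 2 * cV * (2 * (4 * K) / (δ * cV) * Real.log X ^ K) = 4 * K * Real.log X ^ K := by
        field_simp
      linarith
    calc 4 * K * (H / (X : ℝ) ^ sg) = H * (4 * K / (X : ℝ) ^ sg) := by ring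
      _ ≤ H * (δ / 2 * (cV / Real.log X ^ K)) := mul_le_mul_of_nonneg_left h3 hHr
      _ ≤ H * (δ / 2 * VV (Zf F) 0 H) := by
          apply mul_le_mul_of_nonneg_left _ hHr
          exact mul_le_mul_of_nonneg_left h2 (by positivity)
      _ = _ := by ring
  have e : δ * H * VV (Zf F) 0 H = δ / 2 * (H * VV (Zf F) 0 H) + δ / 2 * (H * VV (Zf F) 0 H) := by ring
  linarith

end Pool.Agent.Q253.Cov
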