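import Pool.Agent.Q253.Thin.Int
import Pool.Agent.Y843.HS.Top
import Pool.Agent.Y79.HS.Den

/-!
# Narrow progressions in dense subsets of sifted sets of integers
-/

set_option autoImplicit false

namespace Pool.Agent.Q253.Cov

open Finset Filter
open Pool.Agent.Y843.HS (Pr VV Pr_mem Pr_prime VV_split Sv)
open Pool.Agent.Q253.Thin (SysZ VZ_nonneg)

/-- **Szemerédi relative to sifted sets**, with the sieve product at `X`. -/
theorem ap_dense (k r : ℕ) (θ c : ℝ) (hθ : 0 < θ) (hθ1 : θ ≤ 1) (hc : 0 < c) : ∃ D X₀ : ℕ, ∀ X : ℕ, X₀ ≤ X →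
    ∀ Z : ℕ → Finset ℕ, SysZ r Z → ∀ A : ℕ, ∀ S : Finset ℕ, S ⊆ Ioc A (A + X) →
    (∀ n ∈ S, ∀ p : ℕ, p.Prime → (p : ℝ) ≤ (X : ℝ) ^ θ → n % p ∉ Z p) →
    c * (X * VV Z 0 X) ≤ (S.card : ℝ) →
    ∃ a d : ℕ, 1 ≤ d ∧ (d : ℝ) ≤ Real.log X ^ D ∧ ∀ j < k, a + j * d ∈ S := by
  classical
  set L : ℕ := ⌈2 / θ⌉₊ with hL
  have hLr : 2 / θ ≤ L := Nat.le_ceil _
  obtain ⟨cD, hcD, R₀, hden⟩ := Pool.Agent.Y79.HS.den r L
  obtain ⟨D, X₁, hfin⟩ := Pool.Agent.Y843.HS.fin k r θ (c * cD) hθ (by positivity)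
  have ev1 : ∀ᶠ X : ℕ in atTop, (max 4 ((R₀ : ℝ) + 2)) ≤ (X : ℝ) ^ (θ / 2) :=
    tendsto_natCast_atTop_atTop.eventually ((tendsto_rpow_atTop (by linarith)).eventually_ge_atTop _)
  obtain ⟨X₂, hX₂⟩ := eventually_atTop.1 ev1
  refine ⟨D, max (max X₁ X₂) 2, ?_⟩
  intro X hX Z hZ A S hS hav hcard
  have hX1 : X₁ ≤ X := ((le_max_left _ _).trans (le_max_left _ _)).trans hX
  have g1 := hX₂ X (((le_max_right _ _).trans (le_max_left _ _)).trans hX)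
  have hX2 : 2 ≤ X := (le_max_right _ _).trans hX
  have hXr : (2 : ℝ) ≤ X := by exact_mod_cast hX2
  have hX0 : (0 : ℝ) < X := by linarith
  have g2 : (4 : ℝ) ≤ (X : ℝ) ^ (θ / 2) := (le_max_left _ _).trans g1
  have g3 : (R₀ : ℝ) + 2 ≤ (X : ℝ) ^ (θ / 2) := (le_max_right _ _).trans g1
  obtain ⟨Y, hY⟩ : ∃ Y, Y = ⌊(X : ℝ) ^ θ⌋₊ := ⟨_, rfl⟩
  have hsq : (X : ℝ) ^ (θ / 2) * (X : ℝ) ^ (θ / 2) = (X : ℝ) ^ θ := by
    rw [← Real.rpow_add hX0]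
    congr 1
    ring
  have hYge : (X : ℝ) ^ (θ / 2) ≤ Y := by
    have h1 := Nat.lt_floor_add_one ((X : ℝ) ^ θ)
    rw [← hY] at h1
    nlinarith
  have hYX : Y ≤ X := by
    have h1 : (Y : ℝ) ≤ (X : ℝ) ^ θ := by rw [hY]; exact Nat.floor_le (by positivity)
    have h2 : (X : ℝ) ^ θ ≤ (X : ℝ) ^ (1 : ℝ) := Real.rpow_le_rpow_of_exponent_le (by linarith) hθ1
    rw [Real.rpow_one] at h2
    exact_mod_cast h1.trans h2
  have hRY : R₀ ≤ Y := by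
    have : (R₀ : ℝ) ≤ Y := by linarith
    exact_mod_cast this
  have hXY : X ≤ Y ^ L := by
    have h1 : (X : ℝ) ≤ (Y : ℝ) ^ L := by
      calc (X : ℝ) = (X : ℝ) ^ (θ / 2 * (2 / θ)) := by
            rw [show θ / 2 * (2 / θ) = 1 by field_simp, Real.rpow_one]
        _ ≤ (X : ℝ) ^ (θ / 2 * L) :=
            Real.rpow_le_rpow_of_exponent_le (by linarith) (mul_le_mul_of_nonneg_left hLr (by positivity))
        _ = ((X : ℝ) ^ (θ / 2)) ^ L := by rw [Real.rpow_mul hX0.le, Real.rpow_natCast]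
        _ ≤ _ := pow_le_pow_left₀ (by positivity) hYge L
    exact_mod_cast h1
  have hSv : Sv r Y X Z := by
    intro p hp
    have hpp := Pr_prime hp
    exact ⟨hZ.card p hpp, hZ.lt p hpp⟩
  have h1 := hden Y X hRY hXY Z hSv
  have h2 : cD * VV Z 0 Y ≤ VV Z 0 X := by
    rw [← VV_split Z (Nat.zero_le Y) hYX, mul_comm]
    exact mul_le_mul_of_nonneg_left h1 (VZ_nonneg hZ _ _)
  exact hfin X A hX1 Z (fun p hp _ => ⟨hZ.card p hp, hZ.loc p hp, hZ.lt p hp⟩) S hS hav (by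
    rw [← hY]
    refine le_trans ?_ hcard
    calc c * cD * X * VV Z 0 Y = c * (X * (cD * VV Z 0 Y)) := by ring
      _ ≤ _ := by
          apply mul_le_mul_of_nonneg_left _ hc.le
          exact mul_le_mul_of_nonneg_left h2 hX0.le)

end Pool.Agent.Q253.Cov
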