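import Pool.Agent.Q253.Cov.PolyW
import Pool.Agent.Q253.Cov.APd
import Pool.Agent.Q253.Thin.Poly
import Pool.Agent.Q253.P3.Lin

/-!
# Almost prime values of quadratic polynomials in all short intervals, and narrow progressions
-/

set_option autoImplicit false

namespace Pool.Agent.Q253.Cov

open Finset Filter Polynomial
open Pool.Agent.W23.DC (pr tt Mer)
open Pool.Agent.Y882 (PZ tt_lt prod_inj)
open Pool.Agent.Y882.PX
open Pool.Agent.Y882.SI (QF QF_eval mer_quad)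
open Pool.Agent.Y843.HS (Pr VV Pr_mem Pr_prime)
open Pool.Agent.Q253.Thin (SysZ VZ_nonneg VZ_low AdmP Zc sysP)
open Pool.Agent.H475R2.BH (rz rho_eq_rz)
open Pool.Agent.Q253.P3 (card_class)

/-- the polynomial `a X ^ 2 + b X + c` -/
noncomputable def QP (a b c : ℤ) : ℤ[X] := C a * X ^ 2 + C b * X + C c

theorem QP_eval (a b c n : ℤ) : (QP a b c).eval n = a * n ^ 2 + b * n + c := by
  unfold QP
  simp

theorem Zf_Zc (a b c : ℤ) : Zf (QP a b c) = Zc ![c, b, a] := by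
  funext q
  unfold Zf Zc
  apply filter_congr
  intro n _
  rw [QP_eval]
  have : Pool.Agent.Q253.Thin.val ![c, b, a] n = a * (n : ℤ) ^ 2 + b * n + c := by
    unfold Pool.Agent.Q253.Thin.val
    rw [Fin.sum_univ_three]
    simp
    ring
  rw [this]

/-- no fixed prime divisor -/
theorem QP_sys {a b c : ℤ} (hg : ∀ q : ℕ, q.Prime → ¬ ((q : ℤ) ∣ a ∧ (q : ℤ) ∣ b ∧ (q : ℤ) ∣ c))
    (hp : ¬ ((2 : ℤ) ∣ a + b ∧ (2 : ℤ) ∣ c)) : SysZ 2 (Zf (QP a b c)) := by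
  rw [Zf_Zc]
  apply sysP
  intro q hq
  by_contra hcon
  push Not at hcon
  have hv : ∀ n : ℕ, (q : ℤ) ∣ a * (n : ℤ) ^ 2 + b * n + c := by
    intro n
    have h := hcon n
    unfold Pool.Agent.Q253.Thin.val at h
    rw [Fin.sum_univ_three] at h
    have e : ![c, b, a] 0 * (n : ℤ) ^ ((0 : Fin 3) : ℕ) + ![c, b, a] 1 * (n : ℤ) ^ ((1 : Fin 3) : ℕ) +
        ![c, b, a] 2 * (n : ℤ) ^ ((2 : Fin 3) : ℕ) = a * (n : ℤ) ^ 2 + b * n + c := by
      simp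
      ring
    rwa [e] at h
  have h0 := hv 0
  have h1 := hv 1
  have h2 := hv 2
  norm_num at h0 h1 h2
  have h3 : (q : ℤ) ∣ a + b := by
    have := dvd_sub h1 h0
    rwa [add_sub_cancel_right] at this
  have h4 : (q : ℤ) ∣ 2 * a := by
    have h5 := dvd_sub (dvd_sub h2 h0) (h3.mul_left 2)
    have e : a * 4 + b * 2 + c - c - 2 * (a + b) = 2 * a := by ring
    rwa [e] at h5
  by_cases hq2 : q = 2
  · subst hq2
    exact hp ⟨by exact_mod_cast h3, by exact_mod_cast h0⟩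
  · have hqz : Prime (q : ℤ) := Nat.prime_iff_prime_int.1 hq
    rcases hqz.dvd_or_dvd h4 with h5 | h5
    · have h6 : q ∣ 2 := by exact_mod_cast h5
      exact hq2 ((Nat.prime_dvd_prime_iff_eq hq Nat.prime_two).1 h6)
    · have h6 : (q : ℤ) ∣ b := by
        have := dvd_sub h3 h5
        rwa [add_sub_cancel_left] at this
      exact hg q hq ⟨h5, h6, h0⟩

/-- the roots modulo a prime -/
theorem ro_QP (a b c : ℤ) (p : ℕ) (hp : p.Prime) (h2 : ¬ (p : ℤ) ∣ 2 * a) :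
    ro (QP a b c) 0 p = ro (QF (-(b ^ 2 - 4 * a * c))) 0 p := by
  have : Fact p.Prime := ⟨hp⟩
  unfold ro
  rw [rho_eq_rz _ _ hp.one_le, rho_eq_rz _ _ hp.one_le]
  unfold rz
  have hne : ((2 * a : ℤ) : ZMod p) ≠ 0 := by
    intro h
    exact h2 ((ZMod.intCast_zmod_eq_zero_iff_dvd _ _).1 h)
  have hne2 : (2 : ZMod p) ≠ 0 := by
    intro h
    apply hne
    push_cast
    rw [h, zero_mul]
  have hnea : (a : ZMod p) ≠ 0 := by
    intro h
    apply hne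
    push_cast
    rw [h, mul_zero]
  apply Nat.card_congr
  refine Equiv.subtypeEquiv ((Equiv.mulLeft₀ ((2 * a : ℤ) : ZMod p) hne).trans (Equiv.addRight (b : ZMod p))) ?_
  intro x
  have e1 : ((QP a b c + C 0).map (Int.castRingHom (ZMod p))).eval x = (a : ZMod p) * x ^ 2 + b * x + c := by
    unfold QP
    simp
  have e2 : ∀ y : ZMod p, ((QF (-(b ^ 2 - 4 * a * c)) + C 0).map (Int.castRingHom (ZMod p))).eval y =
      y ^ 2 - ((b : ZMod p) ^ 2 - 4 * a * c) := by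
    intro y
    unfold QF
    simp
    ring
  rw [e1, e2]
  have e3 : ((Equiv.mulLeft₀ ((2 * a : ℤ) : ZMod p) hne).trans (Equiv.addRight (b : ZMod p))) x = 2 * a * x + b := by
    simp
  rw [e3]
  have e4 : (2 * (a : ZMod p) * x + b) ^ 2 - ((b : ZMod p) ^ 2 - 4 * a * c) = (2 * 2 * a) * ((a : ZMod p) * x ^ 2 + b * x + c) := by
    ring
  rw [e4]
  constructor
  · intro h
    rw [h, mul_zero]
  · intro h
    rcases mul_eq_zero.1 h with h1 | h1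
    · exact absurd h1 (mul_ne_zero (mul_ne_zero hne2 hne2) hnea)
    · exact h1

theorem QP_mer {a b c : ℤ} (ha : 0 < a) (hD : ¬ IsSquare (b ^ 2 - 4 * a * c)) (ε₁ υ η : ℝ) (hε : 0 < ε₁) (hυ : υ ≤ 1) (hη : 0 < η) :
    ∃ Y0 : ℕ, ∀ Y : ℕ, Y0 ≤ Y → Mer (pr Y ε₁ υ) (tt Y) (fun p => (ro (QP a b c) 0 p : ℝ) / p) ε₁ υ η := by
  classical
  obtain ⟨Y1, h1⟩ := mer_quad (-(b ^ 2 - 4 * a * c)) (by rw [neg_neg]; exact hD) ε₁ υ η hε hυ hη
  have ev : ∀ᶠ Y : ℕ in atTop, (2 * a : ℝ) + 1 ≤ (Y : ℝ) ^ ε₁ :=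
    ((tendsto_rpow_atTop hε).comp tendsto_natCast_atTop_atTop).eventually_ge_atTop _
  obtain ⟨Y2, h2⟩ := eventually_atTop.1 ev
  refine ⟨max (max Y1 Y2) 2, ?_⟩
  intro Y hY
  have hY1 : Y1 ≤ Y := ((le_max_left _ _).trans (le_max_left _ _)).trans hY
  have hY2 := h2 Y (((le_max_right _ _).trans (le_max_left _ _)).trans hY)
  have hY3 : 2 ≤ Y := (le_max_right _ _).trans hY
  intro u v hu huv hv
  have h3 := h1 Y hY1 u v hu huv hv
  have h4 : ∑ p ∈ (pr Y ε₁ υ).filter (fun p => u ≤ tt Y p ∧ tt Y p < v), (ro (QP a b c) 0 p : ℝ) / p =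
      ∑ p ∈ (pr Y ε₁ υ).filter (fun p => u ≤ tt Y p ∧ tt Y p < v), (ro (QF (-(b ^ 2 - 4 * a * c))) 0 p : ℝ) / p := by
    apply sum_congr rfl
    intro p hp
    rw [mem_filter] at hp
    have hp1 := hp.1
    unfold pr at hp1
    rw [mem_filter] at hp1
    obtain ⟨_, hpp, hp2, _⟩ := hp1
    have hp3 : (Y : ℝ) ^ ε₁ ≤ p := by
      by_contra hlt
      push Not at hlt
      have := (tt_lt Y p ε₁ hY3 hpp.pos).2 hlt
      linarith
    have hp4 : 2 * a < p := by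
      have : (2 * a : ℝ) < p := by linarith
      exact_mod_cast this
    have hp5 : ¬ (p : ℤ) ∣ 2 * a := by
      intro hd
      have := Int.le_of_dvd (by linarith) hd
      linarith
    rw [ro_QP a b c p hpp hp5]
  rw [h4]
  exact h3

/-- the squares of the large primes -/
theorem QP_sq {a b c : ℤ} (ha : 0 < a) (hD : ¬ IsSquare (b ^ 2 - 4 * a * c)) : ∃ q₀ : ℕ, ∀ q : ℕ, q.Prime → q₀ ≤ q → ∀ A H : ℕ,
      ((((Ioc A (A + H)).filter (fun n : ℕ => ((q ^ 2 : ℕ) : ℤ) ∣ (QP a b c).eval (n : ℤ))).card : ℝ)) ≤ (2 : ℕ) * (H / (q : ℝ) ^ 2 + 1) := by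
  classical
  have hD0 : b ^ 2 - 4 * a * c ≠ 0 := fun h => hD (by rw [h]; exact ⟨0, by simp⟩)
  refine ⟨a.natAbs + (b ^ 2 - 4 * a * c).natAbs + 1, ?_⟩
  intro q hq hq0 A H
  have hqz : Prime (q : ℤ) := Nat.prime_iff_prime_int.1 hq
  have hqa : ¬ (q : ℤ) ∣ a := by
    intro hd
    have := Int.natCast_dvd.1 hd
    have := Nat.le_of_dvd (Int.natAbs_pos.2 ha.ne') this
    omega
  have hqD : ¬ (q : ℤ) ∣ b ^ 2 - 4 * a * c := by
    intro hd
    have := Int.natCast_dvd.1 hd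
    have := Nat.le_of_dvd (Int.natAbs_pos.2 hD0) this
    omega
  have hm : 0 < q ^ 2 := pow_pos hq.pos 2
  have hq1 : (q : ℤ) ∣ ((q ^ 2 : ℕ) : ℤ) := by
    push_cast
    exact dvd_pow_self _ (by norm_num)
  obtain ⟨E, hE⟩ : ∃ E, E = (Ioc A (A + H)).filter (fun n : ℕ => ((q ^ 2 : ℕ) : ℤ) ∣ (QP a b c).eval (n : ℤ)) := ⟨_, rfl⟩
  rw [← hE]
  have hEm : ∀ n ∈ E, n ∈ Ioc A (A + H) ∧ ((q ^ 2 : ℕ) : ℤ) ∣ a * (n : ℤ) ^ 2 + b * n + c := by
    intro n hn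
    rw [hE, mem_filter, QP_eval] at hn
    exact hn
  -- one class
  have hclass : ∀ E' ⊆ E, (∀ x ∈ E', ∀ y ∈ E', ((q ^ 2 : ℕ) : ℤ) ∣ (x : ℤ) - y) → (E'.card : ℝ) ≤ H / (q : ℝ) ^ 2 + 1 := by
    intro E' hE' hcl
    rcases E'.eq_empty_or_nonempty with h | ⟨x, hx⟩
    · rw [h, card_empty, Nat.cast_zero]
      positivity
    · have h1 := (abs_le.1 (card_class A H (q ^ 2) x hm)).2
      have h2 : (E'.card : ℝ) ≤ (((Ioc A (A + H)).filter (fun j => j ≡ x [MOD q ^ 2])).card : ℝ) := by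
        apply Nat.cast_le.2
        apply card_le_card
        intro y hy
        rw [mem_filter]
        refine ⟨(hEm y (hE' hy)).1, ?_⟩
        exact (Nat.modEq_iff_dvd.2 (hcl x hx y hy))
      push_cast at h1
      linarith
  rcases E.eq_empty_or_nonempty with h | ⟨n0, hn0⟩
  · rw [h, card_empty, Nat.cast_zero]
    positivity
  obtain ⟨-, hn0'⟩ := hEm n0 hn0
  have hdich : ∀ n ∈ E, ((q ^ 2 : ℕ) : ℤ) ∣ (n : ℤ) - n0 ∨ ((q ^ 2 : ℕ) : ℤ) ∣ a * ((n : ℤ) + n0) + b := by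
    intro n hn
    obtain ⟨-, hn'⟩ := hEm n hn
    have h3 : ((q ^ 2 : ℕ) : ℤ) ∣ ((n : ℤ) - n0) * (a * ((n : ℤ) + n0) + b) := by
      have := dvd_sub hn' hn0'
      have e : a * (n : ℤ) ^ 2 + b * n + c - (a * (n0 : ℤ) ^ 2 + b * n0 + c) = ((n : ℤ) - n0) * (a * ((n : ℤ) + n0) + b) := by ring
      rwa [e] at this
    by_cases h4 : (q : ℤ) ∣ (n : ℤ) - n0
    · left
      have h5 : ¬ (q : ℤ) ∣ a * ((n : ℤ) + n0) + b := by
        intro h6
        have h7 : (q : ℤ) ∣ 2 * a * n0 + b := by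
          have := dvd_sub h6 (h4.mul_left a)
          have e : a * ((n : ℤ) + n0) + b - a * ((n : ℤ) - n0) = 2 * a * n0 + b := by ring
          rwa [e] at this
        apply hqD
        have h8 := dvd_sub (h7.mul_left (2 * a * n0 + b)) ((hq1.trans hn0').mul_left (4 * a))
        have e : (2 * a * n0 + b) * (2 * a * n0 + b) - 4 * a * (a * (n0 : ℤ) ^ 2 + b * n0 + c) = b ^ 2 - 4 * a * c := by ring
        rwa [e] at h8
      have h6 : IsCoprime ((q ^ 2 : ℕ) : ℤ) (a * ((n : ℤ) + n0) + b) := by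
        push_cast
        apply IsCoprime.pow_left
        exact (Prime.coprime_iff_not_dvd hqz).2 h5
      exact h6.dvd_of_dvd_mul_right h3
    · right
      have h6 : IsCoprime ((q ^ 2 : ℕ) : ℤ) ((n : ℤ) - n0) := by
        push_cast
        apply IsCoprime.pow_left
        exact (Prime.coprime_iff_not_dvd hqz).2 h4
      exact h6.dvd_of_dvd_mul_left h3
  have hcop : IsCoprime ((q ^ 2 : ℕ) : ℤ) a := by
    push_cast
    apply IsCoprime.pow_left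
    exact (Prime.coprime_iff_not_dvd hqz).2 hqa
  have c1 := hclass (E.filter (fun n : ℕ => ((q ^ 2 : ℕ) : ℤ) ∣ (n : ℤ) - n0)) (filter_subset _ _) (by
    intro x hx y hy
    rw [mem_filter] at hx hy
    have := dvd_sub hx.2 hy.2
    rwa [sub_sub_sub_cancel_right] at this)
  have c2 := hclass (E.filter (fun n : ℕ => ((q ^ 2 : ℕ) : ℤ) ∣ a * ((n : ℤ) + n0) + b)) (filter_subset _ _) (by
    intro x hx y hy
    rw [mem_filter] at hx hy
    have h5 := dvd_sub hx.2 hy.2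
    have e : a * ((x : ℤ) + n0) + b - (a * ((y : ℤ) + n0) + b) = a * ((x : ℤ) - y) := by ring
    rw [e] at h5
    exact hcop.dvd_of_dvd_mul_left h5)
  have h3 : (E.card : ℝ) ≤ ((E.filter (fun n : ℕ => ((q ^ 2 : ℕ) : ℤ) ∣ (n : ℤ) - n0)).card : ℝ) +
      ((E.filter (fun n : ℕ => ((q ^ 2 : ℕ) : ℤ) ∣ a * ((n : ℤ) + n0) + b)).card : ℝ) := by
    have h4 : E ⊆ E.filter (fun n : ℕ => ((q ^ 2 : ℕ) : ℤ) ∣ (n : ℤ) - n0) ∪
        E.filter (fun n : ℕ => ((q ^ 2 : ℕ) : ℤ) ∣ a * ((n : ℤ) + n0) + b) := by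
      intro n hn
      rw [mem_union, mem_filter, mem_filter]
      rcases hdich n hn with h | h
      · exact Or.inl ⟨hn, h⟩
      · exact Or.inr ⟨hn, h⟩
    exact_mod_cast (card_le_card h4).trans (card_union_le _ _)
  push_cast
  linarith

theorem QP_ne {a b c : ℤ} (hD : ¬ IsSquare (b ^ 2 - 4 * a * c)) (n : ℕ) : (QP a b c).eval (n : ℤ) ≠ 0 := by
  rw [QP_eval]
  intro h
  apply hD
  refine ⟨2 * a * n + b, ?_⟩
  linear_combination (-4 * a) * h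

theorem QP_size (a b c : ℤ) (S : ℝ) (hS : 2 < S) : ∃ X₁ : ℕ, ∀ X : ℕ, X₁ ≤ X → ∀ n : ℕ, n ≤ X →
    (((QP a b c).eval (n : ℤ)).natAbs : ℝ) ≤ (X : ℝ) ^ S := by
  have ev : ∀ᶠ Y : ℕ in atTop, |(a : ℝ)| + |(b : ℝ)| + |(c : ℝ)| ≤ (Y : ℝ) ^ (S - 2) :=
    ((tendsto_rpow_atTop (by linarith)).comp tendsto_natCast_atTop_atTop).eventually_ge_atTop _
  obtain ⟨X1, h1⟩ := eventually_atTop.1 (ev.and (eventually_ge_atTop 1))
  refine ⟨X1, fun X hX n hn => ?_⟩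
  obtain ⟨h2, h3⟩ := h1 X hX
  have hXr : (1 : ℝ) ≤ X := by exact_mod_cast h3
  have hX0 : (0 : ℝ) < X := by linarith
  have hn' : (n : ℝ) ≤ X := by exact_mod_cast hn
  have hn0 : (0 : ℝ) ≤ n := Nat.cast_nonneg _
  have hX2 : (1 : ℝ) ≤ (X : ℝ) ^ 2 := one_le_pow₀ hXr
  rw [QP_eval]
  have e : (((a * (n : ℤ) ^ 2 + b * n + c).natAbs : ℕ) : ℝ) = |(a : ℝ) * (n : ℝ) ^ 2 + b * n + c| := by
    rw [Nat.cast_natAbs]
    push_cast
    rfl
  rw [e]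
  have q1 : (n : ℝ) ^ 2 ≤ (X : ℝ) ^ 2 := pow_le_pow_left₀ hn0 hn' 2
  have q2 : (n : ℝ) ≤ (X : ℝ) ^ 2 := by nlinarith
  calc |(a : ℝ) * (n : ℝ) ^ 2 + b * n + c| ≤ |(a : ℝ) * (n : ℝ) ^ 2| + |(b : ℝ) * n| + |(c : ℝ)| := abs_add_three _ _ _
    _ = |(a : ℝ)| * (n : ℝ) ^ 2 + |(b : ℝ)| * n + |(c : ℝ)| * 1 := by
        rw [abs_mul, abs_mul, abs_of_nonneg (by positivity : (0 : ℝ) ≤ (n : ℝ) ^ 2), abs_of_nonneg hn0, mul_one]
    _ ≤ |(a : ℝ)| * (X : ℝ) ^ 2 + |(b : ℝ)| * (X : ℝ) ^ 2 + |(c : ℝ)| * (X : ℝ) ^ 2 := by gcongr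
    _ = (|(a : ℝ)| + |(b : ℝ)| + |(c : ℝ)|) * (X : ℝ) ^ 2 := by ring
    _ ≤ (X : ℝ) ^ (S - 2) * (X : ℝ) ^ 2 := mul_le_mul_of_nonneg_right h2 (by positivity)
    _ = (X : ℝ) ^ S := by
        rw [← Real.rpow_natCast (X : ℝ) 2, ← Real.rpow_add hX0]
        congr 1
        push_cast
        ring

/-- large values -/
theorem QP_big {a b c : ℤ} (ha : 0 < a) : ∃ n₀ : ℕ, ∀ n : ℕ, n₀ ≤ n → 2 ≤ ((QP a b c).eval (n : ℤ)).natAbs := by
  refine ⟨b.natAbs + c.natAbs + 3, fun n hn => ?_⟩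
  rw [QP_eval]
  have h1 : (b.natAbs : ℤ) + c.natAbs + 3 ≤ n := by exact_mod_cast hn
  have h2 : -(b.natAbs : ℤ) ≤ b := by
    rw [Int.natCast_natAbs]
    exact neg_abs_le b
  have h3 : -(c.natAbs : ℤ) ≤ c := by
    rw [Int.natCast_natAbs]
    exact neg_abs_le c
  have h4 : (0 : ℤ) ≤ b.natAbs := by positivity
  have h5 : (0 : ℤ) ≤ c.natAbs := by positivity
  have h6 : (n : ℤ) ^ 2 ≤ a * (n : ℤ) ^ 2 := by nlinarith [sq_nonneg (n : ℤ)]
  have h7 : (2 : ℤ) ≤ a * (n : ℤ) ^ 2 + b * n + c := by nlinarith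
  omega

/-- the `n` of `(A, A + H]` with `|F n| ≥ 2` having at most `r` prime factors, all at least `X ^ (h/5)` -/
noncomputable def GQ (F : ℤ[X]) (r : ℕ) (h : ℝ) (X A H : ℕ) : Finset ℕ :=
  (GP F r ((X : ℝ) ^ (h / 5)) A H).filter (fun n : ℕ => 2 ≤ (F.eval (n : ℤ)).natAbs)

theorem VV_large (r : ℕ) (hr : 1 ≤ r) (δ h : ℝ) (hδ : 0 < δ) (hh : 0 < h) (N : ℝ) : ∃ X₀ : ℕ, ∀ X H : ℕ, X₀ ≤ X → H ≤ X → (X : ℝ) ^ h ≤ H →
    ∀ Z : ℕ → Finset ℕ, SysZ r Z → N ≤ δ * (H * VV Z 0 H) := by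
  obtain ⟨cV, hcV, hlow⟩ := VZ_low r hr
  have h1 : Tendsto (fun x : ℝ => Real.log x ^ (r : ℝ) / x ^ h) atTop (nhds 0) :=
    (isLittleO_log_rpow_rpow_atTop (r : ℝ) hh).tendsto_div_nhds_zero
  have h2 := h1.eventually_le_const (show (0 : ℝ) < δ * cV / (|N| + 1) by positivity)
  have h3 : ∀ᶠ X : ℕ in atTop, (2 : ℝ) ≤ (X : ℝ) ^ h :=
    ((tendsto_rpow_atTop hh).comp tendsto_natCast_atTop_atTop).eventually_ge_atTop _
  obtain ⟨X₀, hX₀⟩ := eventually_atTop.1 ((tendsto_natCast_atTop_atTop.eventually h2).and (h3.and (eventually_ge_atTop 3)))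
  refine ⟨X₀, fun X H hX hHX hH Z hZ => ?_⟩
  obtain ⟨e1, e2, e3⟩ := hX₀ X hX
  have hXr : (3 : ℝ) ≤ X := by exact_mod_cast e3
  have hX0 : (0 : ℝ) < X := by linarith
  have hlX : 0 < Real.log X := Real.log_pos (by linarith)
  have hHr : (2 : ℝ) ≤ H := e2.trans hH
  have hH2 : 2 ≤ H := by exact_mod_cast hHr
  have hlH : 0 < Real.log H := Real.log_pos (by linarith)
  have g1 := hlow H hH2 Z hZ
  have g2 : cV / Real.log X ^ r ≤ VV Z 0 H := by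
    refine le_trans ?_ g1
    apply div_le_div_of_nonneg_left hcV.le (by positivity)
    exact pow_le_pow_left₀ hlH.le (Real.log_le_log (by linarith) (by exact_mod_cast hHX)) r
  rw [Real.rpow_natCast, div_le_div_iff₀ (by positivity) (by positivity)] at e1
  have g3 : (|N| + 1) ≤ δ * ((X : ℝ) ^ h * (cV / Real.log X ^ r)) := by
    have e : δ * ((X : ℝ) ^ h * (cV / Real.log X ^ r)) = δ * cV * (X : ℝ) ^ h / Real.log X ^ r := by ring
    rw [e, le_div_iff₀ (by positivity)]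
    linarith
  have g4 : (X : ℝ) ^ h * (cV / Real.log X ^ r) ≤ H * VV Z 0 H :=
    mul_le_mul hH g2 (by positivity) (by positivity)
  calc N ≤ |N| + 1 := by linarith [le_abs_self N]
    _ ≤ _ := g3
    _ ≤ _ := mul_le_mul_of_nonneg_left g4 hδ.le

/-- **Almost prime values of quadratic polynomials in all short intervals.** -/
theorem quad_count {a b c : ℤ} (ha : 0 < a) (hg : ∀ q : ℕ, q.Prime → ¬ ((q : ℤ) ∣ a ∧ (q : ℤ) ∣ b ∧ (q : ℤ) ∣ c))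
    (hp : ¬ ((2 : ℤ) ∣ a + b ∧ (2 : ℤ) ∣ c)) (hD : ¬ IsSquare (b ^ 2 - 4 * a * c)) (r : ℕ) (h : ℝ) (hh1 : h ≤ 1)
    (hr3 : 1 ≤ r) (hr : 50 < 3 * (8 * r - 1) * h) :
    ∃ δ : ℝ, 0 < δ ∧ ∃ X₀ : ℕ, ∀ X : ℕ, X₀ ≤ X → ∀ A H : ℕ, A + H ≤ X → (X : ℝ) ^ h ≤ H →
      δ * (H * VV (Zf (QP a b c)) 0 H) ≤ ((GQ (QP a b c) r h X A H).card : ℝ) := by
  classical
  have hsys := QP_sys hg hp
  have hr1 : (1 : ℝ) ≤ r := by exact_mod_cast hr3
  have h8 : (0 : ℝ) < 3 * (8 * r - 1) := by linarith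
  have hh0 : 0 < h := by
    by_contra hcon
    push Not at hcon
    nlinarith
  obtain ⟨h₀, hh₀⟩ : ∃ h₀ : ℝ, h₀ = 50 / (3 * (8 * r - 1)) := ⟨_, rfl⟩
  have hh00 : 0 < h₀ := by rw [hh₀]; positivity
  have hlt : h₀ < h := by
    rw [hh₀, div_lt_iff₀ h8]
    linarith
  obtain ⟨τ, hτ⟩ : ∃ τ, τ = max ((h + h₀) / 2) (9 / 10 * h) := ⟨_, rfl⟩
  have hτ1 : (h + h₀) / 2 ≤ τ := by rw [hτ]; exact le_max_left _ _
  have hτ2 : 9 / 10 * h ≤ τ := by rw [hτ]; exact le_max_right _ _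
  have hτh : τ < h := by
    rw [hτ]
    apply max_lt <;> linarith
  have hτ0 : 0 < τ := by linarith
  have hS : 2 < 2 * τ / h₀ := by
    rw [lt_div_iff₀ hh00]
    linarith
  obtain ⟨δ, hδ, X₀, H1⟩ := pw (QP a b c) 2 (by norm_num) hsys (fun ε₁ υ η h1 h2 h3 => QP_mer ha hD ε₁ υ η h1 h2 h3)
    (QP_sq ha hD) (fun n => QP_ne hD n) r τ h (2 * τ / h₀) hτ0 hτh hh1 (QP_size a b c _ hS) (by
      have e : 2 * τ / h₀ / (24 / 25 * τ) = 25 / 12 / h₀ := by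
        field_simp
        ring
      rw [e, hh₀]
      have e2 : 25 / 12 / (50 / (3 * (8 * (r : ℝ) - 1))) = r - 1 / 8 := by
        field_simp
        ring
      rw [e2]
      linarith)
  obtain ⟨n₀, hn₀⟩ := QP_big (a := a) (b := b) (c := c) ha
  obtain ⟨X₂, hX₂⟩ := VV_large 2 (by norm_num) (δ / 2) h (by positivity) hh0 (n₀ : ℝ)
  refine ⟨δ / 2, by positivity, max (max X₀ X₂) 1, ?_⟩
  intro X hX A H hAH hH
  have g1 := H1 X (((le_max_left _ _).trans (le_max_left _ _)).trans hX) A H hAH hH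
  have g2 := hX₂ X H (((le_max_right _ _).trans (le_max_left _ _)).trans hX) (by omega) hH _ hsys
  have hX1 : (1 : ℝ) ≤ X := by exact_mod_cast (le_max_right _ _).trans hX
  have g3 : (((GP (QP a b c) r ((X : ℝ) ^ (τ / 4)) A H).card : ℕ) : ℝ) ≤ ((GQ (QP a b c) r h X A H).card : ℝ) + n₀ := by
    have g4 : GP (QP a b c) r ((X : ℝ) ^ (τ / 4)) A H ⊆ GQ (QP a b c) r h X A H ∪ range n₀ := by
      intro n hn
      rw [mem_union, mem_range]
      by_cases hn1 : n < n₀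
      · exact Or.inr hn1
      · left
        push Not at hn1
        unfold GP at hn
        rw [mem_filter] at hn
        unfold GQ GP
        rw [mem_filter, mem_filter]
        refine ⟨⟨hn.1, hn.2.1, fun q hq hqd => ?_⟩, hn₀ n hn1⟩
        refine le_trans ?_ (hn.2.2 q hq hqd)
        apply Real.rpow_le_rpow_of_exponent_le hX1
        linarith
    have g5 := (card_le_card g4).trans (card_union_le _ _)
    rw [card_range] at g5
    exact_mod_cast g5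
  have e : δ * (H * VV (Zf (QP a b c)) 0 H) = δ / 2 * (H * VV (Zf (QP a b c)) 0 H) + δ / 2 * (H * VV (Zf (QP a b c)) 0 H) := by ring
  linarith

/-- **Narrow progressions in the dense subsets.** -/
theorem quad_ap {a b c : ℤ} (ha : 0 < a) (hg : ∀ q : ℕ, q.Prime → ¬ ((q : ℤ) ∣ a ∧ (q : ℤ) ∣ b ∧ (q : ℤ) ∣ c))
    (hp : ¬ ((2 : ℤ) ∣ a + b ∧ (2 : ℤ) ∣ c)) (hD : ¬ IsSquare (b ^ 2 - 4 * a * c)) (r : ℕ) (h : ℝ) (hh1 : h ≤ 1)
    (hr3 : 1 ≤ r) (hr : 50 < 3 * (8 * r - 1) * h) (k : ℕ) (ε : ℝ) (hε : 0 < ε) :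
    ∃ D X₀ : ℕ, ∀ X : ℕ, X₀ ≤ X → ∀ A H : ℕ, A + H ≤ X → (X : ℝ) ^ h ≤ H → ∀ S ⊆ GQ (QP a b c) r h X A H,
      ε * ((GQ (QP a b c) r h X A H).card : ℝ) ≤ S.card →
      ∃ m d : ℕ, 1 ≤ d ∧ (d : ℝ) ≤ Real.log X ^ D ∧ ∀ j < k, m + j * d ∈ S := by
  classical
  have hsys := QP_sys hg hp
  have hr1 : (1 : ℝ) ≤ r := by exact_mod_cast hr3
  have hh0 : 0 < h := by
    by_contra hcon
    push Not at hcon
    nlinarith
  obtain ⟨δ, hδ, X₀, H1⟩ := quad_count ha hg hp hD r h hh1 hr3 hr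
  obtain ⟨D, X₁, H2⟩ := ap_dense k 2 (h / 6) (ε * δ) (by positivity) (by linarith) (by positivity)
  have ev1 : ∀ᶠ X : ℕ in atTop, (X₁ : ℝ) + 1 ≤ (X : ℝ) ^ h :=
    ((tendsto_rpow_atTop hh0).comp tendsto_natCast_atTop_atTop).eventually_ge_atTop _
  obtain ⟨X₂, hX₂⟩ := eventually_atTop.1 ev1
  refine ⟨D, max (max X₀ X₂) 2, ?_⟩
  intro X hX A H hAH hH S hS hSc
  have g1 := H1 X (((le_max_left _ _).trans (le_max_left _ _)).trans hX) A H hAH hH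
  have g2 := hX₂ X (((le_max_right _ _).trans (le_max_left _ _)).trans hX)
  have hX2 : 2 ≤ X := (le_max_right _ _).trans hX
  have hXr : (2 : ℝ) ≤ X := by exact_mod_cast hX2
  have hHX : (H : ℝ) ≤ X := by exact_mod_cast (by omega : H ≤ X)
  have hXH : X₁ ≤ H := by
    have : (X₁ : ℝ) ≤ H := by linarith
    exact_mod_cast this
  have hH1 : (1 : ℝ) ≤ H := by
    have : (0 : ℝ) ≤ X₁ := Nat.cast_nonneg _
    linarith
  have hSG : ∀ n ∈ S, n ∈ Ioc A (A + H) ∧ ∀ q : ℕ, q.Prime → (q : ℤ) ∣ (QP a b c).eval (n : ℤ) → (X : ℝ) ^ (h / 5) ≤ q := by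
    intro n hn
    have := hS hn
    unfold GQ GP at this
    rw [mem_filter, mem_filter] at this
    exact ⟨this.1.1, this.1.2.2⟩
  obtain ⟨m, d, hd1, hd2, hd3⟩ := H2 H hXH (Zf (QP a b c)) hsys A S (fun n hn => (hSG n hn).1) (by
    intro n hn p hpp hpH hmem
    rw [Zf_mem _ hpp.pos] at hmem
    have h1 := (hSG n hn).2 p hpp hmem
    have h2 : (H : ℝ) ^ (h / 6) ≤ (X : ℝ) ^ (h / 6) := Real.rpow_le_rpow (by linarith) hHX (by positivity)
    have h3 : (X : ℝ) ^ (h / 6) < (X : ℝ) ^ (h / 5) := Real.rpow_lt_rpow_of_exponent_lt (by linarith) (by linarith)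
    linarith) (by
    refine le_trans ?_ hSc
    calc ε * δ * (H * VV (Zf (QP a b c)) 0 H) = ε * (δ * (H * VV (Zf (QP a b c)) 0 H)) := by ring
      _ ≤ _ := mul_le_mul_of_nonneg_left g1 hε.le)
  refine ⟨m, d, hd1, hd2.trans ?_, hd3⟩
  exact pow_le_pow_left₀ (Real.log_nonneg hH1) (Real.log_le_log (by linarith) hHX) D

end Pool.Agent.Q253.Cov
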