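import Pool.Agent.Q253.Cov.PolyW
import Pool.Agent.Q253.Cov.QuadF
import Pool.Agent.Q253.Cov.APd
import Pool.Agent.Q253.P3.APL

/-!
# The weighted sieve in all arithmetic progressions, all levels
-/

set_option autoImplicit false

namespace Pool.Agent.Q253.Cov

open Finset Filter
open Pool.Agent.W23.DC (pr tt Mer)
open Pool.Agent.Y882 (PZ tt_lt prod_inj)
open Pool.Agent.Y882.KW
open Pool.Agent.Y843.HS (Pr VV Pr_mem Pr_prime)
open Pool.Agent.Q253.Thin (SysZ VZ_nonneg VZ_low)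
open Pool.Agent.Q253.P3 (rl merl Zl Zl_card mem_Zl card_lin)

/-- the `j` of `(A, A + H]` with `m j + a ≥ 2` having at most `r` prime factors, all at least `z` -/
noncomputable def GLn (r : ℕ) (z : ℝ) (m a A H : ℕ) : Finset ℕ :=
  open Classical in (Ioc A (A + H)).filter (fun j => 2 ≤ m * j + a ∧ (m * j + a).primeFactorsList.length ≤ r ∧
    ∀ q : ℕ, q.Prime → q ∣ m * j + a → z ≤ q)

theorem rl_le (m p : ℕ) : rl m p ≤ 1 := by
  unfold rl
  split_ifs <;> simp

theorem Zl_sys {m a : ℕ} (ham : Nat.Coprime a m) : SysZ 1 (Zl m a) where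
  card p hp := by
    rw [Zl_card hp ham]
    exact rl_le m p
  loc p hp := by
    rw [Zl_card hp ham]
    exact lt_of_le_of_lt (rl_le m p) hp.one_lt
  lt p hp x hx := by
    unfold Zl at hx
    rw [mem_filter, mem_range] at hx
    exact hx.1

/-- **Almost primes in all arithmetic progressions.** -/
theorem lin_count (r : ℕ) (h : ℝ) (hh1 : h ≤ 1) (hr3 : 1 ≤ r) (hr : 25 < 3 * (8 * r - 1) * h) :
    ∃ δ : ℝ, 0 < δ ∧ ∃ X₀ : ℕ, ∀ X : ℕ, X₀ ≤ X → ∀ m a A H : ℕ, 1 ≤ m → Nat.Coprime a m → m * (A + H) + a ≤ X →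
      (X : ℝ) ^ h ≤ H → δ * (H * VV (Zl m a) 0 H) ≤ ((GLn r ((X : ℝ) ^ (h / 5)) m a A H).card : ℝ) := by
  classical
  have hr1 : (1 : ℝ) ≤ r := by exact_mod_cast hr3
  have h8 : (0 : ℝ) < 3 * (8 * r - 1) := by linarith
  have hh0 : 0 < h := by
    by_contra hcon
    push Not at hcon
    nlinarith
  obtain ⟨h₀, hh₀⟩ : ∃ h₀ : ℝ, h₀ = 25 / (3 * (8 * r - 1)) := ⟨_, rfl⟩
  have hh00 : 0 < h₀ := by rw [hh₀]; positivity
  have hlt : h₀ < h := by
    rw [hh₀, div_lt_iff₀ h8]
    linarith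
  obtain ⟨τ, hτ⟩ : ∃ τ, τ = max ((h + h₀) / 2) (9 / 10 * h) := ⟨_, rfl⟩
  have hτ1 : (h + h₀) / 2 ≤ τ := by rw [hτ]; exact le_max_left _ _
  have hτ2 : 9 / 10 * h ≤ τ := by rw [hτ]; exact le_max_right _ _
  have hτh : τ < h := by
    rw [hτ]
    apply max_lt <;> linarith
  have hτ0 : 0 < τ := by linarith
  obtain ⟨g, hg⟩ : ∃ g, g = h - τ := ⟨_, rfl⟩
  have hg0 : 0 < g := by rw [hg]; linarith
  have h24 : 0 < 24 / 25 * τ := by positivity
  have hc := cond_A τ (8 / 9) hτ0 (by norm_num) (by norm_num)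
  obtain ⟨δ, ε₁, η, hδ, hε₁, hε₁ζ, hε₁β, hη, Y0, HC⟩ := core4 1 τ (τ / 4) (24 / 25 * τ) (8 / 9)
    ((8 / 9) / (24 / 25 * τ)) (τ + g / 4) h (g / 4) (by positivity) (by linarith) (by linarith) (by linarith)
    (by linarith) (by linarith) (by norm_num) (by positivity) (by rw [div_mul_cancel₀ _ h24.ne']) hc (by linarith)
    (by linarith) (by positivity)
  obtain ⟨Y1, HM⟩ := merl ε₁ (24 / 25 * τ) η hε₁ (by linarith) hη
  obtain ⟨cV, hcV, hlow⟩ := VZ_low 1 le_rfl
  -- eventual inequalities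
  have hlog : ∀ M s : ℝ, ∀ k : ℕ, 0 < M → 0 < s → ∀ᶠ X : ℕ in atTop, M * Real.log X ^ k ≤ (X : ℝ) ^ s := by
    intro M s k hM hs
    have h1 := (isLittleO_log_rpow_rpow_atTop (k : ℝ) hs).def (show (0 : ℝ) < 1 / M by positivity)
    have h2 := (tendsto_natCast_atTop_atTop (R := ℝ)).eventually h1
    filter_upwards [h2, eventually_ge_atTop 1] with X hX h1
    have hX1 : (1 : ℝ) ≤ X := by exact_mod_cast h1
    have hl := Real.log_nonneg hX1
    rw [Real.norm_of_nonneg (by positivity), Real.norm_of_nonneg (by positivity), Real.rpow_natCast] at hX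
    calc M * Real.log X ^ k ≤ M * (1 / M * (X : ℝ) ^ s) := mul_le_mul_of_nonneg_left hX hM.le
      _ = _ := by field_simp
  have ev1 := hlog 5 (g / 8) 1 (by positivity) (by positivity)
  obtain ⟨sg, hsg⟩ : ∃ sg, sg = min (τ / 4) (h - 24 / 25 * τ) := ⟨_, rfl⟩
  have hsg0 : 0 < sg := by
    rw [hsg]
    apply lt_min <;> linarith
  have ev2 := hlog (2 * 5 / (δ * cV)) sg 1 (by positivity) hsg0
  have ev3 : ∀ᶠ Y : ℕ in atTop, (2 : ℝ) ≤ (Y : ℝ) ^ (τ / 4) :=
    ((tendsto_rpow_atTop (by positivity)).comp tendsto_natCast_atTop_atTop).eventually_ge_atTop _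
  have ev4 : ∀ᶠ Y : ℕ in atTop, (2 : ℝ) ≤ (Y : ℝ) ^ h :=
    ((tendsto_rpow_atTop (by linarith)).comp tendsto_natCast_atTop_atTop).eventually_ge_atTop _
  obtain ⟨X2, e1⟩ := eventually_atTop.1 (ev1.and (ev2.and (ev3.and (ev4.and (eventually_ge_atTop 3)))))
  refine ⟨δ / 2, by positivity, max (max Y0 Y1) X2, ?_⟩
  intro X hX m a A H hm ham hAH hH
  have x0 : Y0 ≤ X := ((le_max_left _ _).trans (le_max_left _ _)).trans hX
  have x1 : Y1 ≤ X := ((le_max_right _ _).trans (le_max_left _ _)).trans hX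
  obtain ⟨x2, x3, x4, x5, x6⟩ := e1 X ((le_max_right _ _).trans hX)
  have hXr : (3 : ℝ) ≤ X := by exact_mod_cast x6
  have hX1 : (1 : ℝ) ≤ X := by linarith
  have hX0 : (0 : ℝ) < X := by linarith
  have hlX : 0 < Real.log X := Real.log_pos (by linarith)
  rw [pow_one] at x2 x3
  obtain ⟨cw, hw1, hw2, hw3⟩ := HC X x0
  have hPZ : ∀ w : ℝ, ∀ p ∈ PZ X w, p.Prime := by
    intro w p hp
    unfold PZ at hp
    rw [mem_filter] at hp
    exact hp.2.1
  have hJ : (Ioc A (A + H)).card = H := by rw [Nat.card_Ioc]; omega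
  have hHr : (0 : ℝ) ≤ H := Nat.cast_nonneg H
  have hH2 : 2 ≤ H := by
    have : (2 : ℝ) ≤ H := x5.trans hH
    exact_mod_cast this
  have hmH : m * H ≤ X := by nlinarith
  have hHX' : H ≤ X := by nlinarith
  have hmX : m ≤ X := by nlinarith
  have hHX : (H : ℝ) ≤ X := by exact_mod_cast hHX'
  -- the remainder
  have hrem : |∑ T ∈ (PZ X (24 / 25 * τ)).powerset, cw T * ((((Ioc A (A + H)).filter (fun j : ℕ => ∏ p ∈ T, p ∣ m * j + a)).card : ℝ) -
      (Ioc A (A + H)).card * ∏ p ∈ T, ((rl m p : ℝ) / p))| ≤ (Ioc A (A + H)).card * (X : ℝ) ^ (-(g / 4)) := by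
    rw [hJ]
    have hterm : ∀ T ∈ (PZ X (24 / 25 * τ)).powerset, |cw T * ((((Ioc A (A + H)).filter (fun j : ℕ => ∏ p ∈ T, p ∣ m * j + a)).card : ℝ) -
        H * ∏ p ∈ T, ((rl m p : ℝ) / p))| ≤ if cw T ≠ 0 then 5 * Real.log X else 0 := by
      intro T hT
      rw [mem_powerset] at hT
      split_ifs with h0
      · rw [abs_mul]
        by_cases hex : ∃ p ∈ T, p ∣ m
        · obtain ⟨p, hp, hpm⟩ := hex
          have h1 : ∏ p ∈ T, ((rl m p : ℝ) / p) = 0 := by
            apply prod_eq_zero hp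
            unfold rl
            rw [if_pos hpm]
            simp
          have h2 : (Ioc A (A + H)).filter (fun j => ∏ p ∈ T, p ∣ m * j + a) = ∅ := by
            apply filter_false_of_mem
            intro j _ hj
            have h3 : p ∣ m * j + a := (dvd_prod_of_mem _ hp).trans hj
            have h4 : p ∣ a := (Nat.dvd_add_right (hpm.mul_right j)).1 h3
            exact (hPZ _ p (hT hp)).one_lt.ne' (Nat.dvd_one.1 (ham ▸ Nat.dvd_gcd h4 hpm))
          rw [h1, h2, card_empty, Nat.cast_zero, mul_zero, sub_zero, abs_zero, mul_zero]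
          positivity
        · push Not at hex
          have h1 : ∏ p ∈ T, ((rl m p : ℝ) / p) = 1 / ((∏ p ∈ T, p : ℕ) : ℝ) := by
            have h3 : ∀ p ∈ T, ((rl m p : ℝ) / p) = 1 / (p : ℝ) := by
              intro p hp
              unfold rl
              rw [if_neg (hex p hp)]
              simp
            rw [prod_congr rfl h3, prod_div_distrib, prod_const]
            push_cast
            rw [one_pow]
          have hd : 0 < ∏ p ∈ T, p := prod_pos fun p hp => (hPZ _ p (hT hp)).pos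
          have hcop : Nat.Coprime m (∏ p ∈ T, p) := by
            apply Nat.Coprime.prod_right
            intro p hp
            rw [Nat.coprime_comm]
            exact (Nat.Prime.coprime_iff_not_dvd (hPZ _ p (hT hp))).2 (hex p hp)
          rw [h1, mul_one_div]
          have h2 := card_lin m a A H (∏ p ∈ T, p) hd hcop
          calc |cw T| * _ ≤ (5 * Real.log X) * 1 := mul_le_mul (hw1 T) h2 (abs_nonneg _) (by positivity)
            _ = _ := mul_one _
      · push Not at h0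
        rw [h0, zero_mul, abs_zero]
    refine (abs_sum_le_sum_abs _ _).trans ((sum_le_sum hterm).trans ?_)
    rw [← sum_filter, sum_const, nsmul_eq_mul]
    have hcard : ((((PZ X (24 / 25 * τ)).powerset.filter (fun T => cw T ≠ 0)).card : ℕ) : ℝ) ≤ (X : ℝ) ^ (τ + g / 4) := by
      have h1 : ((PZ X (24 / 25 * τ)).powerset.filter (fun T => cw T ≠ 0)).card ≤
          (Icc 1 ⌊(X : ℝ) ^ (τ + g / 4)⌋₊).card := by
        apply card_le_card_of_injOn (fun T => ∏ p ∈ T, p)
        · intro T hT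
          rw [coe_filter, Set.mem_ofPred_eq, mem_powerset] at hT
          rw [coe_Icc, Set.mem_Icc]
          exact ⟨Nat.pos_of_ne_zero (prod_ne_zero_iff.2 fun p hp => (hPZ _ p (hT.1 hp)).ne_zero),
            Nat.le_floor (hw2 T hT.1 hT.2)⟩
        · intro T hT T' hT' he
          rw [coe_filter, Set.mem_ofPred_eq, mem_powerset] at hT hT'
          exact prod_inj _ (hPZ _) hT.1 hT'.1 he
      rw [Nat.card_Icc, Nat.add_sub_cancel] at h1
      calc ((((PZ X (24 / 25 * τ)).powerset.filter (fun T => cw T ≠ 0)).card : ℕ) : ℝ) ≤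
            (⌊(X : ℝ) ^ (τ + g / 4)⌋₊ : ℝ) := by exact_mod_cast h1
        _ ≤ _ := Nat.floor_le (by positivity)
    calc ((((PZ X (24 / 25 * τ)).powerset.filter (fun T => cw T ≠ 0)).card : ℕ) : ℝ) * (5 * Real.log X) ≤
          (X : ℝ) ^ (τ + g / 4) * (X : ℝ) ^ (g / 8) := by gcongr
      _ = (X : ℝ) ^ (τ + g / 4 + g / 8) := by rw [← Real.rpow_add hX0]
      _ ≤ (X : ℝ) ^ h * (X : ℝ) ^ (-(g / 4)) := by
          rw [← Real.rpow_add hX0]
          apply Real.rpow_le_rpow_of_exponent_le hX1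
          linarith
      _ ≤ _ := by gcongr
  have hmain := hw3 (Ioc A (A + H)) (fun j : ℕ => m * j + a) (rl m) H hH
    (fun p _ => rl_le m p) (fun p hp => (rl_le m p).trans hp.one_le) (HM X x1 m hm hmX) hrem
  rw [hJ] at hmain
  have hVX : ∏ p ∈ (Icc 1 H).filter Nat.Prime, (1 - (rl m p : ℝ) / p) = VV (Zl m a) 0 H := by
    unfold VV
    apply prod_congr
    · ext q
      rw [Pr_mem, mem_filter, mem_Icc]
      constructor
      · rintro ⟨⟨a, b⟩, c⟩
        exact ⟨⟨c.pos, b⟩, c⟩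
      · rintro ⟨⟨a, b⟩, c⟩
        exact ⟨⟨c.pos, b⟩, c⟩
    · intro q hq
      rw [Pr_mem] at hq
      rw [Zl_card hq.2 ham]
  rw [hVX] at hmain
  -- the squares
  obtain ⟨S2, hS2⟩ : ∃ S2 : Finset ℕ, S2 = (pr X (τ / 4) (24 / 25 * τ)).biUnion (fun q => (Ioc A (A + H)).filter
      (fun n : ℕ => q ^ 2 ∣ m * n + a)) := ⟨_, rfl⟩
  have hprm : ∀ q ∈ pr X (τ / 4) (24 / 25 * τ), q.Prime ∧ (X : ℝ) ^ (τ / 4) ≤ q ∧ (q : ℝ) < (X : ℝ) ^ (24 / 25 * τ) := by
    intro q hq
    unfold pr at hq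
    rw [mem_filter] at hq
    refine ⟨hq.2.1, ?_, (tt_lt X q _ (by omega) hq.2.1.pos).1 hq.2.2.2⟩
    by_contra hlt
    push Not at hlt
    have := (tt_lt X q (τ / 4) (by omega) hq.2.1.pos).2 hlt
    linarith [hq.2.2.1]
  have hS2c : (S2.card : ℝ) ≤ 4 * (H / (X : ℝ) ^ sg) := by
    have h1 : (S2.card : ℝ) ≤ ∑ q ∈ pr X (τ / 4) (24 / 25 * τ), ((H : ℝ) * (1 / (q : ℝ) ^ 2) + 1) := by
      rw [hS2]
      calc ((((pr X (τ / 4) (24 / 25 * τ)).biUnion (fun q => (Ioc A (A + H)).filter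
            (fun n : ℕ => q ^ 2 ∣ m * n + a))).card : ℕ) : ℝ) ≤
            ∑ q ∈ pr X (τ / 4) (24 / 25 * τ), ((((Ioc A (A + H)).filter (fun n : ℕ => q ^ 2 ∣ m * n + a)).card : ℕ) : ℝ) := by
            exact_mod_cast card_biUnion_le
        _ ≤ _ := by
            apply sum_le_sum
            intro q hq
            obtain ⟨q1, q2, q3⟩ := hprm q hq
            by_cases hqm : q ∣ m
            · have h2 : (Ioc A (A + H)).filter (fun n : ℕ => q ^ 2 ∣ m * n + a) = ∅ := by
                apply filter_false_of_mem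
                intro n _ hd
                have h3 : q ∣ m * n + a := (dvd_pow_self q (by norm_num)).trans hd
                have h4 : q ∣ a := (Nat.dvd_add_right (hqm.mul_right n)).1 h3
                exact q1.one_lt.ne' (Nat.dvd_one.1 (ham ▸ Nat.dvd_gcd h4 hqm))
              rw [h2, card_empty, Nat.cast_zero]
              positivity
            · have hcop : Nat.Coprime m (q ^ 2) := by
                apply Nat.Coprime.pow_right
                rw [Nat.coprime_comm]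
                exact (Nat.Prime.coprime_iff_not_dvd q1).2 hqm
              have h2 := card_lin m a A H (q ^ 2) (pow_pos q1.pos 2) hcop
              have h3 := (abs_le.1 h2).2
              push_cast at h3
              rw [div_eq_mul_one_div] at h3
              linarith
    have h2 := Pool.Agent.Y882.MG.tail_sq (pr X (τ / 4) (24 / 25 * τ)) ((X : ℝ) ^ (τ / 4)) x4 (fun q hq => (hprm q hq).2.1)
    have h3 := Pool.Agent.Y882.MG.card_lt (pr X (τ / 4) (24 / 25 * τ)) ((X : ℝ) ^ (24 / 25 * τ)) (by positivity)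
      (fun q hq => ⟨(hprm q hq).1.one_le, (hprm q hq).2.2.le⟩)
    rw [sum_add_distrib, sum_const, nsmul_eq_mul, mul_one, ← mul_sum] at h1
    have h5 : (H : ℝ) * (2 / (X : ℝ) ^ (τ / 4)) ≤ 2 * (H / (X : ℝ) ^ sg) := by
      have h6 : (X : ℝ) ^ sg ≤ (X : ℝ) ^ (τ / 4) :=
        Real.rpow_le_rpow_of_exponent_le hX1 (by rw [hsg]; exact min_le_left _ _)
      calc (H : ℝ) * (2 / (X : ℝ) ^ (τ / 4)) = 2 * (H / (X : ℝ) ^ (τ / 4)) := by ring
        _ ≤ _ := by
            apply mul_le_mul_of_nonneg_left _ (by norm_num)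
            exact div_le_div_of_nonneg_left hHr (by positivity) h6
    have h6 : (X : ℝ) ^ (24 / 25 * τ) ≤ H / (X : ℝ) ^ sg := by
      rw [le_div_iff₀ (by positivity), ← Real.rpow_add hX0]
      refine le_trans ?_ hH
      apply Real.rpow_le_rpow_of_exponent_le hX1
      have := min_le_right (τ / 4) (h - 24 / 25 * τ)
      rw [← hsg] at this
      linarith
    have h7 : 0 ≤ H / (X : ℝ) ^ sg := by positivity
    have h8 : (H : ℝ) * ∑ q ∈ pr X (τ / 4) (24 / 25 * τ), 1 / (q : ℝ) ^ 2 ≤ H * (2 / (X : ℝ) ^ (τ / 4)) :=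
      mul_le_mul_of_nonneg_left h2 hHr
    linarith
  have hsubset : ((Ioc A (A + H)).filter (fun j : ℕ => 0 < WW X (τ / 4) (24 / 25 * τ) (8 / 9) ((8 / 9) / (24 / 25 * τ)) (m * j + a))) ⊆
      GLn r ((X : ℝ) ^ (h / 5)) m a A H ∪ (S2 ∪ {A + 1}) := by
    intro n hn
    rw [mem_filter] at hn
    obtain ⟨hn1, hn2⟩ := hn
    rw [mem_union, mem_union, mem_singleton]
    by_cases hs : n ∈ S2
    · exact Or.inr (Or.inl hs)
    by_cases hn3 : n = A + 1
    · exact Or.inr (Or.inr hn3)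
    · left
      have hnI := mem_Ioc.1 hn1
      have hn4 : 2 ≤ m * n + a := by nlinarith [Nat.mul_le_mul hm (show 2 ≤ n by omega)]
      have hsq' : ∀ q ∈ pr X (τ / 4) (24 / 25 * τ), ¬ q ^ 2 ∣ m * n + a := by
        intro q hq hd
        apply hs
        rw [hS2, mem_biUnion]
        exact ⟨q, hq, mem_filter.2 ⟨hn1, hd⟩⟩
      obtain ⟨r1, r2⟩ := almost X (by omega) (τ / 4) (24 / 25 * τ) (8 / 9) (τ / h₀) r (by linarith) (by linarith) (by linarith)
        (by norm_num) (by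
          have e1 : (1 : ℝ) / (8 / 9) = 9 / 8 := by norm_num
          have e2 : τ / h₀ / (24 / 25 * τ) = 25 / 24 / h₀ := by
            field_simp
          have e3 : 25 / 24 / (25 / (3 * (8 * (r : ℝ) - 1))) = r - 1 / 8 := by
            field_simp
            ring
          rw [e1, e2, hh₀, e3]
          linarith) (m * n + a) (by omega) (by
          have h1 : ((m * n + a : ℕ) : ℝ) ≤ X := by
            have : m * n ≤ m * (A + H) := Nat.mul_le_mul_left m hnI.2
            exact_mod_cast (by omega : m * n + a ≤ X)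
          refine h1.trans ?_
          calc (X : ℝ) = (X : ℝ) ^ (1 : ℝ) := (Real.rpow_one _).symm
            _ ≤ _ := by
                apply Real.rpow_le_rpow_of_exponent_le hX1
                rw [le_div_iff₀ hh00]
                linarith) hn2 hsq'
      unfold GLn
      rw [mem_filter]
      refine ⟨hn1, hn4, r1, fun q hq hd => ?_⟩
      refine le_trans ?_ (r2 q hq hd)
      apply Real.rpow_le_rpow_of_exponent_le hX1
      linarith
  have hfin : δ * H * VV (Zl m a) 0 H ≤ ((GLn r ((X : ℝ) ^ (h / 5)) m a A H).card : ℝ) + (S2.card + 1) := by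
    refine hmain.trans ?_
    have := (card_le_card hsubset).trans (card_union_le _ _)
    have h2 : (S2 ∪ {A + 1}).card ≤ S2.card + 1 := by
      refine (card_union_le _ _).trans ?_
      rw [card_singleton]
    have h3 : ((Ioc A (A + H)).filter (fun j : ℕ => 0 < WW X (τ / 4) (24 / 25 * τ) (8 / 9) ((8 / 9) / (24 / 25 * τ)) (m * j + a))).card ≤
        (GLn r ((X : ℝ) ^ (h / 5)) m a A H).card + (S2.card + 1) := by omega
    exact_mod_cast h3
  have hone : (1 : ℝ) ≤ H / (X : ℝ) ^ sg := by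
    rw [le_div_iff₀ (by positivity), one_mul]
    refine le_trans ?_ hH
    apply Real.rpow_le_rpow_of_exponent_le hX1
    have := min_le_left (τ / 4) (h - 24 / 25 * τ)
    rw [← hsg] at this
    linarith
  have hVlow := hlow H hH2 (Zl m a) (Zl_sys ham)
  have hsm : 5 * (H / (X : ℝ) ^ sg) ≤ δ / 2 * (H * VV (Zl m a) 0 H) := by
    have hlH : 0 < Real.log H := Real.log_pos (by exact_mod_cast (by omega : 1 < H))
    have h1 : Real.log H ≤ Real.log X := Real.log_le_log (by
      have : (2 : ℝ) ≤ H := by exact_mod_cast hH2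
      linarith) hHX
    rw [pow_one] at hVlow
    have h2 : cV / Real.log X ≤ VV (Zl m a) 0 H := by
      refine le_trans ?_ hVlow
      exact div_le_div_of_nonneg_left hcV.le hlH h1
    have h3 : 5 / (X : ℝ) ^ sg ≤ δ / 2 * (cV / Real.log X) := by
      rw [mul_div_assoc', div_le_div_iff₀ (by positivity) (by positivity)]
      have h4 : δ / 2 * cV * (2 * 5 / (δ * cV) * Real.log X) ≤ δ / 2 * cV * (X : ℝ) ^ sg :=
        mul_le_mul_of_nonneg_left x3 (by positivity)
      have h5 : δ / 2 * cV * (2 * 5 / (δ * cV) * Real.log X) = 5 * Real.log X := by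
        field_simp
      linarith
    calc 5 * (H / (X : ℝ) ^ sg) = H * (5 / (X : ℝ) ^ sg) := by ring
      _ ≤ H * (δ / 2 * (cV / Real.log X)) := mul_le_mul_of_nonneg_left h3 hHr
      _ ≤ H * (δ / 2 * VV (Zl m a) 0 H) := by
          apply mul_le_mul_of_nonneg_left _ hHr
          exact mul_le_mul_of_nonneg_left h2 (by positivity)
      _ = _ := by ring
  have e : δ * H * VV (Zl m a) 0 H = δ / 2 * (H * VV (Zl m a) 0 H) + δ / 2 * (H * VV (Zl m a) 0 H) := by ring
  linarith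

/-- **Narrow progressions in the dense subsets.** -/
theorem lin_ap (r : ℕ) (h : ℝ) (hh1 : h ≤ 1) (hr3 : 1 ≤ r) (hr : 25 < 3 * (8 * r - 1) * h) (k : ℕ) (ε : ℝ) (hε : 0 < ε) :
    ∃ D X₀ : ℕ, ∀ X : ℕ, X₀ ≤ X → ∀ m a A H : ℕ, 1 ≤ m → Nat.Coprime a m → m * (A + H) + a ≤ X →
      (X : ℝ) ^ h ≤ H → ∀ S ⊆ GLn r ((X : ℝ) ^ (h / 5)) m a A H,
      ε * ((GLn r ((X : ℝ) ^ (h / 5)) m a A H).card : ℝ) ≤ S.card →
      ∃ j₀ d : ℕ, 1 ≤ d ∧ (d : ℝ) ≤ Real.log X ^ D ∧ ∀ j < k, j₀ + j * d ∈ S := by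
  classical
  have hr1 : (1 : ℝ) ≤ r := by exact_mod_cast hr3
  have hh0 : 0 < h := by
    by_contra hcon
    push Not at hcon
    nlinarith
  obtain ⟨δ, hδ, X₀, H1⟩ := lin_count r h hh1 hr3 hr
  obtain ⟨D, X₁, H2⟩ := ap_dense k 1 (h / 6) (ε * δ) (by positivity) (by linarith) (by positivity)
  have ev1 : ∀ᶠ X : ℕ in atTop, (X₁ : ℝ) + 1 ≤ (X : ℝ) ^ h :=
    ((tendsto_rpow_atTop hh0).comp tendsto_natCast_atTop_atTop).eventually_ge_atTop _
  obtain ⟨X₂, hX₂⟩ := eventually_atTop.1 ev1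
  refine ⟨D, max (max X₀ X₂) 2, ?_⟩
  intro X hX m a A H hm ham hAH hH S hS hSc
  have g1 := H1 X (((le_max_left _ _).trans (le_max_left _ _)).trans hX) m a A H hm ham hAH hH
  have g2 := hX₂ X (((le_max_right _ _).trans (le_max_left _ _)).trans hX)
  have hX2 : 2 ≤ X := (le_max_right _ _).trans hX
  have hXr : (2 : ℝ) ≤ X := by exact_mod_cast hX2
  have hHX' : H ≤ X := by nlinarith
  have hHX : (H : ℝ) ≤ X := by exact_mod_cast hHX'
  have hXH : X₁ ≤ H := by
    have : (X₁ : ℝ) ≤ H := by linarith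
    exact_mod_cast this
  have hH1 : (1 : ℝ) ≤ H := by
    have : (0 : ℝ) ≤ X₁ := Nat.cast_nonneg _
    linarith
  have hSG : ∀ n ∈ S, n ∈ Ioc A (A + H) ∧ ∀ q : ℕ, q.Prime → q ∣ m * n + a → (X : ℝ) ^ (h / 5) ≤ q := by
    intro n hn
    have := hS hn
    unfold GLn at this
    rw [mem_filter] at this
    exact ⟨this.1, this.2.2.2⟩
  obtain ⟨j₀, d, hd1, hd2, hd3⟩ := H2 H hXH (Zl m a) (Zl_sys ham) A S (fun n hn => (hSG n hn).1) (by
    intro n hn p hpp hpH hmem
    rw [mem_Zl hpp] at hmem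
    have h1 := (hSG n hn).2 p hpp hmem
    have h2 : (H : ℝ) ^ (h / 6) ≤ (X : ℝ) ^ (h / 6) := Real.rpow_le_rpow (by linarith) hHX (by positivity)
    have h3 : (X : ℝ) ^ (h / 6) < (X : ℝ) ^ (h / 5) := Real.rpow_lt_rpow_of_exponent_lt (by linarith) (by linarith)
    linarith) (by
    refine le_trans ?_ hSc
    calc ε * δ * (H * VV (Zl m a) 0 H) = ε * (δ * (H * VV (Zl m a) 0 H)) := by ring
      _ ≤ _ := mul_le_mul_of_nonneg_left g1 hε.le)
  refine ⟨j₀, d, hd1, hd2.trans ?_, hd3⟩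
  exact pow_le_pow_left₀ (Real.log_nonneg hH1) (Real.log_le_log (by linarith) hHX) D

end Pool.Agent.Q253.Cov
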