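import Pool.Agent.Q253.Cov.LinT

/-!
# The density of the integers of a progression without small prime factors, in terms of `φ`
-/

set_option autoImplicit false

namespace Pool.Agent.Q253.Cov

open Finset Filter
open Pool.Agent.Y843.HS (Pr VV Pr_mem Pr_prime)
open Pool.Agent.Y843.HG (V1 V1_bounds)
open Pool.Agent.Q253.P3 (rl Zl Zl_card mem_Zl)

/-- the number of the prime factors of `m` is at most `log m / log 2` -/
theorem card_pf_le (m : ℕ) (hm : 1 ≤ m) : (m.primeFactors.card : ℝ) * Real.log 2 ≤ Real.log m := by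
  have h1 : 2 ^ m.primeFactors.card ≤ m := by
    calc 2 ^ m.primeFactors.card ≤ ∏ p ∈ m.primeFactors, p := by
          apply Finset.pow_card_le_prod
          intro p hp
          exact (Nat.prime_of_mem_primeFactors hp).two_le
      _ ≤ m := Nat.le_of_dvd hm (Nat.prod_primeFactors_dvd m)
  rw [← Real.log_pow]
  apply Real.log_le_log (by positivity)
  exact_mod_cast h1

/-- the product of the `1 - x` is at least one minus the sum of the `x` -/
theorem prod_one_sub_ge {ι : Type*} [DecidableEq ι] (s : Finset ι) (f : ι → ℝ) (h0 : ∀ i ∈ s, 0 ≤ f i) (h1 : ∀ i ∈ s, f i ≤ 1) :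
    1 - ∑ i ∈ s, f i ≤ ∏ i ∈ s, (1 - f i) := by
  induction s using Finset.induction_on with
  | empty => simp
  | insert a s ha ih =>
    rw [sum_insert ha, prod_insert ha]
    have ih' := ih (fun i hi => h0 i (mem_insert_of_mem hi)) (fun i hi => h1 i (mem_insert_of_mem hi))
    have ha0 := h0 a (mem_insert_self _ _)
    have ha1 := h1 a (mem_insert_self _ _)
    have hs : ∏ i ∈ s, (1 - f i) ≤ 1 := prod_le_one (fun i hi => by have := h1 i (mem_insert_of_mem hi); linarith)
      (fun i hi => by have := h0 i (mem_insert_of_mem hi); linarith)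
    nlinarith

/-- **Density in terms of `φ`** -/
theorem dens_phi (h : ℝ) (hh : 0 < h) : ∃ c : ℝ, 0 < c ∧ ∃ X₀ : ℕ, ∀ X : ℕ, X₀ ≤ X → ∀ m a H : ℕ, 1 ≤ m → m ≤ X → Nat.Coprime a m →
    (X : ℝ) ^ h ≤ H → H ≤ X → c * ((m : ℝ) / m.totient) / Real.log X ≤ VV (Zl m a) 0 H := by
  classical
  obtain ⟨c, C, hc, hC, hV⟩ := V1_bounds
  have ev1 : ∀ᶠ X : ℕ in atTop, (2 : ℝ) ≤ (X : ℝ) ^ h :=
    ((tendsto_rpow_atTop hh).comp tendsto_natCast_atTop_atTop).eventually_ge_atTop _
  have ev2 : ∀ᶠ X : ℕ in atTop, Real.log X ≤ Real.log 2 / 2 * (X : ℝ) ^ h := by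
    have h1 := (isLittleO_log_rpow_atTop hh).def (show (0 : ℝ) < Real.log 2 / 2 by have := Real.log_pos (by norm_num : (1 : ℝ) < 2); positivity)
    have h2 := tendsto_natCast_atTop_atTop.eventually h1
    filter_upwards [h2, eventually_ge_atTop 1] with X hX hX1
    rw [Real.norm_of_nonneg (Real.log_nonneg (by exact_mod_cast hX1)), Real.norm_of_nonneg (by positivity)] at hX
    exact hX
  obtain ⟨X₀, hX₀⟩ := eventually_atTop.1 (ev1.and ev2)
  refine ⟨c / 2, by positivity, X₀, ?_⟩
  intro X hX m a H hm hmX ham hH hHX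
  obtain ⟨e1, e2⟩ := hX₀ X hX
  have hHr : (2 : ℝ) ≤ H := e1.trans hH
  have hH2 : 2 ≤ H := by exact_mod_cast hHr
  have hX2 : 2 ≤ X := hH2.trans hHX
  have hl2 : 0 < Real.log 2 := Real.log_pos (by norm_num)
  have hlH : 0 < Real.log H := Real.log_pos (by linarith)
  have hlHX : Real.log H ≤ Real.log X := Real.log_le_log (by linarith) (by exact_mod_cast hHX)
  obtain ⟨A, hA⟩ : ∃ A : ℝ, A = ∏ p ∈ m.primeFactors.filter (fun p => p ≤ H), (1 - 1 / (p : ℝ)) := ⟨_, rfl⟩
  obtain ⟨B, hB⟩ : ∃ B : ℝ, B = ∏ p ∈ m.primeFactors.filter (fun p => ¬ p ≤ H), (1 - 1 / (p : ℝ)) := ⟨_, rfl⟩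
  have hfac : ∀ p ∈ m.primeFactors, 0 < 1 - 1 / (p : ℝ) := by
    intro p hp
    have h2 : (2 : ℝ) ≤ p := by exact_mod_cast (Nat.prime_of_mem_primeFactors hp).two_le
    have : 1 / (p : ℝ) ≤ 1 / 2 := one_div_le_one_div_of_le (by norm_num) h2
    linarith
  have hA0 : 0 < A := by rw [hA]; exact prod_pos fun p hp => hfac p (mem_filter.1 hp).1
  have hφ : (m.totient : ℝ) = m * (A * B) := by
    have h1 := Nat.totient_eq_mul_prod_factors m
    have h2 : ((m.totient : ℚ) : ℝ) = ((m * ∏ p ∈ m.primeFactors, (1 - (p : ℚ)⁻¹) : ℚ) : ℝ) := by rw [h1]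
    push_cast at h2
    rw [h2, hA, hB, prod_filter_mul_prod_filter_not]
    simp only [one_div]
  have hB1 : 1 / 2 ≤ B := by
    have h1 : 1 - ∑ p ∈ m.primeFactors.filter (fun p => ¬ p ≤ H), 1 / (p : ℝ) ≤ B := by
      rw [hB]
      apply prod_one_sub_ge
      · intro p _
        positivity
      · intro p hp
        have := hfac p (mem_filter.1 hp).1
        linarith
    have h2 : ∑ p ∈ m.primeFactors.filter (fun p => ¬ p ≤ H), 1 / (p : ℝ) ≤ m.primeFactors.card * (1 / (H : ℝ)) := by
      calc _ ≤ ∑ p ∈ m.primeFactors.filter (fun p => ¬ p ≤ H), 1 / (H : ℝ) := by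
            apply sum_le_sum
            intro p hp
            have := (mem_filter.1 hp).2
            push Not at this
            apply one_div_le_one_div_of_le (by linarith)
            exact_mod_cast this.le
        _ = ((m.primeFactors.filter (fun p => ¬ p ≤ H)).card : ℝ) * (1 / (H : ℝ)) := by rw [sum_const, nsmul_eq_mul]
        _ ≤ _ := by
            apply mul_le_mul_of_nonneg_right _ (by positivity)
            exact_mod_cast card_le_card (filter_subset _ _)
    have h3 : (m.primeFactors.card : ℝ) * (1 / (H : ℝ)) ≤ 1 / 2 := by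
      rw [mul_one_div, div_le_div_iff₀ (by linarith) (by norm_num)]
      have h4 := card_pf_le m hm
      have h5 : Real.log m ≤ Real.log X := Real.log_le_log (by exact_mod_cast hm) (by exact_mod_cast hmX)
      have h6 : (m.primeFactors.card : ℝ) * Real.log 2 ≤ Real.log 2 / 2 * H :=
        h4.trans (h5.trans (e2.trans (mul_le_mul_of_nonneg_left hH (by positivity))))
      nlinarith
    linarith
  have hVA : VV (Zl m a) 0 H * A = V1 H := by
    have h1 : VV (Zl m a) 0 H = ∏ p ∈ (Pr 0 H).filter (fun p => ¬ p ∣ m), (1 - 1 / (p : ℝ)) := by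
      unfold VV
      rw [prod_filter]
      apply prod_congr rfl
      intro p hp
      rw [Zl_card (Pr_prime hp) ham]
      unfold rl
      split_ifs with hpm
      · simp
      · simp
    have h2 : A = ∏ p ∈ (Pr 0 H).filter (fun p => p ∣ m), (1 - 1 / (p : ℝ)) := by
      rw [hA]
      apply prod_congr _ (fun _ _ => rfl)
      ext p
      simp only [mem_filter, Nat.mem_primeFactors, Pr_mem]
      constructor
      · rintro ⟨⟨a1, a2, a3⟩, a4⟩
        exact ⟨⟨⟨a1.pos, a4⟩, a1⟩, a2⟩
      · rintro ⟨⟨⟨a1, a2⟩, a3⟩, a4⟩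
        exact ⟨⟨a3, a4, by omega⟩, a2⟩
    rw [h1, h2, mul_comm, prod_filter_mul_prod_filter_not]
    rfl
  have hV1 := (hV H hH2).1
  have hm0 : (0 : ℝ) < m := by exact_mod_cast hm
  have hφ0 : (0 : ℝ) < m.totient := by exact_mod_cast Nat.totient_pos.2 hm
  have hVV : VV (Zl m a) 0 H = V1 H / A := by
    rw [← hVA, mul_div_cancel_right₀ _ hA0.ne']
  rw [hVV, le_div_iff₀ hA0]
  have h7 : (m : ℝ) / m.totient = 1 / (A * B) := by
    rw [hφ]
    field_simp
  rw [h7]
  have hB0 : 0 < B := by linarith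
  calc c / 2 * (1 / (A * B)) / Real.log X * A = (c / Real.log X) * (1 / 2 / B) := by field_simp
    _ ≤ (c / Real.log X) * 1 := by
        apply mul_le_mul_of_nonneg_left _ (by positivity)
        rw [div_le_one hB0]
        exact hB1
    _ ≤ c / Real.log H := by
        rw [mul_one]
        exact div_le_div_of_nonneg_left hc.le hlH hlHX
    _ ≤ V1 H := hV1

end Pool.Agent.Q253.Cov
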