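import Pool.Agent.Q253.Cov.General

/-!
# One thin set of primes for a family of finite sets

`thin_fam`: all members with `J / K ≥ c / log ^ s` of a family with polynomially many members at each `X` are served by one set of primes
with `O(log ^ (s + 1) x)` elements up to `x`.
-/

set_option autoImplicit false

namespace Pool.Agent.Q253.Cov

open Finset Filter
open Pool.Agent.Q253.Thin (tower hit2)

/-- the conditions on a member of the family -/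
structure Mem (e : ℕ) (J : Finset ℕ) (g : ℕ → ℕ) (K : ℝ) (X : ℕ) : Prop where
  prime : ∀ n ∈ J, (g n).Prime
  low : ∀ n ∈ J, X ≤ g n ^ e
  up : ∀ n ∈ J, g n ≤ X ^ e
  pos : 0 < K
  fib : ∀ q : ℕ, q.Prime → ((J.filter (fun n => g n = q)).card : ℝ) ≤ K / q

open Classical in
/-- **One thin set of primes for a family.** -/
theorem thin_fam {ι : Type*} (s A e : ℕ) (he : 1 ≤ e) (c : ℝ) (hc : 0 < c) (F : ℕ → Finset ι) (X₀ : ℕ)
    (hF : ∀ X : ℕ, X₀ ≤ X → (F X).card ≤ X ^ A) (J : ℕ → ι → Finset ℕ) (g : ℕ → ι → ℕ → ℕ) (K : ℕ → ι → ℝ) :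
    ∃ C : ℝ, 0 < C ∧ ∃ Q : Set ℕ, (∀ q ∈ Q, q.Prime) ∧
      (∀ x : ℕ, 2 ≤ x → {q ∈ Q | q ≤ x}.Finite ∧ ({q ∈ Q | q ≤ x}.ncard : ℝ) ≤ C * Real.log x ^ (s + 1)) ∧
      ∃ c' : ℝ, 0 < c' ∧ ∃ X₁ : ℕ, ∀ X : ℕ, X₁ ≤ X → ∀ t ∈ F X, Mem e (J X t) (g X t) (K X t) X →
        c / Real.log X ^ s ≤ ((J X t).card : ℝ) / K X t →
        ∃ q ∈ Q, c' * (J X t).card / q ≤ (((J X t).filter (fun n => g X t n = q)).card : ℝ) := by
  obtain ⟨M, hM, Z₀, hmert⟩ := mertE (2 * e) (by omega)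
  -- the indices
  set I : ℕ → Finset ((_ : ℕ) × ι) := fun i => ((Ico (2 ^ 2 ^ i) ((2 ^ 2 ^ i) ^ 2)).sigma F).filter (fun x =>
      Mem e (J x.1 x.2) (g x.1 x.2) (K x.1 x.2) x.1 ∧
      c / Real.log x.1 ^ s ≤ ((J x.1 x.2).card : ℝ) / K x.1 x.2) with hI
  set B : ℕ → ((_ : ℕ) × ι) → Finset ℕ := fun i x => (Om (2 * e) (2 ^ 2 ^ i)).filter (fun q : ℕ =>
    ((J x.1 x.2).card : ℝ) / (2 * M * q) ≤
      (((J x.1 x.2).filter (fun n => g x.1 x.2 n = q)).card : ℝ)) with hB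
  obtain ⟨i₀, hi₀⟩ : ∃ i₀, i₀ = max (max Z₀ X₀) 2 := ⟨_, rfl⟩
  have hlarge : ∀ i, i₀ ≤ i → Z₀ ≤ 2 ^ 2 ^ i ∧ X₀ ≤ 2 ^ 2 ^ i ∧ 16 ≤ 2 ^ 2 ^ i := by
    intro i hi
    have h1 : i ≤ 2 ^ 2 ^ i := Nat.lt_two_pow_self.le.trans Nat.lt_two_pow_self.le
    refine ⟨le_trans ((le_max_left _ _).trans ((le_max_left _ _).trans (hi₀ ▸ hi))) h1,
      le_trans ((le_max_right _ _).trans ((le_max_left _ _).trans (hi₀ ▸ hi))) h1, ?_⟩
    have h2 : 2 ≤ i := (le_max_right _ _).trans (hi₀ ▸ hi)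
    calc 16 = 2 ^ 2 ^ 2 := by norm_num
      _ ≤ 2 ^ 2 ^ i := Nat.pow_le_pow_right (by norm_num) (Nat.pow_le_pow_right (by norm_num) h2)
  have hcardI : ∀ i, i₀ ≤ i → (I i).card ≤ (2 ^ 2 ^ i) ^ (2 + 2 * A) := by
    intro i hi
    obtain ⟨-, h1, h2⟩ := hlarge i hi
    obtain ⟨Z, hZ⟩ : ∃ Z, Z = 2 ^ 2 ^ i := ⟨_, rfl⟩
    rw [hI]
    simp only
    rw [← hZ] at h1 h2 ⊢
    refine (card_filter_le _ _).trans ?_
    rw [card_sigma]
    calc ∑ X ∈ Ico Z (Z ^ 2), (F X).card ≤ ∑ _X ∈ Ico Z (Z ^ 2), Z ^ (2 * A) := by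
          apply sum_le_sum
          intro X hX
          rw [mem_Ico] at hX
          calc (F X).card ≤ X ^ A := hF X (h1.trans hX.1)
            _ ≤ (Z ^ 2) ^ A := Nat.pow_le_pow_left hX.2.le A
            _ = Z ^ (2 * A) := by rw [← pow_mul]
      _ = (Z ^ 2 - Z) * Z ^ (2 * A) := by rw [sum_const, Nat.card_Ico, smul_eq_mul]
      _ ≤ Z ^ 2 * Z ^ (2 * A) := Nat.mul_le_mul_right _ (Nat.sub_le _ _)
      _ = Z ^ (2 + 2 * A) := by rw [← pow_add]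
  obtain ⟨C, hC, Q, hQ, hQc, i₁, hcov⟩ := thin_cover s (2 + 2 * A) (2 * e) (by omega) (c / 2 ^ (s + 1)) (by positivity) I B i₀ hcardI (by
    intro i hi x hx
    obtain ⟨h1, h2, h3⟩ := hlarge i hi
    obtain ⟨X, t⟩ := x
    obtain ⟨Z, hZ⟩ : ∃ Z, Z = 2 ^ 2 ^ i := ⟨_, rfl⟩
    rw [hI] at hx
    simp only [mem_filter, mem_sigma, mem_Ico] at hx
    rw [← hZ] at hx h1 h2 h3
    obtain ⟨⟨⟨hX1, hX2⟩, _⟩, hmem, hcard⟩ := hx
    rw [hB]
    simp only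
    rw [← hZ]
    refine ⟨filter_subset _ _, ?_⟩
    have hX0 : (0 : ℝ) < X := by exact_mod_cast (by omega : 0 < X)
    have hr := rich (J X t) (Om (2 * e) Z) (g X t) (K X t) M hmem.pos hM
      (fun q hq => (mem_Om.1 hq).1.pos) (hmert Z h1) (fun n hn => by
        rw [mem_Om]
        refine ⟨hmem.prime n hn, ?_, ?_⟩
        · calc Z ≤ X := hX1
            _ ≤ g X t n ^ e := hmem.low n hn
            _ ≤ g X t n ^ (2 * e) := Nat.pow_le_pow_right (hmem.prime n hn).pos (by omega)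
        · calc g X t n ≤ X ^ e := hmem.up n hn
            _ ≤ (Z ^ 2) ^ e := Nat.pow_le_pow_left hX2.le e
            _ = Z ^ (2 * e) := by rw [← pow_mul]) (fun q hq => hmem.fib q (mem_Om.1 hq).1)
    refine le_trans ?_ hr
    have hlZ : 0 < Real.log Z := Real.log_pos (by exact_mod_cast (by omega : 1 < Z))
    have hlX : 0 < Real.log X := Real.log_pos (by exact_mod_cast (by omega : 1 < X))
    have hlXZ : Real.log X ≤ 2 * Real.log Z := by
      have h4 : (X : ℝ) ≤ (Z : ℝ) ^ 2 := by exact_mod_cast hX2.le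
      have h5 := Real.log_le_log hX0 h4
      rwa [Real.log_pow, Nat.cast_ofNat] at h5
    have hK := hmem.pos
    have h4 : c / Real.log X ^ s / 2 ≤ ((J X t).card : ℝ) / (2 * K X t) := by
      have e1 : ((J X t).card : ℝ) / (2 * K X t) = ((J X t).card : ℝ) / K X t / 2 := by field_simp
      rw [e1]
      exact div_le_div_of_nonneg_right hcard (by norm_num)
    refine le_trans ?_ h4
    have h6 : Real.log X ^ s ≤ 2 ^ s * Real.log Z ^ s := by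
      calc Real.log X ^ s ≤ (2 * Real.log Z) ^ s := pow_le_pow_left₀ hlX.le hlXZ s
        _ = _ := by rw [mul_pow]
    calc c / 2 ^ (s + 1) / Real.log Z ^ s = c / (2 ^ s * Real.log Z ^ s) / 2 := by
          rw [pow_succ]
          field_simp
      _ ≤ c / Real.log X ^ s / 2 := by
          apply div_le_div_of_nonneg_right _ (by norm_num)
          exact div_le_div_of_nonneg_left hc.le (by positivity) h6)
  refine ⟨C, hC, Q, hQ, hQc, 1 / (2 * M), by positivity, max ((2 ^ 2 ^ (max i₀ i₁)) ^ 2) 2, ?_⟩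
  intro X hX t ht hmem hcard
  have hX1 : (2 ^ 2 ^ (max i₀ i₁)) ^ 2 ≤ X := (le_max_left _ _).trans hX
  obtain ⟨i, hi1, hi2⟩ := tower ((le_max_right _ _).trans hX)
  have hi3 : max i₀ i₁ ≤ i := by
    by_contra hcon
    push Not at hcon
    have h1 : 2 ^ 2 ^ i ≤ 2 ^ 2 ^ (max i₀ i₁) :=
      Nat.pow_le_pow_right (by norm_num) (Nat.pow_le_pow_right (by norm_num) hcon.le)
    have := Nat.pow_le_pow_left h1 2
    omega
  obtain ⟨q, hq, hqB⟩ := hcov i ((le_max_right _ _).trans hi3) ⟨X, t⟩ (by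
    rw [hI]
    simp only [mem_filter, mem_sigma, mem_Ico]
    exact ⟨⟨⟨hi1, hi2⟩, ht⟩, hmem, hcard⟩)
  rw [hB] at hqB
  simp only [mem_filter] at hqB
  refine ⟨q, hq, le_trans (le_of_eq ?_) hqB.2⟩
  have hq0 : (0 : ℝ) < q := by exact_mod_cast (mem_Om.1 hqB.1).1.pos
  field_simp

end Pool.Agent.Q253.Cov
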