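import Pool.Agent.Q253.Thin.Int
import Pool.Agent.Q253.Thin.AP

/-!
# The sifted integers of an interval in a residue class modulo a large prime
-/

set_option autoImplicit false

namespace Pool.Agent.Q253.Cov

open Finset Filter
open Pool.Agent.Y843.HS (Pr VV Pr_mem Pr_prime VV_split Sv)
open Pool.Agent.Q253.Thin (SysZ VZ_nonneg VZ_low IS int_upper Zq Zq_card)

open Classical in
/-- **Upper bound in a class.** -/
theorem cls_upper (r E : ℕ) (hr : 1 ≤ r) (hE : 1 ≤ E) : ∃ C : ℝ, 0 < C ∧ ∃ R : ℕ, ∀ H : ℕ, (R : ℝ) ≤ (H : ℝ) ^ (1 / (E : ℝ)) →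
    ∀ Z : ℕ → Finset ℕ, SysZ r Z → ∀ (A q v : ℕ) (z : ℝ), q.Prime → (H : ℝ) ^ (1 / (E : ℝ)) < z → z ≤ q →
      (q : ℝ) * (H : ℝ) ^ (1 / (E : ℝ)) ≤ H →
      ((((Ioc A (A + H)).filter (fun j => j ≡ v [MOD q] ∧ ∀ p : ℕ, p.Prime → (p : ℝ) < z → j % p ∉ Z p)).card : ℕ) : ℝ) ≤
        C * (H / q * VV Z 0 H) := by
  obtain ⟨C₁, hC₁, hup⟩ := int_upper r E hr hE
  obtain ⟨X₀, hup⟩ := hup 1 one_pos
  obtain ⟨cD, hcD, R₀, hden⟩ := Pool.Agent.Y79.HS.den r E
  refine ⟨4 * C₁ / cD, by positivity, max (max X₀ R₀) (2 * r + 2), ?_⟩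
  intro H hR Z hZ A q v z hq hHz hzq hqH
  have hE0 : (0 : ℝ) < E := by exact_mod_cast hE
  obtain ⟨w, hw⟩ : ∃ w : ℝ, w = (H : ℝ) ^ (1 / (E : ℝ)) := ⟨_, rfl⟩
  rw [← hw] at hR hHz hqH
  have hR1 : (X₀ : ℝ) ≤ w := le_trans (by exact_mod_cast (le_max_left _ _).trans (le_max_left _ _)) hR
  have hR2 : (R₀ : ℝ) ≤ w := le_trans (by exact_mod_cast (le_max_right _ _).trans (le_max_left _ _)) hR
  have hR3 : (2 * r + 2 : ℝ) ≤ w := le_trans (by exact_mod_cast le_max_right (max X₀ R₀) (2 * r + 2)) hR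
  have hr0 : (1 : ℝ) ≤ r := by exact_mod_cast hr
  have hw4 : 4 ≤ w := by linarith
  have hq0 : (0 : ℝ) < q := by exact_mod_cast hq.pos
  have hwq : w < q := lt_of_lt_of_le hHz hzq
  have hHr : (0 : ℝ) ≤ H := Nat.cast_nonneg H
  have hH0 : (0 : ℝ) < H := lt_of_lt_of_le (by positivity) hqH
  have hwE : w ^ E = H := by
    rw [hw, ← Real.rpow_natCast, ← Real.rpow_mul hHr, one_div, inv_mul_cancel₀ hE0.ne', Real.rpow_one]
  have hHq : w ≤ (H : ℝ) / q := by
    rw [le_div_iff₀ hq0]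
    linarith
  -- the new interval
  obtain ⟨B, hB⟩ : ∃ B, B = A + H := ⟨_, rfl⟩
  have hBA : (B : ℝ) = A + H := by rw [hB]; push_cast; ring
  have hAq : A / q ≤ B / q := Nat.div_le_div_right (by omega)
  obtain ⟨A', hA'⟩ : ∃ A', A' = A / q := ⟨_, rfl⟩
  obtain ⟨X', hX'⟩ : ∃ X', X' = B / q + 1 - A / q := ⟨_, rfl⟩
  have hX'r : (X' : ℝ) = ((B / q : ℕ) : ℝ) + 1 - ((A / q : ℕ) : ℝ) := by
    rw [hX', Nat.cast_sub (by omega)]
    push_cast
    ring
  have hBq1 : ((B / q : ℕ) : ℝ) ≤ B / q := Nat.cast_div_le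
  have hBq2 : (B : ℝ) / q < ((B / q : ℕ) : ℝ) + 1 := by
    rw [div_lt_iff₀ hq0]
    have := Nat.lt_mul_div_succ B hq.pos
    have h : (B : ℝ) < q * (((B / q : ℕ) : ℝ) + 1) := by exact_mod_cast this
    linarith
  have hAq1 : ((A / q : ℕ) : ℝ) ≤ A / q := Nat.cast_div_le
  have hAq2 : (A : ℝ) / q < ((A / q : ℕ) : ℝ) + 1 := by
    rw [div_lt_iff₀ hq0]
    have := Nat.lt_mul_div_succ A hq.pos
    have h : (A : ℝ) < q * (((A / q : ℕ) : ℝ) + 1) := by exact_mod_cast this
    linarith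
  have hBA' : (B : ℝ) / q = A / q + H / q := by rw [hBA, add_div]
  have hX'low : (H : ℝ) / q ≤ X' := by
    rw [hX'r]
    linarith
  have hX'up : (X' : ℝ) ≤ 2 * (H / q) := by
    rw [hX'r]
    linarith
  have hX'H : (X' : ℝ) ≤ H := by
    refine hX'up.trans ?_
    rw [← mul_div_assoc, div_le_iff₀ hq0]
    nlinarith
  have hX'w : w ≤ X' := hHq.trans hX'low
  have hX'0 : (0 : ℝ) ≤ X' := Nat.cast_nonneg _
  have hX'X₀ : X₀ ≤ X' := by exact_mod_cast hR1.trans hX'w
  have hX'R₀ : R₀ ≤ X' := by exact_mod_cast hR2.trans hX'w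
  have hX'Hn : X' ≤ H := by exact_mod_cast hX'H
  have hHX'E : H ≤ X' ^ E := by
    have h1 : (H : ℝ) ≤ (X' : ℝ) ^ E := by
      rw [← hwE]
      exact pow_le_pow_left₀ (by linarith) hX'w E
    exact_mod_cast h1
  -- the new system
  obtain ⟨a, ha⟩ : ∃ a, a = v % q := ⟨_, rfl⟩
  obtain ⟨Z', hZ'⟩ : ∃ Z' : ℕ → Finset ℕ, Z' = fun p => if p = q then ∅ else Zq Z q a p := ⟨_, rfl⟩
  have hcop : ∀ p : ℕ, p.Prime → p ≠ q → q.Coprime p := fun p hp hne => (Nat.coprime_primes hq hp).2 (Ne.symm hne)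
  have hcard : ∀ p : ℕ, p.Prime → p ≠ q → (Z' p).card = (Z p).card := by
    intro p hp hne
    rw [hZ']
    simp only
    rw [if_neg hne]
    exact Zq_card hp (hcop p hp hne) (hZ.lt p hp)
  have hcardq : (Z' q).card = 0 := by
    rw [hZ']
    simp
  have hsys' : SysZ r Z' := by
    refine ⟨?_, ?_, ?_⟩
    · intro p hp
      by_cases hne : p = q
      · rw [hne, hcardq]
        exact Nat.zero_le _
      · rw [hcard p hp hne]
        exact hZ.card p hp
    · intro p hp
      by_cases hne : p = q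
      · rw [hne, hcardq]
        exact hq.pos
      · rw [hcard p hp hne]
        exact hZ.loc p hp
    · intro p hp c hc
      rw [hZ'] at hc
      simp only at hc
      split_ifs at hc with hne
      · exact absurd hc (notMem_empty _)
      · unfold Zq at hc
        exact mem_range.1 (mem_filter.1 hc).1
  have h1 := hup X' hX'X₀ Z' hsys' A' (A' + X') (by push_cast; linarith)
  -- the number
  have h2 : (((Ioc A (A + H)).filter (fun j => j ≡ v [MOD q] ∧ ∀ p : ℕ, p.Prime → (p : ℝ) < z → j % p ∉ Z p)).card : ℝ) ≤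
      ((IS E X' A' (A' + X') Z').card : ℝ) := by
    apply Nat.cast_le.2
    apply card_le_card_of_injOn (fun j => j / q + 1)
    · intro j hj
      rw [mem_coe, mem_filter, mem_Ioc] at hj
      obtain ⟨⟨j1, j2⟩, j3, j4⟩ := hj
      rw [← hB] at j2
      rw [mem_coe]
      beta_reduce
      unfold IS
      rw [mem_filter, mem_Ioc]
      have k1 : A / q ≤ j / q := Nat.div_le_div_right j1.le
      have k2 : j / q ≤ B / q := Nat.div_le_div_right j2
      refine ⟨⟨by omega, by omega⟩, ?_⟩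
      intro p hp hpX hmem
      have hpw : (p : ℝ) ≤ w := by
        refine hpX.trans ?_
        rw [hw]
        exact Real.rpow_le_rpow hX'0 hX'H (by positivity)
      have hpz : (p : ℝ) < z := lt_of_le_of_lt hpw hHz
      have hpq : p ≠ q := by
        rintro rfl
        linarith
      rw [hZ'] at hmem
      simp only at hmem
      rw [if_neg hpq] at hmem
      unfold Zq at hmem
      rw [mem_filter] at hmem
      apply j4 p hp hpz
      have hja : j % q = a := by rw [ha]; exact j3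
      have hj : q * (j / q) + a = j := by
        rw [← hja]
        exact Nat.div_add_mod j q
      have e : q * ((j / q + 1) % p + (p - 1)) + a ≡ j [MOD p] := by
        have hp1 : p - 1 + 1 = p := Nat.sub_add_cancel hp.one_le
        have e1 : (j / q + 1) % p + (p - 1) ≡ (j / q + 1) + (p - 1) [MOD p] := Nat.ModEq.add_right _ (Nat.mod_modEq _ _)
        have e2 : (j / q + 1) + (p - 1) = j / q + p := by omega
        rw [e2] at e1
        have e3 : j / q + p ≡ j / q [MOD p] := by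
          have := Nat.add_modEq_right (n := p) (a := j / q)
          exact this
        have e4 := ((e1.trans e3).mul_left q).add_right a
        rwa [hj] at e4
      have e' : (q * ((j / q + 1) % p + (p - 1)) + a) % p = j % p := e
      rw [← e']
      exact hmem.2
    · intro x hx y hy hxy
      rw [mem_coe, mem_filter] at hx hy
      simp only at hxy
      have hx1 := hx.2.1
      have hy1 := hy.2.1
      unfold Nat.ModEq at hx1 hy1
      have e1 := Nat.div_add_mod x q
      have e2 := Nat.div_add_mod y q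
      have e3 : x / q = y / q := by omega
      rw [← e1, ← e2, e3, hx1, hy1]
  refine h2.trans (h1.trans ?_)
  have e1 : (((A' + X' : ℕ) : ℝ)) - (A' : ℝ) = X' := by push_cast; ring
  rw [e1]
  -- the products
  have hV1 : VV Z' 0 X' ≤ 2 * VV Z 0 X' := by
    have hg : ∏ p ∈ Pr 0 X', (if p = q then (1 / 2 : ℝ) else 1) ≥ 1 / 2 := by
      rw [prod_ite_eq']
      split_ifs <;> norm_num
    have hle : ∏ p ∈ Pr 0 X', ((if p = q then (1 / 2 : ℝ) else 1) * (1 - ((Z' p).card : ℝ) / p)) ≤ VV Z 0 X' := by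
      unfold VV
      apply Finset.prod_le_prod
      · intro p hp
        have hpp := Pr_prime hp
        have hp0 : (0 : ℝ) < p := by exact_mod_cast hpp.pos
        have h3 : 0 ≤ 1 - ((Z' p).card : ℝ) / p := by
          rw [sub_nonneg, div_le_one hp0]
          exact_mod_cast (hsys'.loc p hpp).le
        split_ifs <;> linarith
      · intro p hp
        have hpp := Pr_prime hp
        have hp0 : (0 : ℝ) < p := by exact_mod_cast hpp.pos
        split_ifs with hpq
        · rw [hpq, hcardq]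
          have h3 : ((Z q).card : ℝ) ≤ r := by exact_mod_cast hZ.card q hq
          have h4 : ((Z q).card : ℝ) / q ≤ 1 / 2 := by
            rw [div_le_div_iff₀ hq0 (by norm_num)]
            linarith
          simp only [Nat.cast_zero, zero_div, sub_zero, mul_one]
          linarith
        · rw [one_mul, hcard p hpp hpq]
    rw [prod_mul_distrib] at hle
    have h5 : 0 ≤ VV Z' 0 X' := VZ_nonneg hsys' _ _
    have h6 : 1 / 2 * VV Z' 0 X' ≤ (∏ p ∈ Pr 0 X', (if p = q then (1 / 2 : ℝ) else 1)) * VV Z' 0 X' :=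
      mul_le_mul_of_nonneg_right hg h5
    have h7 : (∏ p ∈ Pr 0 X', (if p = q then (1 / 2 : ℝ) else 1)) * VV Z' 0 X' ≤ VV Z 0 X' := hle
    linarith
  have hSv : Sv r X' H Z := by
    intro p hp
    have hpp := Pr_prime hp
    exact ⟨hZ.card p hpp, fun c hc => hZ.lt p hpp c hc⟩
  have hV2 := hden X' H hX'R₀ hHX'E Z hSv
  have hV3 := VV_split Z (Nat.zero_le X') hX'Hn
  have hV0 : 0 ≤ VV Z 0 X' := VZ_nonneg hZ _ _
  have hV4 : VV Z 0 X' ≤ 1 / cD * VV Z 0 H := by
    rw [← hV3, one_div, ← div_eq_inv_mul, le_div_iff₀ hcD]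
    exact mul_le_mul_of_nonneg_left hV2 hV0
  have hH1 : 0 ≤ VV Z 0 H := VZ_nonneg hZ _ _
  calc C₁ * ((X' : ℝ) * VV Z' 0 X') ≤ C₁ * (2 * (H / q) * (2 * (1 / cD * VV Z 0 H))) := by
        apply mul_le_mul_of_nonneg_left _ hC₁.le
        apply mul_le_mul hX'up _ (VZ_nonneg hsys' _ _) (by positivity)
        exact hV1.trans (mul_le_mul_of_nonneg_left hV4 (by norm_num))
    _ = _ := by
        field_simp
        ring

end Pool.Agent.Q253.Cov
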