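import Pool.Agent.W378.DC.MP
import Pool.Agent.Q253.Thin.Main
import Pool.Agent.Q253.P3.Base

/-!
# One thin set of primes for many families of sets of primes

`rich`: from a set of `n` with chosen prime factors `g n` to the primes which occur often. `thin_cover`: polynomially many sets of
primes with harmonic measure `≥ c / log ^ s` at each tower scale are hit by one set of primes with `O(log ^ (s + 1) x)` elements.
-/

set_option autoImplicit false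

namespace Pool.Agent.Q253.Cov

open Finset Filter
open Pool.Agent.W23.DC (pr tt Mer)
open Pool.Agent.Q253.Thin (tower hit2)

open Classical in
/-- the union of sets `T i` of primes above `(2 ^ 2 ^ i) ^ (1 / e)`, with `O((2 ^ s') ^ i)` elements -/
theorem thin_union_s (s : ℕ) (T : ℕ → Finset ℕ) (C : ℝ) (hC : 0 < C) (e : ℕ) (he : 1 ≤ e)
    (hT : ∀ i, ∀ q ∈ T i, q.Prime ∧ 2 ^ 2 ^ i < q ^ e)
    (hc : ∀ i, ((T i).card : ℝ) ≤ C * Real.log ((2 ^ 2 ^ i : ℕ) : ℝ) ^ (s + 1)) (x : ℕ) (hx : 2 ≤ x) :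
    ((((Icc 1 x).filter (fun q => ∃ i, q ∈ T i)).card : ℕ) : ℝ) ≤ 2 * C * e ^ (s + 1) * Real.log x ^ (s + 1) := by
  classical
  have hx9 : 2 ≤ x ^ e := hx.trans (Nat.le_self_pow (by omega) x)
  have hL1 : 1 ≤ Nat.log 2 (x ^ e) :=
    (Nat.le_log_iff_pow_le (by norm_num) (by omega)).2 (by simpa using hx9)
  set n := Nat.log 2 (Nat.log 2 (x ^ e)) with hn
  have hsub : (Icc 1 x).filter (fun q => ∃ i, q ∈ T i) ⊆ (range (n + 1)).biUnion T := by
    intro q hq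
    rw [mem_filter, mem_Icc] at hq
    obtain ⟨⟨_, hqx⟩, i, hi⟩ := hq
    rw [mem_biUnion]
    refine ⟨i, ?_, hi⟩
    rw [mem_range]
    have h2 := (hT i q hi).2
    have h4 : 2 ^ 2 ^ i ≤ x ^ e := (h2.le).trans (Nat.pow_le_pow_left hqx e)
    have h5 : 2 ^ i ≤ Nat.log 2 (x ^ e) := (Nat.le_log_iff_pow_le (by norm_num) (by omega)).2 h4
    have h6 : i ≤ n := by
      rw [hn]
      exact (Nat.le_log_iff_pow_le (by norm_num) (by omega)).2 h5
    omega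
  have h1 : ((((Icc 1 x).filter (fun q => ∃ i, q ∈ T i)).card : ℕ) : ℝ) ≤ ∑ i ∈ range (n + 1), ((T i).card : ℝ) := by
    exact_mod_cast (card_le_card hsub).trans card_biUnion_le
  have h2 : ∑ i ∈ range (n + 1), ((T i).card : ℝ) ≤
      ∑ i ∈ range (n + 1), C * Real.log 2 ^ (s + 1) * (2 ^ (s + 1)) ^ i := by
    apply sum_le_sum
    intro i _
    refine (hc i).trans ?_
    push_cast
    rw [Real.log_pow]
    push_cast
    apply le_of_eq
    rw [← pow_mul, mul_pow, ← pow_mul]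
    ring
  rw [← mul_sum] at h2
  have hr1 : (1 : ℝ) ≤ 2 ^ s := one_le_pow₀ (by norm_num)
  have hr2 : (2 : ℝ) ≤ 2 ^ (s + 1) := by rw [pow_succ]; linarith
  have h3 : ∑ i ∈ range (n + 1), ((2 : ℝ) ^ (s + 1)) ^ i ≤ 2 * (2 ^ (s + 1)) ^ n := by
    rw [geom_sum_eq (by linarith)]
    have h4 : (0 : ℝ) < (2 ^ (s + 1)) ^ n := by positivity
    rw [div_le_iff₀ (by linarith), pow_succ]
    nlinarith
  have hl2 : 0 < Real.log 2 := Real.log_pos (by norm_num)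
  have h4 : (2 : ℝ) ^ n ≤ (Nat.log 2 (x ^ e) : ℕ) := by
    have : 2 ^ n ≤ Nat.log 2 (x ^ e) := Nat.pow_log_le_self 2 (by omega)
    exact_mod_cast this
  have h5 : ((Nat.log 2 (x ^ e) : ℕ) : ℝ) * Real.log 2 ≤ e * Real.log x := by
    have h6 : (2 : ℝ) ^ (Nat.log 2 (x ^ e)) ≤ (x : ℝ) ^ e := by
      have := Nat.pow_log_le_self 2 (show x ^ e ≠ 0 by positivity)
      exact_mod_cast this
    have h7 := Real.log_le_log (by positivity) h6
    rw [Real.log_pow, Real.log_pow] at h7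
    exact h7
  have h6 : (2 : ℝ) ^ n * Real.log 2 ≤ e * Real.log x := (mul_le_mul_of_nonneg_right h4 hl2.le).trans h5
  have h7 : ((2 : ℝ) ^ n * Real.log 2) ^ (s + 1) ≤ (e * Real.log x) ^ (s + 1) := pow_le_pow_left₀ (by positivity) h6 _
  calc _ ≤ C * Real.log 2 ^ (s + 1) * ∑ i ∈ range (n + 1), ((2 : ℝ) ^ (s + 1)) ^ i := h1.trans h2
    _ ≤ C * Real.log 2 ^ (s + 1) * (2 * (2 ^ (s + 1)) ^ n) := mul_le_mul_of_nonneg_left h3 (by positivity)
    _ = 2 * C * ((2 : ℝ) ^ n * Real.log 2) ^ (s + 1) := by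
        rw [mul_pow, ← pow_mul, ← pow_mul]
        ring
    _ ≤ 2 * C * (e * Real.log x) ^ (s + 1) := mul_le_mul_of_nonneg_left h7 (by positivity)
    _ = 2 * C * e ^ (s + 1) * Real.log x ^ (s + 1) := by rw [mul_pow]; ring

open Classical in
/-- **Rich primes.** -/
theorem rich (J Ω : Finset ℕ) (g : ℕ → ℕ) (K M : ℝ) (hK : 0 < K) (hM : 0 < M) (hΩ : ∀ q ∈ Ω, 0 < q)
    (hMs : ∑ q ∈ Ω, (1 : ℝ) / q ≤ M) (hg : ∀ n ∈ J, g n ∈ Ω)
    (hup : ∀ q ∈ Ω, ((J.filter (fun n => g n = q)).card : ℝ) ≤ K / q) :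
    (J.card : ℝ) / (2 * K) ≤ ∑ q ∈ Ω.filter (fun q : ℕ => (J.card : ℝ) / (2 * M * q) ≤ ((J.filter (fun n => g n = q)).card : ℝ)),
      (1 : ℝ) / q := by
  obtain ⟨N, hN⟩ : ∃ N : ℝ, N = J.card := ⟨_, rfl⟩
  obtain ⟨w, hw⟩ : ∃ w : ℕ → ℝ, w = fun q => ((J.filter (fun n => g n = q)).card : ℝ) := ⟨_, rfl⟩
  have hN0 : 0 ≤ N := by rw [hN]; positivity
  have h1 : N = ∑ q ∈ Ω, w q := by
    rw [hN, hw, ← Nat.cast_sum, ← card_eq_sum_card_fiberwise hg]
  have hwq : ∀ q, ((J.filter (fun n => g n = q)).card : ℝ) = w q := fun q => by rw [hw]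
  have hup' : ∀ q ∈ Ω, w q ≤ K / q := fun q hq => by rw [← hwq]; exact hup q hq
  simp only [hwq, ← hN]
  clear hwq hup hw hN hg
  rw [← sum_filter_add_sum_filter_not Ω (fun q : ℕ => N / (2 * M * q) ≤ w q)] at h1
  have h2 : ∑ q ∈ Ω.filter (fun q : ℕ => N / (2 * M * q) ≤ w q), w q ≤
      K * ∑ q ∈ Ω.filter (fun q : ℕ => N / (2 * M * q) ≤ w q), (1 : ℝ) / q := by
    rw [mul_sum]
    apply sum_le_sum
    intro q hq
    rw [mul_one_div]
    exact hup' q (mem_filter.1 hq).1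
  have h3 : ∑ q ∈ Ω.filter (fun q : ℕ => ¬ N / (2 * M * q) ≤ w q), w q ≤ N / 2 := by
    calc ∑ q ∈ Ω.filter (fun q : ℕ => ¬ N / (2 * M * q) ≤ w q), w q ≤
          ∑ q ∈ Ω.filter (fun q : ℕ => ¬ N / (2 * M * q) ≤ w q), N / (2 * M) * (1 / (q : ℝ)) := by
          apply sum_le_sum
          intro q hq
          have h4 := (mem_filter.1 hq).2
          push Not at h4
          have h5 : (0 : ℝ) < q := by exact_mod_cast hΩ q (mem_filter.1 hq).1
          refine h4.le.trans (le_of_eq ?_)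
          field_simp
      _ ≤ ∑ q ∈ Ω, N / (2 * M) * (1 / (q : ℝ)) :=
          sum_le_sum_of_subset_of_nonneg (filter_subset _ _) fun q _ _ => by positivity
      _ = N / (2 * M) * ∑ q ∈ Ω, 1 / (q : ℝ) := by rw [mul_sum]
      _ ≤ N / (2 * M) * M := mul_le_mul_of_nonneg_left hMs (by positivity)
      _ = _ := by field_simp
  rw [div_le_iff₀ (by positivity)]
  linarith

/-- the primes between `Z ^ (1 / e)` and `Z ^ e` -/
noncomputable def Om (e Z : ℕ) : Finset ℕ := (Icc 1 (Z ^ e)).filter (fun q => q.Prime ∧ Z ≤ q ^ e)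

theorem mem_Om {e Z q : ℕ} : q ∈ Om e Z ↔ q.Prime ∧ Z ≤ q ^ e ∧ q ≤ Z ^ e := by
  unfold Om
  rw [mem_filter, mem_Icc]
  constructor
  · rintro ⟨⟨_, h1⟩, h2, h3⟩
    exact ⟨h2, h3, h1⟩
  · rintro ⟨h1, h2, h3⟩
    exact ⟨⟨h1.one_le, h3⟩, h1, h2⟩

/-- the harmonic measure of these primes is bounded -/
theorem mertE (e : ℕ) (he : 1 ≤ e) : ∃ M : ℝ, 0 < M ∧ ∃ Z₀ : ℕ, ∀ Z : ℕ, Z₀ ≤ Z → ∑ q ∈ Om e Z, (1 : ℝ) / q ≤ M := by
  have her : (1 : ℝ) ≤ e := by exact_mod_cast he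
  have he0 : (0 : ℝ) < e := by linarith
  set ε : ℝ := 1 / (e * (e + 1)) with hε
  have hε0 : 0 < ε := by positivity
  have hε1 : ε ≤ 1 := by
    rw [hε, div_le_one (by positivity)]
    nlinarith
  obtain ⟨N0, H⟩ := Pool.Agent.W378.DC.MP ε 1 hε0 (by norm_num)
  have hlog : 0 ≤ Real.log (1 / ε) := Real.log_nonneg (by rw [le_div_iff₀ hε0]; linarith)
  refine ⟨Real.log (1 / ε) + 1, by linarith, max N0 2, fun Z hZ => ?_⟩
  have hZN : N0 ≤ Z ^ (e + 1) := ((le_max_left _ _).trans hZ).trans (Nat.le_self_pow (by omega) Z)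
  have hZ2 : 2 ≤ Z := (le_max_right _ _).trans hZ
  have hZr : (2 : ℝ) ≤ Z := by exact_mod_cast hZ2
  have hlZ : 0 < Real.log Z := Real.log_pos (by linarith)
  have h1 := (abs_le.1 (H (Z ^ (e + 1)) hZN ε 1 le_rfl hε1 le_rfl)).2
  have hlY : Real.log ((Z ^ (e + 1) : ℕ) : ℝ) = (e + 1) * Real.log Z := by
    push_cast
    rw [Real.log_pow]
    push_cast
    ring
  have hsub : Om e Z ⊆ pr (Z ^ (e + 1)) ε 1 := by
    intro q hq
    obtain ⟨q1, q2, q3⟩ := mem_Om.1 hq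
    have hq0 : (0 : ℝ) < q := by exact_mod_cast q1.pos
    unfold pr
    rw [mem_filter, mem_Icc]
    have q3r : (q : ℝ) ≤ (Z : ℝ) ^ e := by exact_mod_cast q3
    have q2r : (Z : ℝ) ≤ (q : ℝ) ^ e := by exact_mod_cast q2
    have l3 := Real.log_le_log hq0 q3r
    have l2 := Real.log_le_log (by linarith) q2r
    rw [Real.log_pow] at l2 l3
    refine ⟨⟨q1.one_le, q3.trans (Nat.pow_le_pow_right (by omega) (by omega))⟩, q1, ?_, ?_⟩
    · unfold tt
      rw [hlY, le_div_iff₀ (by positivity), hε]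
      calc 1 / ((e : ℝ) * (e + 1)) * ((e + 1) * Real.log Z) = Real.log Z / e := by field_simp
        _ ≤ Real.log q := by
            rw [div_le_iff₀ he0]
            linarith
    · unfold tt
      rw [hlY, div_lt_one (by positivity)]
      nlinarith
  calc ∑ q ∈ Om e Z, (1 : ℝ) / q ≤ ∑ q ∈ pr (Z ^ (e + 1)) ε 1, (1 : ℝ) / q :=
        sum_le_sum_of_subset_of_nonneg hsub fun q _ _ => by positivity
    _ ≤ ∑ q ∈ pr (Z ^ (e + 1)) ε 1, 1 / ((q : ℝ) - 1) := by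
        apply sum_le_sum
        intro p hp
        unfold pr at hp
        rw [mem_filter] at hp
        have h2 : (2 : ℝ) ≤ p := by exact_mod_cast hp.2.1.two_le
        apply one_div_le_one_div_of_le <;> linarith
    _ ≤ _ := by linarith

open Classical in
/-- **One thin set of primes for polynomially many sets.** -/
theorem thin_cover {ι : Type*} (s A e : ℕ) (he : 1 ≤ e) (c : ℝ) (hc : 0 < c) (I : ℕ → Finset ι) (B : ℕ → ι → Finset ℕ) (i₀ : ℕ)
    (hI : ∀ i, i₀ ≤ i → (I i).card ≤ (2 ^ 2 ^ i) ^ A)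
    (hB : ∀ i, i₀ ≤ i → ∀ a ∈ I i, B i a ⊆ Om e (2 ^ 2 ^ i) ∧ c / Real.log ((2 ^ 2 ^ i : ℕ) : ℝ) ^ s ≤ ∑ q ∈ B i a, (1 : ℝ) / q) :
    ∃ C : ℝ, 0 < C ∧ ∃ Q : Set ℕ, (∀ q ∈ Q, q.Prime) ∧
      (∀ x : ℕ, 2 ≤ x → {q ∈ Q | q ≤ x}.Finite ∧ ({q ∈ Q | q ≤ x}.ncard : ℝ) ≤ C * Real.log x ^ (s + 1)) ∧
      ∃ i₁ : ℕ, ∀ i, i₁ ≤ i → ∀ a ∈ I i, ∃ q ∈ Q, q ∈ B i a := by
  obtain ⟨M, hM, Z₁, hmert⟩ := mertE e he
  set C' : ℝ := (M / c + 2) * (A + 1) * 2 ^ s with hC'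
  have hC'0 : 0 < C' := by positivity
  -- the scales
  have hi1 : ∃ i₁, i₀ ≤ i₁ ∧ 1 ≤ i₁ ∧ ∀ i, i₁ ≤ i → Z₁ ≤ 2 ^ 2 ^ i := by
    refine ⟨max (max i₀ 1) Z₁, (le_max_left _ _).trans (le_max_left _ _), (le_max_right _ _).trans (le_max_left _ _), ?_⟩
    intro i hi
    calc Z₁ ≤ i := (le_max_right _ _).trans hi
      _ ≤ 2 ^ i := Nat.lt_two_pow_self.le
      _ ≤ 2 ^ 2 ^ i := Nat.lt_two_pow_self.le
  obtain ⟨i₁, hi₁, hi₁1, hi₁Z⟩ := hi1
  have hstep : ∀ i : ℕ, ∃ T : Finset ℕ, (∀ q ∈ T, q.Prime ∧ 2 ^ 2 ^ i < q ^ (e + 1)) ∧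
      ((T.card : ℝ) ≤ C' * Real.log ((2 ^ 2 ^ i : ℕ) : ℝ) ^ (s + 1)) ∧
      (i₁ ≤ i → ∀ a ∈ I i, ∃ q ∈ T, q ∈ B i a) := by
    intro i
    by_cases hi : i₁ ≤ i
    swap
    · refine ⟨∅, by simp, ?_, fun h => absurd h hi⟩
      have h1 : 0 ≤ Real.log ((2 ^ 2 ^ i : ℕ) : ℝ) := Real.log_nonneg (by exact_mod_cast Nat.one_le_two_pow)
      simp only [card_empty, Nat.cast_zero]
      positivity
    set Z : ℕ := 2 ^ 2 ^ i with hZ
    have hZ2 : 4 ≤ Z := by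
      rw [hZ]
      calc 4 = 2 ^ 2 ^ 1 := by norm_num
        _ ≤ 2 ^ 2 ^ i := Nat.pow_le_pow_right (by norm_num) (Nat.pow_le_pow_right (by norm_num) (by omega))
    have hZr : (4 : ℝ) ≤ Z := by exact_mod_cast hZ2
    have hlZ : 1 ≤ Real.log Z := by
      have h1 := Real.log_le_log (by norm_num) hZr
      have h2 : Real.log 4 = 2 * Real.log 2 := by
        rw [show (4 : ℝ) = 2 ^ 2 by norm_num, Real.log_pow]
        norm_num
      have := Real.log_two_gt_d9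
      linarith
    have hlZs : 1 ≤ Real.log Z ^ s := one_le_pow₀ hlZ
    obtain ⟨T, hT1, hT2, hT3⟩ := hit2 (Om e Z) (fun q => (1 : ℝ) / q) (fun q _ => by positivity) M
      (c / (Real.log Z ^ s * M)) hM (hmert Z (hi₁Z i hi)) (by positivity) (B i) (I i) ((Z : ℝ) ^ (A + 1)) (by
        calc (2 : ℝ) ≤ Z := by linarith
          _ = (Z : ℝ) ^ 1 := (pow_one _).symm
          _ ≤ _ := pow_le_pow_right₀ (by linarith) (by omega)) (by
        have h1 : (I i).card ≤ Z ^ (A + 1) := (hI i (hi₁.trans hi)).trans (Nat.pow_le_pow_right (by omega) (by omega))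
        exact_mod_cast h1) (by
        intro a ha
        obtain ⟨h1, h2⟩ := hB i (hi₁.trans hi) a ha
        rw [← hZ] at h2
        refine ⟨h1, le_trans (le_of_eq ?_) h2⟩
        field_simp)
    refine ⟨T, ?_, ?_, fun _ => hT3⟩
    · intro q hq
      obtain ⟨q1, q2, _⟩ := mem_Om.1 (hT1 hq)
      exact ⟨q1, lt_of_le_of_lt q2 (Nat.pow_lt_pow_right q1.one_lt (by omega))⟩
    · refine hT2.trans ?_
      have e1 : 1 / (c / (Real.log Z ^ s * M)) = M / c * Real.log Z ^ s := by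
        field_simp
      rw [e1, Real.log_pow]
      push_cast
      have e2 : M / c * Real.log Z ^ s + 2 ≤ (M / c + 2) * Real.log Z ^ s := by
        have : 2 ≤ 2 * Real.log Z ^ s := by linarith
        linarith
      have h2s : (1 : ℝ) ≤ 2 ^ s := one_le_pow₀ (by norm_num)
      calc (M / c * Real.log Z ^ s + 2) * ((A + 1) * Real.log Z) ≤
            ((M / c + 2) * Real.log Z ^ s) * ((A + 1) * Real.log Z) :=
            mul_le_mul_of_nonneg_right e2 (by positivity)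
        _ = (M / c + 2) * (A + 1) * 1 * Real.log Z ^ (s + 1) := by ring
        _ ≤ _ := by
            rw [hC']
            apply mul_le_mul_of_nonneg_right _ (by positivity)
            exact mul_le_mul_of_nonneg_left h2s (by positivity)
  choose T hT1 hT2 hT3 using hstep
  refine ⟨2 * C' * ((e + 1 : ℕ) : ℝ) ^ (s + 1), by positivity, {q | ∃ i, q ∈ T i}, ?_, ?_, i₁, ?_⟩
  · rintro q ⟨i, hi⟩
    exact (hT1 i q hi).1
  · intro x hx
    have hsub : {q ∈ {q | ∃ i, q ∈ T i} | q ≤ x} ⊆ (((Icc 1 x).filter (fun q => ∃ i, q ∈ T i) : Finset ℕ) : Set ℕ) := by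
      rintro q ⟨⟨i, hi⟩, hqx⟩
      rw [mem_coe, mem_filter, mem_Icc]
      exact ⟨⟨(hT1 i q hi).1.one_le, hqx⟩, i, hi⟩
    refine ⟨(finite_toSet _).subset hsub, ?_⟩
    have h1 := Set.ncard_le_ncard hsub (finite_toSet _)
    rw [Set.ncard_coe_finset] at h1
    refine le_trans (by exact_mod_cast h1) (thin_union_s s T C' hC'0 (e + 1) (by omega) hT1 hT2 x hx)
  · intro i hi a ha
    obtain ⟨q, hq1, hq2⟩ := hT3 i hi a ha
    exact ⟨q, ⟨i, hq1⟩, hq2⟩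

end Pool.Agent.Q253.Cov
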