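import Pool.Agent.Q253.Cov.APd
import Pool.Agent.Y843.HG.VGold

/-!
# Narrow progressions in dense sets of primes `p` with `N - p` free of small prime factors
-/

set_option autoImplicit false

namespace Pool.Agent.Q253.Cov

open Finset Filter
open Pool.Agent.Y843.HS (Pr VV Pr_mem Pr_prime)
open Pool.Agent.Y843.HG (V1 V1_bounds V1_pos fac1)
open Pool.Agent.Q253.Thin (SysZ)

/-- the classes `0` and `N` -/
def Zg (N q : ℕ) : Finset ℕ := {0, N % q}

theorem Zg_card_le (N q : ℕ) : (Zg N q).card ≤ 2 := card_le_two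

theorem Zg_card_dvd {N q : ℕ} (h : q ∣ N) : (Zg N q).card = 1 := by
  unfold Zg
  rw [Nat.mod_eq_zero_of_dvd h]
  simp

theorem Zg_card_ndvd {N q : ℕ} (h : ¬ q ∣ N) : (Zg N q).card = 2 := by
  unfold Zg
  apply card_pair
  intro h1
  exact h (Nat.dvd_of_mod_eq_zero h1.symm)

theorem Zg_sys {N : ℕ} (hN : Even N) : SysZ 2 (Zg N) where
  card := fun p _ => Zg_card_le N p
  loc := fun p hp => by
    rcases hp.two_le.eq_or_lt with h | h
    · subst h
      rw [Zg_card_dvd hN.two_dvd]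
      norm_num
    · exact lt_of_le_of_lt (Zg_card_le N p) h
  lt := fun p hp c hc => by
    unfold Zg at hc
    rw [mem_insert, mem_singleton] at hc
    rcases hc with rfl | rfl
    · exact hp.pos
    · exact Nat.mod_lt _ hp.pos

/-- the variable part of the singular series -/
noncomputable def sg (N : ℕ) : ℝ := ∏ p ∈ N.primeFactors.erase 2, (((p : ℝ) - 1) / ((p : ℝ) - 2))

theorem sg_fac {p N : ℕ} (hp : p ∈ N.primeFactors.erase 2) : (1 : ℝ) ≤ ((p : ℝ) - 1) / ((p : ℝ) - 2) := by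
  rw [mem_erase, Nat.mem_primeFactors] at hp
  have h2 : 3 ≤ p := by
    have := hp.2.1.two_le
    omega
  have h3 : (3 : ℝ) ≤ p := by exact_mod_cast h2
  rw [le_div_iff₀ (by linarith)]
  linarith

theorem sg_pos (N : ℕ) : 0 < sg N := prod_pos fun _ hp => lt_of_lt_of_le one_pos (sg_fac hp)

/-- the sieve product and the singular series -/
theorem VVg_le : ∃ C : ℝ, 0 < C ∧ ∀ N X : ℕ, Even N → 1 ≤ N → 2 ≤ X → VV (Zg N) 0 X ≤ C * (sg N / Real.log X ^ 2) := by
  classical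
  obtain ⟨c, C, hc, hC, hV⟩ := V1_bounds
  refine ⟨2 * C ^ 2, by positivity, ?_⟩
  intro N X hN hN1 hX
  have hX1 : (1 : ℝ) < X := by exact_mod_cast (by omega : 1 < X)
  have hlX : 0 < Real.log X := Real.log_pos hX1
  have h1 : VV (Zg N) 0 X ≤ ∏ q ∈ Pr 0 X, ((if q = 2 then (2 : ℝ) else 1) *
      (if q ≠ 2 ∧ q ∣ N then ((q : ℝ) - 1) / ((q : ℝ) - 2) else 1) * (1 - 1 / (q : ℝ)) ^ 2) := by
    unfold VV
    apply Finset.prod_le_prod
    · intro q hq
      have hqp := Pr_prime hq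
      have hq0 : (0 : ℝ) < q := by exact_mod_cast hqp.pos
      rw [sub_nonneg, div_le_one hq0]
      exact_mod_cast ((Zg_sys hN).loc q hqp).le
    · intro q hq
      have hqp := Pr_prime hq
      have hq2 : (2 : ℝ) ≤ q := by exact_mod_cast hqp.two_le
      have hq0 : (0 : ℝ) < q := by linarith
      by_cases h2 : q = 2
      · subst h2
        rw [if_pos rfl, if_neg (by simp), Zg_card_dvd hN.two_dvd]
        norm_num
      · have hq3 : (3 : ℝ) ≤ q := by
          have : 3 ≤ q := by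
            have := hqp.two_le
            omega
          exact_mod_cast this
        rw [if_neg h2, one_mul]
        by_cases h3 : q ∣ N
        · rw [if_pos ⟨h2, h3⟩, Zg_card_dvd h3, Nat.cast_one]
          have e1 : (1 - 1 / (q : ℝ)) = ((q : ℝ) - 1) / q := by field_simp
          rw [e1, div_pow, div_mul_div_comm, div_le_div_iff₀ hq0 (by nlinarith)]
          have e2 : ((q : ℝ) - 1) * ((q : ℝ) - 1) ^ 2 * q - ((q : ℝ) - 1) * (((q : ℝ) - 2) * (q : ℝ) ^ 2) = ((q : ℝ) - 1) * q := by ring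
          nlinarith [mul_pos (show (0 : ℝ) < (q : ℝ) - 1 by linarith) hq0]
        · rw [if_neg (fun h => h3 h.2), one_mul, Zg_card_ndvd h3]
          have e1 : (1 - 1 / (q : ℝ)) ^ 2 = 1 - 2 / q + 1 / (q : ℝ) ^ 2 := by field_simp; ring
          rw [e1]
          have : (0 : ℝ) ≤ 1 / (q : ℝ) ^ 2 := by positivity
          push_cast
          linarith
  refine h1.trans ?_
  rw [prod_mul_distrib, prod_mul_distrib, prod_pow]
  have hA : ∏ q ∈ Pr 0 X, (if q = 2 then (2 : ℝ) else 1) ≤ 2 := by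
    rw [prod_ite_eq' (Pr 0 X) 2 (fun _ => (2 : ℝ))]
    split_ifs <;> norm_num
  have hB : ∏ q ∈ Pr 0 X, (if q ≠ 2 ∧ q ∣ N then ((q : ℝ) - 1) / ((q : ℝ) - 2) else 1) ≤ sg N := by
    rw [prod_ite, prod_const_one, mul_one]
    have hsub : (Pr 0 X).filter (fun q => q ≠ 2 ∧ q ∣ N) ⊆ N.primeFactors.erase 2 := by
      intro q hq
      rw [mem_filter] at hq
      rw [mem_erase, Nat.mem_primeFactors]
      exact ⟨hq.2.1, Pr_prime hq.1, hq.2.2, by omega⟩
    unfold sg
    rw [← prod_sdiff hsub]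
    have h2 : (1 : ℝ) ≤ ∏ q ∈ N.primeFactors.erase 2 \ (Pr 0 X).filter (fun q => q ≠ 2 ∧ q ∣ N), (((q : ℝ) - 1) / ((q : ℝ) - 2)) := by
      calc (1 : ℝ) = ∏ _q ∈ N.primeFactors.erase 2 \ (Pr 0 X).filter (fun q => q ≠ 2 ∧ q ∣ N), (1 : ℝ) := prod_const_one.symm
        _ ≤ _ := Finset.prod_le_prod (fun _ _ => zero_le_one) fun q hq => sg_fac (mem_sdiff.1 hq).1
    have h3 : (0 : ℝ) ≤ ∏ q ∈ (Pr 0 X).filter (fun q => q ≠ 2 ∧ q ∣ N), (((q : ℝ) - 1) / ((q : ℝ) - 2)) :=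
      prod_nonneg fun q hq => le_trans zero_le_one (sg_fac (hsub hq))
    exact le_mul_of_one_le_left h3 h2
  have hC1 : V1 X ^ 2 ≤ (C / Real.log X) ^ 2 := pow_le_pow_left₀ (V1_pos X).le (hV X hX).2 2
  have hV1 : (∏ q ∈ Pr 0 X, (1 - 1 / (q : ℝ))) = V1 X := rfl
  rw [hV1]
  have hA0 : (0 : ℝ) ≤ ∏ q ∈ Pr 0 X, (if q = 2 then (2 : ℝ) else 1) := prod_nonneg fun q _ => by split_ifs <;> norm_num
  have hB0 : (0 : ℝ) ≤ ∏ q ∈ Pr 0 X, (if q ≠ 2 ∧ q ∣ N then ((q : ℝ) - 1) / ((q : ℝ) - 2) else 1) := by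
    apply prod_nonneg
    intro q hq
    split_ifs with h
    · have h3 : (3 : ℝ) ≤ q := by
        have := (Pr_prime hq).two_le
        have h4 : 3 ≤ q := by
          have := h.1
          omega
        exact_mod_cast h4
      apply div_nonneg <;> linarith
    · norm_num
  calc (∏ q ∈ Pr 0 X, (if q = 2 then (2 : ℝ) else 1)) * (∏ q ∈ Pr 0 X, (if q ≠ 2 ∧ q ∣ N then ((q : ℝ) - 1) / ((q : ℝ) - 2) else 1)) *
        V1 X ^ 2 ≤ (2 * sg N) * (C / Real.log X) ^ 2 := by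
        apply mul_le_mul _ hC1 (by positivity) (mul_nonneg (by norm_num) (sg_pos N).le)
        exact mul_le_mul hA hB hB0 (by norm_num)
    _ = _ := by
        rw [div_pow]
        ring

end Pool.Agent.Q253.Cov
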