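import Mathlib

/-!
# Greedy sets which hit every member of a family many times
-/

set_option autoImplicit false

namespace Pool.Agent.Q253.Cov

open Finset

theorem exp_neg_one_le : Real.exp (-1) ≤ 1 / 2 := by
  have h1 := Real.exp_one_gt_d9
  rw [Real.exp_neg, inv_eq_one_div]
  apply one_div_le_one_div_of_le <;> linarith

theorem hit_step {α ι : Type*} [DecidableEq α] (Ω : Finset α) (w : α → ℝ) (hw : ∀ a ∈ Ω, 0 ≤ w a)
    (W c : ℝ) (hW : 0 < W) (hWs : ∑ a ∈ Ω, w a ≤ W) (hc : 0 < c) (G : ι → Finset α) (I : Finset ι) (T : ℕ)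
    (hT : ∀ a ∈ Ω, w a * T ≤ c / 2) (hI : ∀ i ∈ I, G i ⊆ Ω ∧ c ≤ ∑ a ∈ G i, w a) :
    ∀ t : ℕ, t ≤ T → ∃ S ⊆ Ω, S.card ≤ t ∧
      ∑ i ∈ I, Real.exp (-(((G i ∩ S).card : ℕ) : ℝ)) ≤ I.card * (1 - c / (4 * W)) ^ t := by
  classical
  intro t
  induction t with
  | zero =>
    intro _
    refine ⟨∅, empty_subset _, by simp, by simp⟩
  | succ t ih =>
    intro ht
    obtain ⟨S, hS, hSc, hSs⟩ := ih (by omega)
    rcases I.eq_empty_or_nonempty with h0 | ⟨i0, hi0⟩
    · subst h0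
      exact ⟨∅, empty_subset _, by simp, by simp⟩
    obtain ⟨u, hu⟩ : ∃ u : ι → ℝ, u = fun i => Real.exp (-(((G i ∩ S).card : ℕ) : ℝ)) := ⟨_, rfl⟩
    have hu0 : ∀ i, 0 < u i := fun i => by rw [hu]; exact Real.exp_pos _
    obtain ⟨U, hU⟩ : ∃ U : ℝ, U = ∑ i ∈ I, u i := ⟨_, rfl⟩
    have hU0 : 0 < U := by
      rw [hU]
      exact sum_pos (fun i _ => hu0 i) ⟨i0, hi0⟩
    have hUs : U ≤ I.card * (1 - c / (4 * W)) ^ t := by rw [hU, hu]; exact hSs
    -- the weight which is left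
    have hSw : ∑ a ∈ S, w a ≤ c / 2 := by
      rcases Nat.eq_zero_or_pos t with h1 | h1
      · have : S = ∅ := card_eq_zero.1 (by omega)
        rw [this, sum_empty]
        positivity
      have hT0 : (0 : ℝ) < T := by exact_mod_cast (by omega : 0 < T)
      calc ∑ a ∈ S, w a ≤ ∑ a ∈ S, c / 2 / T := by
            apply sum_le_sum
            intro a ha
            rw [le_div_iff₀ hT0]
            exact hT a (hS ha)
        _ = S.card * (c / 2 / T) := by rw [sum_const, nsmul_eq_mul]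
        _ ≤ T * (c / 2 / T) := by
            apply mul_le_mul_of_nonneg_right _ (by positivity)
            exact_mod_cast (by omega : S.card ≤ T)
        _ = c / 2 := by field_simp
    have hleft : ∀ i ∈ I, c / 2 ≤ ∑ a ∈ G i \ S, w a := by
      intro i hi
      have h1 : ∑ a ∈ G i, w a ≤ ∑ a ∈ G i \ S, w a + ∑ a ∈ S, w a := by
        have h2 : ∑ a ∈ G i, w a = ∑ a ∈ G i \ S, w a + ∑ a ∈ G i ∩ S, w a := by
          rw [← sum_union]
          · congr 1
            ext a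
            simp only [mem_union, mem_sdiff, mem_inter]
            tauto
          · rw [disjoint_left]
            intro a ha hb
            exact (mem_sdiff.1 ha).2 (mem_inter.1 hb).2
        have h3 : ∑ a ∈ G i ∩ S, w a ≤ ∑ a ∈ S, w a :=
          sum_le_sum_of_subset_of_nonneg inter_subset_right (fun a ha _ => hw a (hS ha))
        linarith
      have := (hI i hi).2
      linarith
    have hdc : ∑ a ∈ Ω \ S, w a * (∑ i ∈ I.filter (fun i => a ∈ G i), u i) = ∑ i ∈ I, u i * ∑ a ∈ G i \ S, w a := by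
      have e1 : ∀ i ∈ I, u i * ∑ a ∈ G i \ S, w a = ∑ a ∈ Ω \ S, if a ∈ G i then w a * u i else 0 := by
        intro i hi
        rw [← sum_filter, mul_sum]
        have e2 : G i \ S = (Ω \ S).filter (fun a => a ∈ G i) := by
          ext a
          rw [mem_filter, mem_sdiff, mem_sdiff]
          exact ⟨fun h => ⟨⟨(hI i hi).1 h.1, h.2⟩, h.1⟩, fun h => ⟨h.2, h.1.2⟩⟩
        rw [e2]
        exact sum_congr rfl fun a _ => mul_comm _ _
      rw [sum_congr rfl e1, sum_comm]
      apply sum_congr rfl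
      intro a _
      rw [← sum_filter, mul_sum]
    have hlow : c / 2 * U ≤ ∑ a ∈ Ω \ S, w a * (∑ i ∈ I.filter (fun i => a ∈ G i), u i) := by
      rw [hdc, hU, mul_sum]
      apply sum_le_sum
      intro i hi
      rw [mul_comm]
      exact mul_le_mul_of_nonneg_left (hleft i hi) (hu0 i).le
    have hWS : ∑ a ∈ Ω \ S, w a ≤ W :=
      (sum_le_sum_of_subset_of_nonneg sdiff_subset (fun a ha _ => hw a ha)).trans hWs
    obtain ⟨a, ha, hage⟩ : ∃ a ∈ Ω \ S, c / (2 * W) * U ≤ ∑ i ∈ I.filter (fun i => a ∈ G i), u i := by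
      by_contra hcon
      push Not at hcon
      obtain ⟨a1, ha1, hwa1⟩ : ∃ a ∈ Ω \ S, 0 < w a := by
        by_contra hc2
        push Not at hc2
        have h1 : ∑ a ∈ G i0 \ S, w a ≤ 0 := sum_nonpos (fun a ha => hc2 a
          (mem_sdiff.2 ⟨(hI i0 hi0).1 (mem_sdiff.1 ha).1, (mem_sdiff.1 ha).2⟩))
        have h2 := hleft i0 hi0
        linarith
      have h1 : ∑ a ∈ Ω \ S, w a * (∑ i ∈ I.filter (fun i => a ∈ G i), u i) <
          ∑ a ∈ Ω \ S, w a * (c / (2 * W) * U) := by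
        apply sum_lt_sum
        · intro a ha
          exact mul_le_mul_of_nonneg_left (hcon a ha).le (hw a (mem_sdiff.1 ha).1)
        · exact ⟨a1, ha1, mul_lt_mul_of_pos_left (hcon a1 ha1) hwa1⟩
      rw [← sum_mul] at h1
      have h2 : (∑ a ∈ Ω \ S, w a) * (c / (2 * W) * U) ≤ W * (c / (2 * W) * U) :=
        mul_le_mul_of_nonneg_right hWS (by positivity)
      have h3 : W * (c / (2 * W) * U) = c / 2 * U := by field_simp
      linarith
    refine ⟨insert a S, ?_, (card_insert_le a S).trans (by omega), ?_⟩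
    · intro b hb
      rcases mem_insert.1 hb with rfl | hb
      · exact (mem_sdiff.1 ha).1
      · exact hS hb
    have haS : a ∉ S := (mem_sdiff.1 ha).2
    have hterm : ∀ i ∈ I, Real.exp (-(((G i ∩ insert a S).card : ℕ) : ℝ)) ≤
        u i - (if a ∈ G i then u i / 2 else 0) := by
      intro i _
      by_cases h1 : a ∈ G i
      · rw [if_pos h1, inter_insert_of_mem h1, card_insert_of_notMem (fun h => haS (mem_inter.1 h).2)]
        push_cast
        have h2 : Real.exp (-(((G i ∩ S).card : ℝ) + 1)) = u i * Real.exp (-1) := by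
          rw [hu, ← Real.exp_add]
          congr 1
          ring
        rw [h2]
        have := mul_le_mul_of_nonneg_left exp_neg_one_le (hu0 i).le
        linarith
      · rw [if_neg h1, inter_insert_of_notMem h1, hu]
        simp
    have h5 : ∑ i ∈ I, Real.exp (-(((G i ∩ insert a S).card : ℕ) : ℝ)) ≤
        U - (∑ i ∈ I.filter (fun i => a ∈ G i), u i) / 2 := by
      refine (sum_le_sum hterm).trans (le_of_eq ?_)
      rw [sum_sub_distrib, ← sum_filter, ← sum_div, hU]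
    have hfac : 0 ≤ 1 - c / (4 * W) := by
      have h1 : c ≤ W := by
        calc c ≤ ∑ a ∈ G i0, w a := (hI i0 hi0).2
          _ ≤ ∑ a ∈ Ω, w a := sum_le_sum_of_subset_of_nonneg (hI i0 hi0).1 (fun a ha _ => hw a ha)
          _ ≤ W := hWs
      rw [sub_nonneg, div_le_one (by positivity)]
      linarith
    calc _ ≤ U - (∑ i ∈ I.filter (fun i => a ∈ G i), u i) / 2 := h5
      _ ≤ U - (c / (2 * W) * U) / 2 := by linarith
      _ = U * (1 - c / (4 * W)) := by ring
      _ ≤ (I.card * (1 - c / (4 * W)) ^ t) * (1 - c / (4 * W)) := mul_le_mul_of_nonneg_right hUs hfac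
      _ = _ := by ring

/-- **A small set which hits every member of a family many times.** -/
theorem hit_many {α ι : Type*} [DecidableEq α] (Ω : Finset α) (w : α → ℝ) (hw : ∀ a ∈ Ω, 0 ≤ w a)
    (W c : ℝ) (hW : 0 < W) (hWs : ∑ a ∈ Ω, w a ≤ W) (hc : 0 < c) (G : ι → Finset α) (I : Finset ι) (T : ℕ)
    (hT : ∀ a ∈ Ω, w a * T ≤ c / 2) (hI : ∀ i ∈ I, G i ⊆ Ω ∧ c ≤ ∑ a ∈ G i, w a) :
    ∃ S ⊆ Ω, S.card ≤ T ∧ ∀ i ∈ I, c / (4 * W) * T - Real.log I.card ≤ (((G i ∩ S).card : ℕ) : ℝ) := by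
  classical
  obtain ⟨S, hS, hSc, hSs⟩ := hit_step Ω w hw W c hW hWs hc G I T hT hI T le_rfl
  refine ⟨S, hS, hSc, fun i hi => ?_⟩
  have hI0 : (0 : ℝ) < I.card := by exact_mod_cast card_pos.2 ⟨i, hi⟩
  have h1 : Real.exp (-(((G i ∩ S).card : ℕ) : ℝ)) ≤ ∑ i ∈ I, Real.exp (-(((G i ∩ S).card : ℕ) : ℝ)) :=
    single_le_sum (f := fun i => Real.exp (-(((G i ∩ S).card : ℕ) : ℝ))) (fun _ _ => (Real.exp_pos _).le) hi
  have hfac : 0 ≤ 1 - c / (4 * W) := by
    have h1 : c ≤ W := by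
      calc c ≤ ∑ a ∈ G i, w a := (hI i hi).2
        _ ≤ ∑ a ∈ Ω, w a := sum_le_sum_of_subset_of_nonneg (hI i hi).1 (fun a ha _ => hw a ha)
        _ ≤ W := hWs
    rw [sub_nonneg, div_le_one (by positivity)]
    linarith
  have h2 : (1 - c / (4 * W)) ^ T ≤ Real.exp (-(c / (4 * W) * T)) := by
    have h3 : 1 - c / (4 * W) ≤ Real.exp (-(c / (4 * W))) := by
      have := Real.add_one_le_exp (-(c / (4 * W)))
      linarith
    calc (1 - c / (4 * W)) ^ T ≤ Real.exp (-(c / (4 * W))) ^ T := pow_le_pow_left₀ hfac h3 T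
      _ = _ := by
        rw [← Real.exp_nat_mul]
        congr 1
        ring
  have h4 : Real.exp (-(((G i ∩ S).card : ℕ) : ℝ)) ≤ Real.exp (Real.log I.card + -(c / (4 * W) * T)) := by
    rw [Real.exp_add, Real.exp_log hI0]
    exact (h1.trans hSs).trans (mul_le_mul_of_nonneg_left h2 hI0.le)
  have h5 := Real.exp_le_exp.1 h4
  linarith

end Pool.Agent.Q253.Cov
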