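import Pool.Agent.Q253.Cov.General

/-!
# One thin set of indices for polynomially many dense families
-/

set_option autoImplicit false

namespace Pool.Agent.Q253.Cov

open Finset Filter
open Pool.Agent.Q253.Thin (hit2)

/-- the exponents of the scales -/
def eX (M i c : ℕ) : ℕ := 2 ^ i + c * 2 ^ i / M

theorem eX_ge (M i c : ℕ) : 2 ^ i ≤ eX M i c := Nat.le_add_right _ _

theorem eX_le {M i c : ℕ} (hc : c < M) : eX M i c ≤ 2 ^ (i + 1) := by
  unfold eX
  have h1 : c * 2 ^ i / M ≤ 2 ^ i := by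
    apply Nat.div_le_of_le_mul
    exact Nat.mul_le_mul_right _ hc.le
  rw [pow_succ]
  omega

/-- every exponent is just above the exponent of a scale -/
theorem exists_eX {M L : ℕ} (hM : 1 ≤ M) (hL : 1 ≤ L) : ∃ i c : ℕ, c < M ∧ eX M i c ≤ L ∧ M * L ≤ (M + 1) * eX M i c + 2 * M := by
  obtain ⟨i, hi⟩ : ∃ i, i = Nat.log 2 L := ⟨_, rfl⟩
  have h1 : 2 ^ i ≤ L := by rw [hi]; exact Nat.pow_log_le_self 2 (by omega)
  have h2 : L < 2 ^ (i + 1) := by rw [hi]; exact Nat.lt_pow_succ_log_self (by norm_num) _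
  have hp : 0 < 2 ^ i := by positivity
  obtain ⟨P, hP⟩ : ∃ P, P = 2 ^ i := ⟨_, rfl⟩
  rw [pow_succ] at h2
  rw [← hP] at h1 h2 hp
  obtain ⟨c, hc⟩ : ∃ c, c = (L - P) * M / P := ⟨_, rfl⟩
  have hcM : c < M := by
    rw [hc, Nat.div_lt_iff_lt_mul hp]
    have : L - P < P := by omega
    calc (L - P) * M < P * M := Nat.mul_lt_mul_of_pos_right this hM
      _ = M * P := mul_comm _ _
  have hc1 : c * P ≤ (L - P) * M := by rw [hc]; exact Nat.div_mul_le_self _ _
  have hc2 : (L - P) * M < (c + 1) * P := by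
    rw [hc]
    have := Nat.lt_div_mul_add (a := (L - P) * M) hp
    calc (L - P) * M < (L - P) * M / P * P + P := this
      _ = ((L - P) * M / P + 1) * P := by ring
  refine ⟨i, c, hcM, ?_, ?_⟩
  · unfold eX
    rw [← hP]
    have h3 : c * P / M ≤ L - P := by
      apply Nat.div_le_of_le_mul
      calc c * P ≤ (L - P) * M := hc1
        _ = M * (L - P) := mul_comm _ _
    omega
  · unfold eX
    rw [← hP]
    obtain ⟨u, hu⟩ : ∃ u, u = c * P / M := ⟨_, rfl⟩
    rw [← hu]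
    have h3 : c * P < u * M + M := by
      rw [hu]
      exact Nat.lt_div_mul_add hM
    -- M L = M P + M (L - P) < M P + (c + 1) P < M P + u M + M + P
    have h4 : M * L = M * P + (L - P) * M := by
      have : L = P + (L - P) := by omega
      calc M * L = M * (P + (L - P)) := by rw [← this]
        _ = _ := by ring
    have h5 : (c + 1) * P = c * P + P := by ring
    have h6 : (M + 1) * (P + u) = M * P + u * M + P + u := by ring
    rw [h6]
    omega

open Classical in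
/-- **One thin set of indices.** -/
theorem thin_index {ι : Type*} (s A : ℕ) (h h' : ℝ) (h'0 : 0 < h') (hh : h' < h) (δ : ℝ) (hδ : 0 < δ)
    (F : ℕ → Finset ι) (X₀ : ℕ) (hF : ∀ X : ℕ, X₀ ≤ X → (F X).card ≤ X ^ A) (J : ℕ → ι → ℕ → Prop)
    (hJ : ∀ X : ℕ, X₀ ≤ X → ∀ t ∈ F X, ∀ Y : ℕ, (X : ℝ) ^ h' ≤ Y → (Y : ℝ) ≤ (X : ℝ) ^ h →
      δ * Y / Real.log X ^ s ≤ (((Ioc (Y / 2) Y).filter (J X t)).card : ℝ)) :
    ∃ C : ℝ, 0 < C ∧ ∃ D : Set ℕ, (∀ y : ℕ, 2 ≤ y → {d ∈ D | d ≤ y}.Finite ∧ ({d ∈ D | d ≤ y}.ncard : ℝ) ≤ C * Real.log y ^ (s + 1)) ∧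
      ∃ X₁ : ℕ, ∀ X : ℕ, X₁ ≤ X → ∀ t ∈ F X, ∃ d ∈ D, J X t d ∧ (d : ℝ) ≤ (X : ℝ) ^ h := by
  have hh0 : 0 < h := h'0.trans hh
  obtain ⟨B, hB⟩ : ∃ B : ℕ, B = ⌈1 / h'⌉₊ := ⟨_, rfl⟩
  have hBh : 1 ≤ h' * B := by
    have h1 : 1 / h' ≤ B := by rw [hB]; exact Nat.le_ceil _
    rw [div_le_iff₀ h'0] at h1
    linarith
  have hB1 : 1 ≤ B := by
    by_contra hcon
    have : B = 0 := by omega
    rw [this, Nat.cast_zero, mul_zero] at hBh
    linarith
  have hBr : (1 : ℝ) ≤ B := by exact_mod_cast hB1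
  -- the number of phases
  obtain ⟨M, hM⟩ : ∃ M : ℕ, M = ⌈h' / (h - h')⌉₊ + 1 := ⟨_, rfl⟩
  have hM1 : 1 ≤ M := by omega
  have hMr : (1 : ℝ) ≤ M := by exact_mod_cast hM1
  have hMh : h' * (M + 1) < h * M := by
    have h1 : h' / (h - h') < M := by
      rw [hM]
      push_cast
      have := Nat.le_ceil (h' / (h - h'))
      linarith
    rw [div_lt_iff₀ (by linarith)] at h1
    nlinarith
  obtain ⟨K, hK⟩ : ∃ K : ℕ, K = B + B * A + 1 := ⟨_, rfl⟩
  obtain ⟨C₁, hC₁⟩ : ∃ C₁ : ℝ, C₁ = ((B : ℝ) ^ s / δ + 2) * K := ⟨_, rfl⟩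
  have hK0 : (0 : ℝ) < K := by exact_mod_cast (by omega : 0 < K)
  have hC₁0 : 0 < C₁ := by rw [hC₁]; positivity
  -- the index sets
  obtain ⟨I, hI⟩ : ∃ I : ℕ → Finset ((_ : ℕ) × ι), I = fun Y => ((range (Y ^ B + 1)).sigma F).filter (fun x =>
    X₀ ≤ x.1 ∧ (x.1 : ℝ) ^ h' ≤ Y ∧ (Y : ℝ) ≤ (x.1 : ℝ) ^ h) := ⟨_, rfl⟩
  have hstep : ∀ i c : ℕ, ∃ T : Finset ℕ, (∀ d ∈ T, 2 ^ (eX M i c - 1) < d ∧ d ≤ 2 ^ eX M i c) ∧
      ((T.card : ℝ) ≤ C₁ * ((eX M i c : ℕ) : ℝ) ^ (s + 1)) ∧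
      (1 ≤ i → ∀ x ∈ I (2 ^ eX M i c), ∃ d ∈ T, J x.1 x.2 d) := by
    intro i c
    by_cases hi : 1 ≤ i
    swap
    · refine ⟨∅, by simp, ?_, fun h => absurd h hi⟩
      simp only [card_empty, Nat.cast_zero]
      positivity
    obtain ⟨e, he⟩ : ∃ e, e = eX M i c := ⟨_, rfl⟩
    rw [← he]
    have he2 : 2 ≤ e := by
      rw [he]
      refine le_trans ?_ (eX_ge M i c)
      calc 2 = 2 ^ 1 := by norm_num
        _ ≤ 2 ^ i := Nat.pow_le_pow_right (by norm_num) hi
    have her : (2 : ℝ) ≤ e := by exact_mod_cast he2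
    obtain ⟨Y, hY⟩ : ∃ Y, Y = 2 ^ e := ⟨_, rfl⟩
    rw [← hY]
    have hY4 : 4 ≤ Y := by
      rw [hY]
      calc 4 = 2 ^ 2 := by norm_num
        _ ≤ 2 ^ e := Nat.pow_le_pow_right (by norm_num) he2
    have hYr : (4 : ℝ) ≤ Y := by exact_mod_cast hY4
    have hlY : Real.log Y ≤ e := by
      rw [hY]
      push_cast
      rw [Real.log_pow]
      have := Real.log_two_lt_d9
      nlinarith
    have hlY1 : 1 ≤ Real.log Y := by
      have h1 := Real.log_le_log (by norm_num) hYr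
      have h2 : Real.log 4 = 2 * Real.log 2 := by
        rw [show (4 : ℝ) = 2 ^ 2 by norm_num, Real.log_pow]
        norm_num
      have := Real.log_two_gt_d9
      linarith
    have hYhalf : Y / 2 = 2 ^ (e - 1) := by
      rw [hY]
      obtain ⟨f, rfl⟩ : ∃ f, e = f + 1 := ⟨e - 1, by omega⟩
      rw [Nat.add_sub_cancel, pow_succ, Nat.mul_div_cancel _ (by norm_num)]
    obtain ⟨T, hT1, hT2, hT3⟩ := hit2 (Ioc (Y / 2) Y) (fun _ => (1 : ℝ)) (fun _ _ => by norm_num) Y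
      (δ / (B * Real.log Y) ^ s) (by linarith) (by
        rw [sum_const, Nat.card_Ioc, nsmul_eq_mul, mul_one]
        exact_mod_cast Nat.sub_le _ _) (by positivity)
      (fun x : ((_ : ℕ) × ι) => (Ioc (Y / 2) Y).filter (J x.1 x.2)) (I Y) ((Y : ℝ) ^ K) (by
        calc (2 : ℝ) ≤ Y := by linarith
          _ = (Y : ℝ) ^ 1 := (pow_one _).symm
          _ ≤ _ := pow_le_pow_right₀ (by linarith) (by omega)) (by
        have h1 : (I Y).card ≤ Y ^ K := by
          rw [hI]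
          simp only
          have h2 : (((range (Y ^ B + 1)).sigma F).filter (fun x => X₀ ≤ x.1 ∧ (x.1 : ℝ) ^ h' ≤ Y ∧ (Y : ℝ) ≤ (x.1 : ℝ) ^ h)) ⊆
              ((range (Y ^ B + 1)).filter (fun X => X₀ ≤ X)).sigma F := by
            intro x hx
            rw [mem_filter, mem_sigma] at hx
            rw [mem_sigma, mem_filter]
            exact ⟨⟨hx.1.1, hx.2.1⟩, hx.1.2⟩
          refine (card_le_card h2).trans ?_
          rw [card_sigma]
          calc ∑ X ∈ (range (Y ^ B + 1)).filter (fun X => X₀ ≤ X), (F X).card ≤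
                ∑ X ∈ (range (Y ^ B + 1)).filter (fun X => X₀ ≤ X), (Y ^ B) ^ A := by
                apply sum_le_sum
                intro X hX
                rw [mem_filter, mem_range] at hX
                exact (hF X hX.2).trans (Nat.pow_le_pow_left (by omega) A)
            _ = ((range (Y ^ B + 1)).filter (fun X => X₀ ≤ X)).card * (Y ^ B) ^ A := by rw [sum_const, smul_eq_mul]
            _ ≤ (Y ^ B + 1) * (Y ^ B) ^ A := by
                apply Nat.mul_le_mul_right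
                refine (card_filter_le _ _).trans ?_
                rw [card_range]
            _ ≤ (Y * Y ^ B) * (Y ^ B) ^ A := by
                apply Nat.mul_le_mul_right
                have : 1 ≤ Y ^ B := Nat.one_le_pow _ _ (by omega)
                nlinarith
            _ = Y ^ K := by
                rw [hK, ← pow_mul, pow_add, pow_add, pow_one]
                ring
        exact_mod_cast h1) (by
        intro x hx
        refine ⟨filter_subset _ _, ?_⟩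
        rw [hI, mem_filter, mem_sigma, mem_range] at hx
        obtain ⟨⟨x1, x2⟩, x3, x4, x5⟩ := hx
        rw [sum_const, nsmul_eq_mul, mul_one]
        refine le_trans ?_ (hJ x.1 x3 x.2 x2 Y x4 x5)
        have hx1 : (x.1 : ℝ) ≤ (Y : ℝ) ^ B := by exact_mod_cast (by omega : x.1 ≤ Y ^ B)
        have hxp : (1 : ℝ) < x.1 := by
          by_contra hcon
          push Not at hcon
          have : (x.1 : ℝ) ^ h ≤ 1 := Real.rpow_le_one (Nat.cast_nonneg _) hcon hh0.le
          linarith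
        have hl : Real.log x.1 ≤ B * Real.log Y := by
          rw [← Real.log_pow]
          exact Real.log_le_log (by linarith) hx1
        have hl0 : 0 < Real.log x.1 := Real.log_pos hxp
        rw [mul_comm, ← mul_div_assoc, mul_comm]
        apply div_le_div_of_nonneg_left (by positivity) (by positivity)
        exact pow_le_pow_left₀ hl0.le hl s)
    refine ⟨T, ?_, ?_, ?_⟩
    · intro d hd
      have := hT1 hd
      rw [mem_Ioc, hYhalf] at this
      exact this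
    · refine hT2.trans ?_
      have e1 : 1 / (δ / (B * Real.log Y) ^ s) = (B : ℝ) ^ s / δ * Real.log Y ^ s := by
        rw [mul_pow]
        field_simp
      rw [e1, Real.log_pow]
      have h1 : (1 : ℝ) ≤ Real.log Y ^ s := one_le_pow₀ hlY1
      have h2 : (B : ℝ) ^ s / δ * Real.log Y ^ s + 2 ≤ ((B : ℝ) ^ s / δ + 2) * Real.log Y ^ s := by linarith
      calc ((B : ℝ) ^ s / δ * Real.log Y ^ s + 2) * (K * Real.log Y) ≤ (((B : ℝ) ^ s / δ + 2) * Real.log Y ^ s) * (K * Real.log Y) :=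
            mul_le_mul_of_nonneg_right h2 (by positivity)
        _ = C₁ * Real.log Y ^ (s + 1) := by rw [hC₁]; ring
        _ ≤ C₁ * (e : ℝ) ^ (s + 1) := by gcongr
    · intro _ x hx
      obtain ⟨d, hd, hd2⟩ := hT3 x hx
      exact ⟨d, hd, (mem_filter.1 hd2).2⟩
  choose T hT1 hT2 hT3 using hstep
  refine ⟨M * (C₁ * (2 * (4 / Real.log 2) ^ (s + 1))) , ?_, {d | ∃ i c, c < M ∧ d ∈ T i c}, ?_, ?_⟩
  · have : 0 < Real.log 2 := Real.log_pos (by norm_num)
    positivity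
  · intro y hy
    obtain ⟨L, hL⟩ : ∃ L, L = Nat.log 2 y := ⟨_, rfl⟩
    have hL1 : 1 ≤ L := by
      rw [hL]
      exact (Nat.le_log_iff_pow_le (by norm_num) (by omega)).2 (by rw [pow_one]; exact hy)
    obtain ⟨n, hn⟩ : ∃ n, n = Nat.log 2 (L + 1) := ⟨_, rfl⟩
    have hyL : y < 2 ^ (L + 1) := by rw [hL]; exact Nat.lt_pow_succ_log_self (by norm_num) _
    have hLy : 2 ^ L ≤ y := by rw [hL]; exact Nat.pow_log_le_self 2 (by omega)
    have hsub : {d ∈ {d | ∃ i c, c < M ∧ d ∈ T i c} | d ≤ y} ⊆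
        ((((range (n + 1)) ×ˢ (range M)).biUnion (fun x => T x.1 x.2) : Finset ℕ) : Set ℕ) := by
      rintro d ⟨⟨i, c, hc, hd⟩, hdy⟩
      rw [mem_coe, mem_biUnion]
      refine ⟨(i, c), ?_, hd⟩
      rw [mem_product, mem_range, mem_range]
      refine ⟨?_, hc⟩
      have h1 := (hT1 i c d hd).1
      have h2 : 2 ^ (eX M i c - 1) < 2 ^ (L + 1) := by omega
      have h3 := (Nat.pow_lt_pow_iff_right (show 1 < 2 by norm_num)).1 h2
      have h4 := eX_ge M i c
      have h5 : 2 ^ i ≤ L + 1 := by omega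
      have h6 : i ≤ n := by
        rw [hn]
        exact (Nat.le_log_iff_pow_le (by norm_num) (by omega)).2 h5
      simp only
      omega
    refine ⟨(finite_toSet _).subset hsub, ?_⟩
    have h1 := Set.ncard_le_ncard hsub (finite_toSet _)
    rw [Set.ncard_coe_finset] at h1
    have h2 : ((((range (n + 1)) ×ˢ (range M)).biUnion (fun x => T x.1 x.2)).card : ℝ) ≤
        ∑ x ∈ (range (n + 1)) ×ˢ (range M), ((T x.1 x.2).card : ℝ) := by
      exact_mod_cast card_biUnion_le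
    have h3 : ∑ x ∈ (range (n + 1)) ×ˢ (range M), ((T x.1 x.2).card : ℝ) ≤
        ∑ x ∈ (range (n + 1)) ×ˢ (range M), C₁ * ((2 : ℝ) ^ (x.1 + 1)) ^ (s + 1) := by
      apply sum_le_sum
      intro x hx
      rw [mem_product, mem_range, mem_range] at hx
      refine (hT2 x.1 x.2).trans ?_
      have h4 : ((eX M x.1 x.2 : ℕ) : ℝ) ≤ (2 : ℝ) ^ (x.1 + 1) := by exact_mod_cast eX_le hx.2
      gcongr
    have h4 : ∑ x ∈ (range (n + 1)) ×ˢ (range M), C₁ * ((2 : ℝ) ^ (x.1 + 1)) ^ (s + 1) =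
        M * (C₁ * ∑ i ∈ range (n + 1), ((2 : ℝ) ^ (i + 1)) ^ (s + 1)) := by
      rw [sum_product]
      simp only [sum_const, card_range, nsmul_eq_mul]
      rw [← mul_sum, ← mul_sum]
    have h5 : ∀ n : ℕ, ∑ i ∈ range (n + 1), ((2 : ℝ) ^ (i + 1)) ^ (s + 1) ≤ 2 * ((2 : ℝ) ^ (n + 1)) ^ (s + 1) := by
      intro n
      induction n with
      | zero =>
        simp only [zero_add, range_one, sum_singleton, pow_one]
        have : (0 : ℝ) ≤ 2 ^ (s + 1) := by positivity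
        linarith
      | succ n ih =>
        rw [sum_range_succ]
        have h6 : 2 * ((2 : ℝ) ^ (n + 1)) ^ (s + 1) ≤ ((2 : ℝ) ^ (n + 1 + 1)) ^ (s + 1) := by
          rw [pow_succ (2 : ℝ) (n + 1), mul_pow, mul_comm]
          apply mul_le_mul_of_nonneg_left _ (by positivity)
          calc (2 : ℝ) = 2 ^ 1 := (pow_one _).symm
            _ ≤ 2 ^ (s + 1) := pow_le_pow_right₀ (by norm_num) (by omega)
        linarith
    have h6 : (2 : ℝ) ^ (n + 1) ≤ 4 / Real.log 2 * Real.log y := by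
      have hl2 : 0 < Real.log 2 := Real.log_pos (by norm_num)
      have a1 : 2 ^ n ≤ L + 1 := by rw [hn]; exact Nat.pow_log_le_self 2 (by omega)
      have a2 : (2 : ℝ) ^ n ≤ L + 1 := by exact_mod_cast a1
      have a3 : (L : ℝ) * Real.log 2 ≤ Real.log y := by
        rw [← Real.log_pow]
        apply Real.log_le_log (by positivity)
        exact_mod_cast hLy
      have a4 : (1 : ℝ) ≤ L := by exact_mod_cast hL1
      rw [pow_succ, div_mul_eq_mul_div, le_div_iff₀ hl2]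
      nlinarith
    have hly : 0 ≤ Real.log y := Real.log_natCast_nonneg y
    calc _ ≤ ((((range (n + 1)) ×ˢ (range M)).biUnion (fun x => T x.1 x.2)).card : ℝ) := by exact_mod_cast h1
      _ ≤ M * (C₁ * ∑ i ∈ range (n + 1), ((2 : ℝ) ^ (i + 1)) ^ (s + 1)) := h2.trans (h3.trans (le_of_eq h4))
      _ ≤ M * (C₁ * (2 * ((2 : ℝ) ^ (n + 1)) ^ (s + 1))) := by
          have := h5 n
          gcongr
      _ ≤ M * (C₁ * (2 * (4 / Real.log 2 * Real.log y) ^ (s + 1))) := by gcongr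
      _ = _ := by rw [mul_pow]; ring
  · -- every member is hit
    have hM0 : (0 : ℝ) < M := by linarith
    have ev1 : ∀ᶠ X : ℕ in atTop, (256 : ℝ) ≤ (X : ℝ) ^ h' :=
      ((tendsto_rpow_atTop h'0).comp tendsto_natCast_atTop_atTop).eventually_ge_atTop _
    have ev2 : ∀ᶠ X : ℕ in atTop, (16 : ℝ) ^ ((M : ℝ) / (M + 1)) ≤ (X : ℝ) ^ (h * M / (M + 1) - h') := by
      apply ((tendsto_rpow_atTop ?_).comp tendsto_natCast_atTop_atTop).eventually_ge_atTop
      rw [sub_pos, lt_div_iff₀ (by linarith)]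
      linarith
    obtain ⟨X₂, hX₂⟩ := eventually_atTop.1 (ev1.and ev2)
    refine ⟨max (max X₀ X₂) 2, ?_⟩
    intro X hX t ht
    obtain ⟨e1, e2⟩ := hX₂ X (((le_max_right _ _).trans (le_max_left _ _)).trans hX)
    have x0 : X₀ ≤ X := ((le_max_left _ _).trans (le_max_left _ _)).trans hX
    have x2 : 2 ≤ X := (le_max_right _ _).trans hX
    have hX0 : (0 : ℝ) < X := by exact_mod_cast (by omega : 0 < X)
    have hX1 : (1 : ℝ) ≤ X := by exact_mod_cast (by omega : 1 ≤ X)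
    have hXh : (256 : ℝ) ≤ (X : ℝ) ^ h := e1.trans (Real.rpow_le_rpow_of_exponent_le hX1 hh.le)
    obtain ⟨H, hH⟩ : ∃ H, H = ⌊(X : ℝ) ^ h⌋₊ := ⟨_, rfl⟩
    have hH4 : 256 ≤ H := by rw [hH]; exact Nat.le_floor (by exact_mod_cast hXh)
    have hHle : (H : ℝ) ≤ (X : ℝ) ^ h := by rw [hH]; exact Nat.floor_le (by positivity)
    have hHge : (X : ℝ) ^ h < H + 1 := by rw [hH]; exact Nat.lt_floor_add_one _
    obtain ⟨L, hL⟩ : ∃ L, L = Nat.log 2 H := ⟨_, rfl⟩
    have hL2 : 8 ≤ L := by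
      rw [hL]
      exact (Nat.le_log_iff_pow_le (by norm_num) (by omega)).2 (by norm_num; exact hH4)
    have hLH : 2 ^ L ≤ H := by rw [hL]; exact Nat.pow_log_le_self 2 (by omega)
    have hHL : H < 2 ^ (L + 1) := by rw [hL]; exact Nat.lt_pow_succ_log_self (by norm_num) _
    obtain ⟨i, c, hc, hc1, hc2⟩ := exists_eX hM1 (show 1 ≤ L by omega)
    have hi : 1 ≤ i := by
      by_contra hcon
      have h0 : i = 0 := by omega
      have h1 := eX_le (i := i) hc
      rw [h0] at h1 hc2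
      norm_num at h1
      have h2 : (M + 1) * eX M 0 c ≤ (M + 1) * 2 := Nat.mul_le_mul_left _ h1
      have h3 : M * 8 ≤ M * L := Nat.mul_le_mul_left _ hL2
      omega
    obtain ⟨e, he⟩ : ∃ e, e = eX M i c := ⟨_, rfl⟩
    rw [← he] at hc1 hc2
    have hY1 : ((2 ^ e : ℕ) : ℝ) ≤ (X : ℝ) ^ h := by
      refine le_trans ?_ hHle
      exact_mod_cast (Nat.pow_le_pow_right (by norm_num) hc1).trans hLH
    have hY2 : (X : ℝ) ^ h' ≤ ((2 ^ e : ℕ) : ℝ) := by
      obtain ⟨Y, hY⟩ : ∃ Y : ℝ, Y = ((2 ^ e : ℕ) : ℝ) := ⟨_, rfl⟩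
      rw [← hY]
      have hY0 : 0 < Y := by rw [hY]; positivity
      have a1 : (X : ℝ) ^ h ≤ 2 ^ (L + 1) := by
        have : ((H : ℝ)) + 1 ≤ 2 ^ (L + 1) := by exact_mod_cast hHL
        linarith
      have a2 : ((X : ℝ) ^ h) ^ M ≤ Y ^ (M + 1) * 16 ^ M := by
        calc ((X : ℝ) ^ h) ^ M ≤ ((2 : ℝ) ^ (L + 1)) ^ M := pow_le_pow_left₀ (by positivity) a1 M
          _ = 2 ^ (M * L + M) := by rw [← pow_mul]; ring_nf
          _ ≤ 2 ^ ((M + 1) * e + 4 * M) := pow_le_pow_right₀ (by norm_num) (by omega)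
          _ = Y ^ (M + 1) * 16 ^ M := by
              have b1 : (2 : ℝ) ^ (4 * M) = 16 ^ M := by
                rw [pow_mul]
                norm_num
              have b2 : (2 : ℝ) ^ ((M + 1) * e) = Y ^ (M + 1) := by
                rw [hY]
                push_cast
                rw [← pow_mul, mul_comm]
              rw [pow_add, b1, b2]
      have hM10 : (0 : ℝ) < (M : ℝ) + 1 := by linarith
      have a3 : ((X : ℝ) ^ (h * M / (M + 1))) ≤ Y * 16 ^ ((M : ℝ) / (M + 1)) := by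
        have a4 : (((X : ℝ) ^ h) ^ M) ^ (1 / ((M : ℝ) + 1)) ≤ (Y ^ (M + 1) * 16 ^ M) ^ (1 / ((M : ℝ) + 1)) :=
          Real.rpow_le_rpow (by positivity) a2 (by positivity)
        have a5 : (((X : ℝ) ^ h) ^ M) ^ (1 / ((M : ℝ) + 1)) = (X : ℝ) ^ (h * M / (M + 1)) := by
          rw [← Real.rpow_natCast, ← Real.rpow_mul hX0.le, ← Real.rpow_mul hX0.le, mul_one_div]
        have a6 : (Y ^ (M + 1) * 16 ^ M) ^ (1 / ((M : ℝ) + 1)) = Y * 16 ^ ((M : ℝ) / (M + 1)) := by
          rw [Real.mul_rpow (by positivity) (by positivity), ← Real.rpow_natCast Y, ← Real.rpow_natCast (16 : ℝ), ← Real.rpow_mul hY0.le,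
            ← Real.rpow_mul (by norm_num : (0 : ℝ) ≤ 16), mul_one_div, mul_one_div]
          push_cast
          rw [div_self hM10.ne', Real.rpow_one]
        rw [a5, a6] at a4
        exact a4
      have a7 : (X : ℝ) ^ h' * 16 ^ ((M : ℝ) / (M + 1)) ≤ Y * 16 ^ ((M : ℝ) / (M + 1)) := by
        refine le_trans ?_ a3
        have a8 : (X : ℝ) ^ (h * M / (M + 1)) = (X : ℝ) ^ h' * (X : ℝ) ^ (h * M / (M + 1) - h') := by
          rw [← Real.rpow_add hX0]
          ring_nf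
        rw [a8]
        exact mul_le_mul_of_nonneg_left e2 (by positivity)
      exact le_of_mul_le_mul_right a7 (by positivity)
    have hXB : X ≤ (2 ^ e) ^ B := by
      have b1 : (X : ℝ) ≤ (((2 ^ e) ^ B : ℕ) : ℝ) := by
        calc (X : ℝ) = (X : ℝ) ^ (1 : ℝ) := (Real.rpow_one _).symm
          _ ≤ (X : ℝ) ^ (h' * B) := Real.rpow_le_rpow_of_exponent_le hX1 hBh
          _ = ((X : ℝ) ^ h') ^ B := by rw [Real.rpow_mul hX0.le, Real.rpow_natCast]
          _ ≤ (((2 ^ e : ℕ) : ℝ)) ^ B := pow_le_pow_left₀ (by positivity) hY2 B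
          _ = _ := by push_cast; rfl
      exact_mod_cast b1
    obtain ⟨d, hd, hJd⟩ := hT3 i c hi ⟨X, t⟩ (by
      rw [hI, mem_filter, mem_sigma, mem_range, ← he]
      exact ⟨⟨by simp only; omega, ht⟩, x0, hY2, hY1⟩)
    refine ⟨d, ⟨i, c, hc, hd⟩, hJd, ?_⟩
    have := (hT1 i c d hd).2
    rw [← he] at this
    refine le_trans ?_ hY1
    exact_mod_cast this

end Pool.Agent.Q253.Cov
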