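import Pool.Agent.Q253.Cov.QuadC
import Pool.Agent.Q253.Cov.Fam
import Pool.Agent.TH464.PO.QuadAP

/-!
# One thin set of primes for the values of all quadratic polynomials in all classes and short intervals
-/

set_option autoImplicit false

namespace Pool.Agent.Q253.Cov

open Finset Filter Polynomial
open Pool.Agent.Y882.PX
open Pool.Agent.Y843.HS (Pr VV Pr_mem Pr_prime)
open Pool.Agent.Q253.Thin (SysZ VZ_nonneg VZ_low)
open Pool.Agent.Q253.P3 (card_class)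

/-- the sieve product of a quadratic polynomial in a class -/
theorem quadC_low {a b c : ℤ} (ha : 0 < a) (hg : ∀ q : ℕ, q.Prime → ¬ ((q : ℤ) ∣ a ∧ (q : ℤ) ∣ b ∧ (q : ℤ) ∣ c))
    (hp : ¬ ((2 : ℤ) ∣ a + b ∧ (2 : ℤ) ∣ c)) (hD : ¬ IsSquare (b ^ 2 - 4 * a * c)) :
    ∃ c₀ : ℝ, 0 < c₀ ∧ ∀ H : ℕ, 3 ≤ H → ∀ q v : ℕ, CC a b c q v → c₀ / Real.log H ≤ VV (Zf (QC a b c q v)) 0 H := by
  classical
  obtain ⟨c₀, C₀, hc₀, -, h1⟩ := Pool.Agent.W123.RU.Poly.V_bounds _ (Pool.Agent.TH464.PO.qs_sys a b c ha hg (by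
    rintro ⟨h1, h2⟩
    exact hp ⟨h1.two_dvd, h2.two_dvd⟩) hD)
  refine ⟨c₀, hc₀, fun H hH q v hv => ?_⟩
  have h2 := (h1 H hH).1
  rw [Fintype.card_fin, pow_one, Pool.Agent.TH464.PO.qs_V] at h2
  refine h2.trans ?_
  unfold VV
  have h3 : Pr 0 H = (range (H + 1)).filter Nat.Prime := by
    ext p
    rw [Pr_mem, mem_filter, mem_range]
    constructor
    · rintro ⟨⟨a, b⟩, c⟩
      exact ⟨by omega, c⟩
    · rintro ⟨a, c⟩
      exact ⟨⟨c.pos, by omega⟩, c⟩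
  rw [h3]
  have h4 : ∀ p : ℕ, ((range p).filter (fun m : ℕ => (p : ℤ) ∣ a * (m : ℤ) ^ 2 + b * m + c)) = Zf (QP a b c) p := by
    intro p
    unfold Zf
    simp only [QP_eval]
  apply Finset.prod_le_prod
  · intro p hp
    have hpp := (mem_filter.1 hp).2
    have hp0 : (0 : ℝ) < p := by exact_mod_cast hpp.pos
    rw [sub_nonneg, div_le_one hp0]
    have : ((range p).filter (fun m : ℕ => (p : ℤ) ∣ a * (m : ℤ) ^ 2 + b * m + c)).card ≤ p :=
      (card_filter_le _ _).trans (card_range p).le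
    exact_mod_cast this
  · intro p hp
    have hpp := (mem_filter.1 hp).2
    have hp0 : (0 : ℝ) < p := by exact_mod_cast hpp.pos
    rw [h4, Zf_ro, Zf_ro]
    by_cases hpq : p ∣ q
    · rw [ro_QC_dvd hv hpp hpq]
      simp only [Nat.cast_zero, zero_div, sub_zero]
      have : (0 : ℝ) ≤ (ro (QP a b c) 0 p : ℝ) / p := by positivity
      linarith
    · rw [ro_QC hpp hpq]

/-- the number of the multiples of a prime -/
theorem mult_int (F : ℤ[X]) (p A H : ℕ) (hp : p.Prime) (hF : (Zf F p).card ≤ 2) :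
    ((((Ioc A (A + H)).filter (fun n : ℕ => (p : ℤ) ∣ F.eval (n : ℤ))).card : ℕ) : ℝ) ≤ 2 * (H / p + 1) := by
  classical
  have hcov : (Ioc A (A + H)).filter (fun n : ℕ => (p : ℤ) ∣ F.eval (n : ℤ)) ⊆
      (Zf F p).biUnion (fun v => (Ioc A (A + H)).filter (fun j => j ≡ v [MOD p])) := by
    intro n hn
    rw [mem_filter] at hn
    rw [mem_biUnion]
    refine ⟨n % p, (Zf_mem F hp.pos).2 hn.2, ?_⟩
    rw [mem_filter]
    exact ⟨hn.1, (Nat.mod_modEq n p).symm⟩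
  have h0 : (0 : ℝ) ≤ H / p + 1 := by positivity
  calc ((((Ioc A (A + H)).filter (fun n : ℕ => (p : ℤ) ∣ F.eval (n : ℤ))).card : ℕ) : ℝ) ≤
        ∑ v ∈ Zf F p, ((((Ioc A (A + H)).filter (fun j => j ≡ v [MOD p])).card : ℕ) : ℝ) := by
        exact_mod_cast (card_le_card hcov).trans card_biUnion_le
    _ ≤ ∑ _v ∈ Zf F p, ((H : ℝ) / p + 1) := by
        apply sum_le_sum
        intro v _
        have := (abs_le.1 (card_class A H p v hp.pos)).2
        linarith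
    _ = (Zf F p).card * ((H : ℝ) / p + 1) := by rw [sum_const, nsmul_eq_mul]
    _ ≤ 2 * (H / p + 1) := mul_le_mul_of_nonneg_right (by exact_mod_cast hF) h0

/-- composite numbers with large smallest prime factor -/
theorem two_primes {N : ℕ} (h2 : 2 ≤ N) (hN : ¬ N.Prime) {T : ℝ} (hT : 0 ≤ T) (hT1 : T < (N.minFac : ℝ)) (hT3 : (N : ℝ) ≤ T ^ 3) :
    ∃ p₁ p₂ : ℕ, p₁.Prime ∧ p₂.Prime ∧ N = p₁ * p₂ ∧ T < p₁ ∧ T < p₂ := by
  have hp := Nat.minFac_prime (show N ≠ 1 by omega)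
  obtain ⟨m, hm⟩ := Nat.minFac_dvd N
  have hsq := Nat.minFac_sq_le_self (by omega) hN
  have hqm : N.minFac ≤ m := by
    have h3 : N.minFac * N.minFac ≤ N.minFac * m := by
      rw [← hm, ← pow_two]
      exact hsq
    exact Nat.le_of_mul_le_mul_left h3 hp.pos
  have hm2 : 2 ≤ m := hp.two_le.trans hqm
  have hmT : T < m := lt_of_lt_of_le hT1 (by exact_mod_cast hqm)
  refine ⟨N.minFac, m, hp, ?_, hm, hT1, hmT⟩
  by_contra hmp
  have h3 := Nat.minFac_sq_le_self (by omega) hmp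
  have h4 : N.minFac ≤ m.minFac :=
    Nat.minFac_le_of_dvd (Nat.minFac_prime (by omega)).two_le ((Nat.minFac_dvd m).trans (hm ▸ Dvd.intro_left _ rfl))
  have h5 : N.minFac ^ 3 ≤ N := by
    calc N.minFac ^ 3 = N.minFac * N.minFac ^ 2 := by ring
      _ ≤ N.minFac * m := Nat.mul_le_mul_left _ ((Nat.pow_le_pow_left h4 2).trans h3)
      _ = N := hm.symm
  have h6 : (N.minFac : ℝ) ^ 3 ≤ N := by exact_mod_cast h5
  have h7 : T ^ 3 < (N.minFac : ℝ) ^ 3 := pow_lt_pow_left₀ hT1 hT (by norm_num)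
  linarith

/-- the cofactor of the smallest prime factor -/
theorem cofac {N : ℕ} (h2 : 2 ≤ N) (hN : ¬ N.Prime) {r : ℕ} (hr : N.primeFactorsList.length ≤ r + 1) :
    ∃ m : ℕ, 2 ≤ m ∧ N = N.minFac * m ∧ m.primeFactorsList.length ≤ r ∧ ∀ p : ℕ, p.Prime → p ∣ m → N.minFac ≤ p := by
  have hp := Nat.minFac_prime (show N ≠ 1 by omega)
  obtain ⟨m, hm⟩ := Nat.minFac_dvd N
  have hsq := Nat.minFac_sq_le_self (by omega) hN
  have hqm : N.minFac ≤ m := by
    have h3 : N.minFac * N.minFac ≤ N.minFac * m := by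
      rw [← hm, ← pow_two]
      exact hsq
    exact Nat.le_of_mul_le_mul_left h3 hp.pos
  have hm2 : 2 ≤ m := hp.two_le.trans hqm
  refine ⟨m, hm2, hm, ?_, ?_⟩
  · have h1 := (Nat.perm_primeFactorsList_mul hp.ne_zero (show m ≠ 0 by omega)).length_eq
    rw [← hm, List.length_append, Nat.primeFactorsList_prime hp, List.length_singleton] at h1
    omega
  · intro p hpp hpm
    exact Nat.minFac_le_of_dvd hpp.two_le (hpm.trans (hm ▸ Dvd.intro_left _ rfl))

/-- the box of the parameters -/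
noncomputable def boxQ (X : ℕ) : Finset (ℤ × ℤ × ℤ × ℕ × ℕ × ℕ × ℕ) :=
  (Icc (-(X : ℤ)) X) ×ˢ (Icc (-(X : ℤ)) X) ×ˢ (Icc (-(X : ℤ)) X) ×ˢ (range (X + 1)) ×ˢ (range (X + 1)) ×ˢ (range (X + 1)) ×ˢ (range (X + 1))

theorem boxQ_card (X : ℕ) (hX : 3 ≤ X) : (boxQ X).card ≤ X ^ 14 := by
  unfold boxQ
  simp only [card_product, card_range, Int.card_Icc]
  have h3 : (((X : ℤ) + 1 - -(X : ℤ)).toNat) = 2 * X + 1 := by
    have : ((X : ℤ) + 1 - -(X : ℤ)) = ((2 * X + 1 : ℕ) : ℤ) := by push_cast; ring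
    rw [this, Int.toNat_natCast]
  rw [h3]
  have h4 : 2 * X + 1 ≤ X ^ 2 := by nlinarith
  have h5 : X + 1 ≤ X ^ 2 := by nlinarith
  calc (2 * X + 1) * ((2 * X + 1) * ((2 * X + 1) * ((X + 1) * ((X + 1) * ((X + 1) * (X + 1)))))) ≤
        X ^ 2 * (X ^ 2 * (X ^ 2 * (X ^ 2 * (X ^ 2 * (X ^ 2 * X ^ 2))))) := by gcongr
    _ = X ^ 14 := by ring

/-- the value at `q j + v` -/
noncomputable def vl (a b c : ℤ) (q v j : ℕ) : ℕ := ((QC a b c q v).eval (j : ℤ)).natAbs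

open Classical in
/-- **One thin set of primes for all quadratic polynomials, all classes and all short intervals.** -/
theorem quadC_thin (D : ℕ) :
    ∃ C : ℝ, 0 < C ∧ ∃ Q : Set ℕ, (∀ q ∈ Q, q.Prime) ∧
      (∀ x : ℕ, 2 ≤ x → {q ∈ Q | q ≤ x}.Finite ∧ ({q ∈ Q | q ≤ x}.ncard : ℝ) ≤ C * Real.log x ^ (D + 3)) ∧
      ∀ a b c : ℤ, 0 < a → (∀ q : ℕ, q.Prime → ¬ ((q : ℤ) ∣ a ∧ (q : ℤ) ∣ b ∧ (q : ℤ) ∣ c)) →
        ¬ ((2 : ℤ) ∣ a + b ∧ (2 : ℤ) ∣ c) → ¬ IsSquare (b ^ 2 - 4 * a * c) →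
        ∃ δ : ℝ, 0 < δ ∧ ∃ X₀ : ℕ, ∀ X : ℕ, X₀ ≤ X → ∀ q v A H : ℕ, 1 ≤ q → CC a b c q v → q * (A + H) + v ≤ X →
          (X : ℝ) ^ (3 / 4 : ℝ) ≤ H →
          δ * (H / Real.log X) ≤ (((Ioc A (A + H)).filter (fun j => (vl a b c q v j).Prime)).card : ℝ) ∨
          δ * (H / Real.log X) ≤ (((Ioc A (A + H)).filter (fun j => ∃ p₁ p₂ : ℕ, p₁.Prime ∧ p₂.Prime ∧ vl a b c q v j = p₁ * p₂ ∧
            H * Real.log X ^ D < p₁ ∧ H * Real.log X ^ D < p₂)).card : ℝ) ∨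
          ∃ q₁ ∈ Q, (X : ℝ) ^ (3 / 20 : ℝ) ≤ q₁ ∧ δ * (H / (q₁ * Real.log X)) ≤
            (((Ioc A (A + H)).filter (fun j => ∃ m : ℕ, 2 ≤ m ∧ vl a b c q v j = q₁ * m ∧ m.primeFactorsList.length ≤ 2 ∧
              ∀ p : ℕ, p.Prime → p ∣ m → q₁ ≤ p)).card : ℝ) := by
  obtain ⟨J, hJ⟩ : ∃ J : ℕ → (ℤ × ℤ × ℤ × ℕ × ℕ × ℕ × ℕ) → Finset ℕ, J = fun X t =>
    (GQ (QC t.1 t.2.1 t.2.2.1 t.2.2.2.1 t.2.2.2.2.1) 3 (3 / 4) X t.2.2.2.2.2.1 t.2.2.2.2.2.2).filter (fun j =>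
      ¬ (vl t.1 t.2.1 t.2.2.1 t.2.2.2.1 t.2.2.2.2.1 j).Prime ∧
      ((vl t.1 t.2.1 t.2.2.1 t.2.2.2.1 t.2.2.2.2.1 j).minFac : ℝ) ≤ t.2.2.2.2.2.2 * Real.log X ^ D) := ⟨_, rfl⟩
  obtain ⟨C, hC, Q, hQ, hQc, c', hc', X₁, hthin⟩ := thin_fam (D + 2) 14 7 (by norm_num) 1 one_pos boxQ 3 boxQ_card J
    (fun _ t j => (vl t.1 t.2.1 t.2.2.1 t.2.2.2.1 t.2.2.2.2.1 j).minFac)
    (fun X t => 4 * t.2.2.2.2.2.2 * Real.log X ^ D)
  refine ⟨C, hC, Q, hQ, hQc, ?_⟩
  intro a b c ha hg hp hD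
  obtain ⟨δ₀, hδ₀, X₂, hcount⟩ := quadC_count ha hg hp hD 3 (3 / 4) (by norm_num) (by norm_num) (by norm_num)
  obtain ⟨c₀, hc₀, hlow⟩ := quadC_low ha hg hp hD
  obtain ⟨X₃, hsize⟩ := QP_size a b c (9 / 4) (by norm_num)
  have ev1 : ∀ᶠ X : ℕ in atTop, (12 / (δ₀ * c₀) + 1 : ℝ) ≤ Real.log X :=
    (Real.tendsto_log_atTop.comp tendsto_natCast_atTop_atTop).eventually_ge_atTop _
  have ev2 : ∀ᶠ X : ℕ in atTop, Real.log X ^ D ≤ X := by
    have h1 := (isLittleO_log_rpow_rpow_atTop (D : ℝ) (one_pos (α := ℝ))).def (one_pos (α := ℝ))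
    have h2 := (tendsto_natCast_atTop_atTop (R := ℝ)).eventually h1
    filter_upwards [h2, eventually_ge_atTop 1] with X hX h1
    have hX1 : (1 : ℝ) ≤ X := by exact_mod_cast h1
    rw [Real.norm_of_nonneg (Real.rpow_nonneg (Real.log_nonneg hX1) _), Real.norm_of_nonneg (by positivity), one_mul, Real.rpow_one,
      Real.rpow_natCast] at hX
    exact hX
  obtain ⟨X₄, hX₄⟩ := eventually_atTop.1 (ev1.and ev2)
  obtain ⟨δ, hδ⟩ : ∃ δ, δ = min (δ₀ * c₀ / 3) (c' * (δ₀ * c₀ / 3)) := ⟨_, rfl⟩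
  have hδ0 : 0 < δ := by rw [hδ]; positivity
  have hδ1 : δ ≤ δ₀ * c₀ / 3 := by rw [hδ]; exact min_le_left _ _
  have hδ2 : δ ≤ c' * (δ₀ * c₀ / 3) := by rw [hδ]; exact min_le_right _ _
  refine ⟨δ, hδ0, max (max (max X₁ X₂) (max X₃ X₄)) (max (a.natAbs + b.natAbs + c.natAbs) 81), ?_⟩
  intro X hX q v A H hq hv hqX hH
  have hXa := (le_max_left _ _).trans hX
  have hXb := (le_max_right _ _).trans hX
  have x1 : X₁ ≤ X := ((le_max_left _ _).trans (le_max_left _ _)).trans hXa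
  have x2 : X₂ ≤ X := ((le_max_right _ _).trans (le_max_left _ _)).trans hXa
  have x3 : X₃ ≤ X := ((le_max_left _ _).trans (le_max_right _ _)).trans hXa
  obtain ⟨e1, e2⟩ := hX₄ X (((le_max_right _ _).trans (le_max_right _ _)).trans hXa)
  have x5 : a.natAbs + b.natAbs + c.natAbs ≤ X := (le_max_left _ _).trans hXb
  have x6 : 81 ≤ X := (le_max_right _ _).trans hXb
  have hXr : (81 : ℝ) ≤ X := by exact_mod_cast x6
  have hX0 : (0 : ℝ) < X := by linarith
  have hX1 : (1 : ℝ) ≤ X := by linarith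
  have hHX : H ≤ X := by nlinarith
  have hH3 : 3 ≤ H := by
    have h1 : (3 : ℝ) ≤ (X : ℝ) ^ (3 / 4 : ℝ) := by
      calc (3 : ℝ) ≤ 27 := by norm_num
        _ = (81 : ℝ) ^ (3 / 4 : ℝ) := by
            rw [show (81 : ℝ) = 3 ^ (4 : ℝ) by norm_num, ← Real.rpow_mul (by norm_num)]
            norm_num
        _ ≤ _ := Real.rpow_le_rpow (by norm_num) hXr (by norm_num)
    exact_mod_cast h1.trans hH
  have hH0 : (0 : ℝ) < H := by exact_mod_cast (by omega : 0 < H)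
  have hlX : 0 < Real.log X := Real.log_pos (by linarith)
  have hlX1 : 1 ≤ Real.log X := by
    have : 0 < 12 / (δ₀ * c₀) := by positivity
    linarith
  have hlD : 1 ≤ Real.log X ^ D := one_le_pow₀ hlX1
  have hlH : 0 < Real.log H := Real.log_pos (by exact_mod_cast (by omega : 1 < H))
  have hlHX : Real.log H ≤ Real.log X := Real.log_le_log hH0 (by exact_mod_cast hHX)
  obtain ⟨G, hG⟩ : ∃ G, G = GQ (QC a b c q v) 3 (3 / 4) X A H := ⟨_, rfl⟩
  -- the elements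
  have hGm : ∀ j ∈ G, j ∈ Ioc A (A + H) ∧ 2 ≤ vl a b c q v j ∧ (vl a b c q v j).primeFactorsList.length ≤ 3 ∧
      (∀ p : ℕ, p.Prime → p ∣ vl a b c q v j → (X : ℝ) ^ (3 / 20 : ℝ) ≤ p) ∧ ((vl a b c q v j : ℕ) : ℝ) ≤ (X : ℝ) ^ (9 / 4 : ℝ) := by
    intro j hj
    rw [hG] at hj
    unfold GQ GP at hj
    rw [mem_filter, mem_filter] at hj
    obtain ⟨⟨j1, j2, j3⟩, j4⟩ := hj
    refine ⟨j1, j4, j2, ?_, ?_⟩
    · intro p hp hpd
      have := j3 p hp (Int.natCast_dvd.2 hpd)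
      rwa [show (3 / 4 / 5 : ℝ) = 3 / 20 by norm_num] at this
    · unfold vl
      rw [QC_eval]
      apply hsize X x3
      rw [mem_Ioc] at j1
      have := Nat.mul_le_mul_left q j1.2
      omega
  -- the lower bound
  obtain ⟨Y, hY⟩ : ∃ Y, Y = δ₀ * c₀ * (H / Real.log X) := ⟨_, rfl⟩
  have hY0 : 0 < Y := by rw [hY]; positivity
  have hGc : Y ≤ (G.card : ℝ) := by
    have h1 := hcount X x2 q v A H hq hv hqX hH
    rw [← hG] at h1
    refine le_trans ?_ h1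
    have h2 := hlow H hH3 q v hv
    have h3 : c₀ / Real.log X ≤ VV (Zf (QC a b c q v)) 0 H :=
      le_trans (div_le_div_of_nonneg_left hc₀.le hlH hlHX) h2
    calc Y = δ₀ * (H * (c₀ / Real.log X)) := by rw [hY]; ring
      _ ≤ _ := mul_le_mul_of_nonneg_left (mul_le_mul_of_nonneg_left h3 hH0.le) hδ₀.le
  have hYδ : δ * (H / Real.log X) ≤ Y / 3 := by
    calc δ * (H / Real.log X) ≤ δ₀ * c₀ / 3 * (H / Real.log X) := mul_le_mul_of_nonneg_right hδ1 (by positivity)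
      _ = Y / 3 := by rw [hY]; ring
  -- three parts
  obtain ⟨G1, hG1⟩ : ∃ G1, G1 = G.filter (fun j => (vl a b c q v j).Prime) := ⟨_, rfl⟩
  obtain ⟨G2, hG2⟩ : ∃ G2, G2 = G.filter (fun j => ¬ (vl a b c q v j).Prime ∧ H * Real.log X ^ D < ((vl a b c q v j).minFac : ℝ)) := ⟨_, rfl⟩
  obtain ⟨G3, hG3⟩ : ∃ G3, G3 = G.filter (fun j => ¬ (vl a b c q v j).Prime ∧ ((vl a b c q v j).minFac : ℝ) ≤ H * Real.log X ^ D) := ⟨_, rfl⟩
  have hsum : (G.card : ℝ) ≤ G1.card + G2.card + G3.card := by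
    have h1 : G ⊆ (G1 ∪ G2) ∪ G3 := by
      intro j hj
      rw [mem_union, mem_union, hG1, hG2, hG3, mem_filter, mem_filter, mem_filter]
      by_cases h1 : (vl a b c q v j).Prime
      · exact Or.inl (Or.inl ⟨hj, h1⟩)
      · rcases lt_or_ge (H * Real.log X ^ D) ((vl a b c q v j).minFac : ℝ) with h2 | h2
        · exact Or.inl (Or.inr ⟨hj, h1, h2⟩)
        · exact Or.inr ⟨hj, h1, h2⟩
    have h2 := (card_le_card h1).trans ((card_union_le _ _).trans (Nat.add_le_add_right (card_union_le _ _) _))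
    exact_mod_cast h2
  by_cases c1 : Y / 3 ≤ (G1.card : ℝ)
  · left
    refine hYδ.trans (c1.trans ?_)
    apply Nat.cast_le.2
    apply card_le_card
    intro j hj
    rw [hG1, mem_filter] at hj
    rw [mem_filter]
    exact ⟨(hGm j hj.1).1, hj.2⟩
  by_cases c2 : Y / 3 ≤ (G2.card : ℝ)
  · right; left
    refine hYδ.trans (c2.trans ?_)
    apply Nat.cast_le.2
    apply card_le_card
    intro j hj
    rw [hG2, mem_filter] at hj
    rw [mem_filter]
    obtain ⟨j1, j2, j3, j4, j5⟩ := hGm j hj.1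
    refine ⟨j1, two_primes j2 hj.2.1 (by positivity) hj.2.2 (j5.trans ?_)⟩
    calc (X : ℝ) ^ (9 / 4 : ℝ) = ((X : ℝ) ^ (3 / 4 : ℝ)) ^ 3 := by
          rw [← Real.rpow_natCast, ← Real.rpow_mul hX0.le]
          norm_num
      _ ≤ ((H : ℝ) * Real.log X ^ D) ^ 3 := by
          apply pow_le_pow_left₀ (by positivity)
          calc (X : ℝ) ^ (3 / 4 : ℝ) ≤ H := hH
            _ = H * 1 := (mul_one _).symm
            _ ≤ _ := mul_le_mul_of_nonneg_left hlD hH0.le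
  · right; right
    push Not at c1 c2
    have c3 : Y / 3 ≤ (G3.card : ℝ) := by linarith
    obtain ⟨t, ht⟩ : ∃ t : ℤ × ℤ × ℤ × ℕ × ℕ × ℕ × ℕ, t = (a, b, c, q, v, A, H) := ⟨_, rfl⟩
    have hJt : J X t = G3 := by
      rw [hJ, ht, hG3, hG]
    have hqX' : q ≤ X := by nlinarith
    have hbox : t ∈ boxQ X := by
      rw [ht]
      unfold boxQ
      simp only [mem_product, mem_Icc, mem_range]
      have b1 : ((a.natAbs : ℕ) : ℤ) ≤ X := by exact_mod_cast (by omega : a.natAbs ≤ X)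
      have b2 : ((b.natAbs : ℕ) : ℤ) ≤ X := by exact_mod_cast (by omega : b.natAbs ≤ X)
      have b3 : ((c.natAbs : ℕ) : ℤ) ≤ X := by exact_mod_cast (by omega : c.natAbs ≤ X)
      have hAX : A ≤ X := by nlinarith
      refine ⟨?_, ?_, ?_, by omega, by omega, by omega, by omega⟩
      · omega
      · omega
      · omega
    have hsys := QC_sys hg hp hv
    have hmem : Mem 7 (J X t) (fun j => (vl t.1 t.2.1 t.2.2.1 t.2.2.2.1 t.2.2.2.2.1 j).minFac) (4 * t.2.2.2.2.2.2 * Real.log X ^ D) X := by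
      rw [hJt, ht]
      simp only
      have hG3m : ∀ j ∈ G3, j ∈ G ∧ ¬ (vl a b c q v j).Prime ∧ ((vl a b c q v j).minFac : ℝ) ≤ H * Real.log X ^ D := by
        intro j hj
        rw [hG3, mem_filter] at hj
        exact hj
      refine ⟨?_, ?_, ?_, by positivity, ?_⟩
      · intro j hj
        have := (hGm j (hG3m j hj).1).2.1
        exact Nat.minFac_prime (by omega)
      · intro j hj
        obtain ⟨j1, j2, j3, j4, j5⟩ := hGm j (hG3m j hj).1
        have h1 := j4 _ (Nat.minFac_prime (by omega)) (Nat.minFac_dvd _)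
        have h2 : (X : ℝ) ≤ ((vl a b c q v j).minFac : ℝ) ^ 7 := by
          calc (X : ℝ) = (X : ℝ) ^ (1 : ℝ) := (Real.rpow_one _).symm
            _ ≤ (X : ℝ) ^ (21 / 20 : ℝ) := Real.rpow_le_rpow_of_exponent_le hX1 (by norm_num)
            _ = ((X : ℝ) ^ (3 / 20 : ℝ)) ^ 7 := by
                rw [← Real.rpow_natCast, ← Real.rpow_mul hX0.le]
                norm_num
            _ ≤ _ := pow_le_pow_left₀ (by positivity) h1 7
        exact_mod_cast h2
      · intro j hj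
        have h1 := (hG3m j hj).2.2
        have h2 : ((vl a b c q v j).minFac : ℝ) ≤ (X : ℝ) ^ 7 := by
          calc ((vl a b c q v j).minFac : ℝ) ≤ H * Real.log X ^ D := h1
            _ ≤ X * X := mul_le_mul (by exact_mod_cast hHX) e2 (by positivity) hX0.le
            _ = (X : ℝ) ^ 2 := by ring
            _ ≤ (X : ℝ) ^ 7 := pow_le_pow_right₀ hX1 (by norm_num)
        exact_mod_cast h2
      · intro p hpp
        have hp0 : (0 : ℝ) < p := by exact_mod_cast hpp.pos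
        rcases (G3.filter (fun j => (vl a b c q v j).minFac = p)).eq_empty_or_nonempty with h0 | ⟨j, hj⟩
        · rw [h0, card_empty, Nat.cast_zero]
          positivity
        · rw [mem_filter] at hj
          have h4 := (hG3m j hj.1).2.2
          rw [hj.2] at h4
          have hsub : G3.filter (fun j => (vl a b c q v j).minFac = p) ⊆
              (Ioc A (A + H)).filter (fun n : ℕ => (p : ℤ) ∣ (QC a b c q v).eval (n : ℤ)) := by
            intro m hm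
            rw [mem_filter] at hm
            rw [mem_filter]
            refine ⟨(hGm m (hG3m m hm.1).1).1, ?_⟩
            rw [← hm.2, Int.natCast_dvd]
            exact Nat.minFac_dvd _
          have h5 : ((G3.filter (fun j => (vl a b c q v j).minFac = p)).card : ℝ) ≤
              (((Ioc A (A + H)).filter (fun n : ℕ => (p : ℤ) ∣ (QC a b c q v).eval (n : ℤ))).card : ℝ) := by
            exact_mod_cast card_le_card hsub
          refine h5.trans ((mult_int _ p A H hpp (hsys.card p hpp)).trans ?_)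
          rw [le_div_iff₀ hp0]
          have : 2 * ((H : ℝ) / p + 1) * p = 2 * H + 2 * p := by field_simp
          rw [this]
          have h6 : (H : ℝ) ≤ H * Real.log X ^ D := le_mul_of_one_le_right hH0.le hlD
          linarith
    obtain ⟨q₁, hq₁, hfib⟩ := hthin X x1 t hbox hmem (by
      rw [hJt, ht]
      simp only
      rw [le_div_iff₀ (by positivity)]
      refine le_trans ?_ c3
      rw [hY]
      have h1 : 12 / (δ₀ * c₀) ≤ Real.log X := by linarith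
      rw [div_le_iff₀ (by positivity)] at h1
      have h2 : 1 / Real.log X ^ (D + 2) * (4 * H * Real.log X ^ D) = 4 * H / Real.log X ^ 2 := by
        rw [pow_add]
        field_simp
      rw [h2]
      have h3 : 4 * H / Real.log X ^ 2 = (H / Real.log X) * (4 / Real.log X) := by
        field_simp
      rw [h3]
      have h4 : 4 / Real.log X ≤ δ₀ * c₀ / 3 := by
        rw [div_le_div_iff₀ hlX (by norm_num)]
        linarith
      calc (H / Real.log X) * (4 / Real.log X) ≤ (H / Real.log X) * (δ₀ * c₀ / 3) := mul_le_mul_of_nonneg_left h4 (by positivity)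
        _ = _ := by ring)
    rw [hJt, ht] at hfib
    simp only at hfib
    have hq0 : (0 : ℝ) < q₁ := by exact_mod_cast (hQ q₁ hq₁).pos
    have hpos : 0 < ((G3.filter (fun j => (vl a b c q v j).minFac = q₁)).card : ℝ) := by
      refine lt_of_lt_of_le ?_ hfib
      have : 0 < (G3.card : ℝ) := lt_of_lt_of_le (by positivity) c3
      positivity
    have hel : ∀ j ∈ G3.filter (fun j => (vl a b c q v j).minFac = q₁), j ∈ Ioc A (A + H) ∧ (X : ℝ) ^ (3 / 20 : ℝ) ≤ q₁ ∧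
        ∃ m : ℕ, 2 ≤ m ∧ vl a b c q v j = q₁ * m ∧ m.primeFactorsList.length ≤ 2 ∧ ∀ p : ℕ, p.Prime → p ∣ m → q₁ ≤ p := by
      intro j hj
      rw [mem_filter, hG3, mem_filter] at hj
      obtain ⟨⟨h1, h2, h3⟩, h4⟩ := hj
      obtain ⟨j1, j2, j3, j4, j5⟩ := hGm j h1
      refine ⟨j1, ?_, ?_⟩
      · rw [← h4]
        exact j4 _ (Nat.minFac_prime (by omega)) (Nat.minFac_dvd _)
      · obtain ⟨m, m1, m2, m3, m4⟩ := cofac j2 h2 (r := 2) j3
        rw [h4] at m2 m4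
        exact ⟨m, m1, m2, m3, m4⟩
    refine ⟨q₁, hq₁, ?_, ?_⟩
    · obtain ⟨j, hj⟩ := card_pos.1 (by exact_mod_cast hpos)
      exact (hel j hj).2.1
    · have h5 : ((G3.filter (fun j => (vl a b c q v j).minFac = q₁)).card : ℝ) ≤
          (((Ioc A (A + H)).filter (fun j => ∃ m : ℕ, 2 ≤ m ∧ vl a b c q v j = q₁ * m ∧ m.primeFactorsList.length ≤ 2 ∧
              ∀ p : ℕ, p.Prime → p ∣ m → q₁ ≤ p)).card : ℝ) := by
        apply Nat.cast_le.2
        apply card_le_card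
        intro j hj
        obtain ⟨j1, _, j2⟩ := hel j hj
        rw [mem_filter]
        exact ⟨j1, j2⟩
      refine le_trans ?_ (hfib.trans h5)
      calc δ * (H / (q₁ * Real.log X)) ≤ c' * (δ₀ * c₀ / 3) * (H / (q₁ * Real.log X)) :=
            mul_le_mul_of_nonneg_right hδ2 (by positivity)
        _ = c' * (Y / 3) / q₁ := by
            rw [hY]
            field_simp
        _ ≤ c' * (G3.card : ℝ) / q₁ := div_le_div_of_nonneg_right (mul_le_mul_of_nonneg_left c3 hc'.le) hq0.le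

end Pool.Agent.Q253.Cov
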