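import Pool.Agent.Q253.Cov.LinW
import Pool.Agent.Q253.Cov.Fam
import Pool.Agent.Q253.Cov.Fib
import Pool.Agent.Q253.Cov.QuadT

/-!
# One thin set of prime factors for all arithmetic progressions and all short intervals
-/

set_option autoImplicit false

namespace Pool.Agent.Q253.Cov

open Finset Filter
open Pool.Agent.Y843.HS (Pr VV Pr_mem Pr_prime)
open Pool.Agent.Q253.Thin (SysZ VZ_nonneg VZ_low)
open Pool.Agent.Q253.P3 (rl Zl Zl_card mem_Zl)

/-- the box of the parameters -/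
def boxL (X : ℕ) : Finset (ℕ × ℕ × ℕ × ℕ) := (range (X + 1)) ×ˢ (range (X + 1)) ×ˢ (range (X + 1)) ×ˢ (range (X + 1))

theorem boxL_card (X : ℕ) (hX : 3 ≤ X) : (boxL X).card ≤ X ^ 8 := by
  unfold boxL
  simp only [card_product, card_range]
  have h5 : X + 1 ≤ X ^ 2 := by nlinarith
  calc (X + 1) * ((X + 1) * ((X + 1) * (X + 1))) ≤ X ^ 2 * (X ^ 2 * (X ^ 2 * X ^ 2)) := by gcongr
    _ = X ^ 8 := by ring

/-- `N` is `q` times a number `n ≥ 2` with at most `s` prime factors, all `≥ q` -/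
def Tms (q s N : ℕ) : Prop := ∃ n : ℕ, 2 ≤ n ∧ N = q * n ∧ n.primeFactorsList.length ≤ s ∧ ∀ p : ℕ, p.Prime → p ∣ n → q ≤ p

open Classical in
/-- the primes `q` of `[z, y]` for which at least `δ N / q` of the `j` have `m j + a` equal to `q` times an almost prime -/
noncomputable def RichL (δ N z y : ℝ) (s m a A H : ℕ) : Finset ℕ :=
  (Icc 1 (m * (A + H) + a)).filter (fun q => q.Prime ∧ z ≤ q ∧ (q : ℝ) ≤ y ∧
    δ * (N / q) ≤ (((Ioc A (A + H)).filter (fun j => Tms q s (m * j + a))).card : ℝ))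

open Classical in
/-- **One thin set of prime factors for all progressions and short intervals.** -/
theorem lin_thin (r : ℕ) (h : ℝ) (hh1 : h ≤ 1) (hr3 : 1 ≤ r) (hr : 25 < 3 * (8 * (r + 1 : ℕ) - 1) * h) (η : ℝ) (hη : 0 < η) :
    ∃ C : ℝ, 0 < C ∧ ∃ δ : ℝ, 0 < δ ∧ ∃ ρ : ℝ, 0 < ρ ∧ ∃ Q : Set ℕ, (∀ q ∈ Q, q.Prime) ∧
      (∀ x : ℕ, 2 ≤ x → {q ∈ Q | q ≤ x}.Finite ∧ ({q ∈ Q | q ≤ x}.ncard : ℝ) ≤ C * Real.log x) ∧
      ∃ X₀ : ℕ, ∀ X : ℕ, X₀ ≤ X → ∀ m a A H : ℕ, 1 ≤ m → Nat.Coprime a m → m * (A + H) + a ≤ X → (X : ℝ) ^ h ≤ H →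
        δ * (H * VV (Zl m a) 0 H) ≤ (((Ioc A (A + H)).filter (fun j => (m * j + a).Prime)).card : ℝ) ∨
        δ * (H * VV (Zl m a) 0 H) ≤ (((Ioc A (A + H)).filter (fun j => 2 ≤ m * j + a ∧ ¬ (m * j + a).Prime ∧
          (m * j + a).primeFactorsList.length ≤ r + 1 ∧
          ∀ p : ℕ, p.Prime → p ∣ m * j + a → H * (X : ℝ) ^ (-η) < p)).card : ℝ) ∨
        (ρ ≤ ∑ q ∈ RichL δ (H * VV (Zl m a) 0 H) ((X : ℝ) ^ (h / 5)) (H * (X : ℝ) ^ (-η)) r m a A H, (1 : ℝ) / q ∧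
          ∃ q ∈ RichL δ (H * VV (Zl m a) 0 H) ((X : ℝ) ^ (h / 5)) (H * (X : ℝ) ^ (-η)) r m a A H, q ∈ Q) := by
  have hh0 : 0 < h := by
    by_contra hcon
    push Not at hcon
    have h1 : (1 : ℝ) ≤ ((r + 1 : ℕ) : ℝ) := by exact_mod_cast (by omega : 1 ≤ r + 1)
    nlinarith
  obtain ⟨δ₀, hδ₀, X₂, hcount⟩ := lin_count (r + 1) h hh1 (by omega) hr
  obtain ⟨E, hE⟩ : ∃ E : ℕ, E = ⌈5 / h⌉₊ + ⌈1 / η⌉₊ + 1 := ⟨_, rfl⟩
  have hE1 : 1 ≤ E := by omega
  have hE0 : (0 : ℝ) < E := by exact_mod_cast hE1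
  have hEh : 1 / (E : ℝ) < h / 5 := by
    rw [div_lt_div_iff₀ hE0 (by norm_num), one_mul]
    have h1 : 5 / h ≤ ⌈5 / h⌉₊ := Nat.le_ceil _
    have h2 : 5 / h < E := by
      rw [hE]
      push_cast
      have : (0 : ℝ) ≤ (⌈1 / η⌉₊ : ℝ) := Nat.cast_nonneg _
      linarith
    rw [div_lt_iff₀ hh0] at h2
    linarith
  have hEη : 1 / (E : ℝ) ≤ η := by
    rw [div_le_iff₀ hE0]
    have h1 : 1 / η ≤ ⌈1 / η⌉₊ := Nat.le_ceil _
    have h2 : 1 / η ≤ E := by
      rw [hE]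
      push_cast
      have : (0 : ℝ) ≤ (⌈5 / h⌉₊ : ℝ) := Nat.cast_nonneg _
      linarith
    rw [div_le_iff₀ hη] at h2
    linarith
  obtain ⟨Cu, hCu, R, hup⟩ := cls_upper 1 E le_rfl hE1
  obtain ⟨e, he⟩ : ∃ e : ℕ, e = ⌈5 / h⌉₊ + 1 := ⟨_, rfl⟩
  have he1 : 1 ≤ e := by omega
  have heh : 1 ≤ h / 5 * e := by
    have h1 : 5 / h ≤ ⌈5 / h⌉₊ := Nat.le_ceil _
    have h2 : 5 / h ≤ e := by
      rw [he]
      push_cast
      linarith
    rw [div_le_iff₀ hh0] at h2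
    linarith
  obtain ⟨J, hJ⟩ : ∃ J : ℕ → (ℕ × ℕ × ℕ × ℕ) → Finset ℕ, J = fun (X : ℕ) (t : ℕ × ℕ × ℕ × ℕ) =>
    (GLn (r + 1) ((X : ℝ) ^ (h / 5)) t.1 t.2.1 t.2.2.1 t.2.2.2).filter (fun j =>
      ¬ (t.1 * j + t.2.1).Prime ∧ ((t.1 * j + t.2.1).minFac : ℝ) ≤ t.2.2.2 * (X : ℝ) ^ (-η)) := ⟨_, rfl⟩
  obtain ⟨K, hK⟩ : ∃ K : ℕ → (ℕ × ℕ × ℕ × ℕ) → ℝ, K = fun (_ : ℕ) (t : ℕ × ℕ × ℕ × ℕ) => Cu * (t.2.2.2 * VV (Zl t.1 t.2.1) 0 t.2.2.2) := ⟨_, rfl⟩
  obtain ⟨C, hC, Q, hQ, hQc, c', hc', X₁, hthin⟩ := thin_fam 0 8 e he1 (δ₀ / 3 / Cu) (by positivity) boxL 3 boxL_card J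
    (fun _ t j => (t.1 * j + t.2.1).minFac) K
  obtain ⟨M, hM, Z₀, hmert⟩ := mertE e he1
  have ev1 : ∀ᶠ X : ℕ in atTop, (max R 3 : ℕ) + 1 ≤ (X : ℝ) ^ (h / E) :=
    ((tendsto_rpow_atTop (by positivity)).comp tendsto_natCast_atTop_atTop).eventually_ge_atTop _
  obtain ⟨X₄, hX₄⟩ := eventually_atTop.1 ev1
  obtain ⟨δ, hδ⟩ : ∃ δ, δ = min (δ₀ / 3) (min (c' * (δ₀ / 3)) (1 / (2 * M) * (δ₀ / 3))) := ⟨_, rfl⟩
  have hδ0 : 0 < δ := by rw [hδ]; positivity
  have hδ1 : δ ≤ δ₀ / 3 := by rw [hδ]; exact min_le_left _ _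
  have hδ2 : δ ≤ c' * (δ₀ / 3) := by rw [hδ]; exact (min_le_right _ _).trans (min_le_left _ _)
  have hδ3 : δ ≤ 1 / (2 * M) * (δ₀ / 3) := by rw [hδ]; exact (min_le_right _ _).trans (min_le_right _ _)
  refine ⟨C, hC, δ, hδ0, δ₀ / 3 / Cu / 2, by positivity, Q, hQ, ?_, max (max (max X₁ X₂) X₄) (max Z₀ 3), ?_⟩
  · intro x hx
    have := hQc x hx
    rwa [zero_add, pow_one] at this
  intro X hX m a A H hm ham hmX hH
  have hXa := (le_max_left _ _).trans hX
  have x1 : X₁ ≤ X := ((le_max_left _ _).trans (le_max_left _ _)).trans hXa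
  have x2 : X₂ ≤ X := ((le_max_right _ _).trans (le_max_left _ _)).trans hXa
  have e1 := hX₄ X ((le_max_right _ _).trans hXa)
  have xZ : Z₀ ≤ X := ((le_max_left _ _).trans (le_max_right _ _)).trans hX
  have x6 : 3 ≤ X := ((le_max_right _ _).trans (le_max_right _ _)).trans hX
  have hXr : (3 : ℝ) ≤ X := by exact_mod_cast x6
  have hX0 : (0 : ℝ) < X := by linarith
  have hX1 : (1 : ℝ) ≤ X := by linarith
  have hHX : H ≤ X := by nlinarith
  have hHXr : (H : ℝ) ≤ X := by exact_mod_cast hHX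
  have hH0r : (0 : ℝ) ≤ H := Nat.cast_nonneg H
  -- the power of H
  have hw : ((max R 3 : ℕ) : ℝ) + 1 ≤ (H : ℝ) ^ (1 / (E : ℝ)) := by
    refine e1.trans ?_
    calc (X : ℝ) ^ (h / E) = ((X : ℝ) ^ h) ^ (1 / (E : ℝ)) := by
          rw [← Real.rpow_mul hX0.le]
          congr 1
          ring
      _ ≤ _ := Real.rpow_le_rpow (by positivity) hH (by positivity)
  have hwR : (R : ℝ) ≤ (H : ℝ) ^ (1 / (E : ℝ)) := by
    have : (R : ℝ) ≤ ((max R 3 : ℕ) : ℝ) := by exact_mod_cast le_max_left R 3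
    linarith
  have hw3 : (3 : ℝ) ≤ (H : ℝ) ^ (1 / (E : ℝ)) := by
    have : ((3 : ℕ) : ℝ) ≤ ((max R 3 : ℕ) : ℝ) := by exact_mod_cast le_max_right R 3
    push_cast at this
    push_cast at hw
    linarith
  have hH3 : 3 ≤ H := by
    have h1 : (H : ℝ) ^ (1 / (E : ℝ)) ≤ max 1 (H : ℝ) := by
      rcases Nat.eq_zero_or_pos H with h0 | h0
      · rw [h0]
        simp only [Nat.cast_zero]
        rw [Real.zero_rpow (by positivity)]
        simp
      · have hH1 : (1 : ℝ) ≤ H := by exact_mod_cast h0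
        rw [max_eq_right hH1]
        calc (H : ℝ) ^ (1 / (E : ℝ)) ≤ (H : ℝ) ^ (1 : ℝ) := by
              apply Real.rpow_le_rpow_of_exponent_le hH1
              rw [div_le_iff₀ hE0, one_mul]
              exact_mod_cast hE1
          _ = H := Real.rpow_one _
    rcases le_max_iff.1 (hw3.trans h1) with h2 | h2
    · norm_num at h2
    · exact_mod_cast h2
  have hH0 : (0 : ℝ) < H := by exact_mod_cast (by omega : 0 < H)
  have hwX : (H : ℝ) ^ (1 / (E : ℝ)) < (X : ℝ) ^ (h / 5) := by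
    calc (H : ℝ) ^ (1 / (E : ℝ)) ≤ (X : ℝ) ^ (1 / (E : ℝ)) := Real.rpow_le_rpow hH0.le hHXr (by positivity)
      _ < _ := Real.rpow_lt_rpow_of_exponent_lt (by linarith) hEh
  have hwη : (X : ℝ) ^ (-η) * (H : ℝ) ^ (1 / (E : ℝ)) ≤ 1 := by
    have h1 : (H : ℝ) ^ (1 / (E : ℝ)) ≤ (X : ℝ) ^ η := by
      calc (H : ℝ) ^ (1 / (E : ℝ)) ≤ (X : ℝ) ^ (1 / (E : ℝ)) := Real.rpow_le_rpow hH0.le hHXr (by positivity)
        _ ≤ _ := Real.rpow_le_rpow_of_exponent_le hX1 hEη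
    calc (X : ℝ) ^ (-η) * (H : ℝ) ^ (1 / (E : ℝ)) ≤ (X : ℝ) ^ (-η) * (X : ℝ) ^ η := mul_le_mul_of_nonneg_left h1 (by positivity)
      _ = 1 := by
          rw [← Real.rpow_add hX0]
          simp
  have hsys := Zl_sys ham
  obtain ⟨G, hG⟩ : ∃ G, G = GLn (r + 1) ((X : ℝ) ^ (h / 5)) m a A H := ⟨_, rfl⟩
  have hGm : ∀ j ∈ G, j ∈ Ioc A (A + H) ∧ 2 ≤ m * j + a ∧ (m * j + a).primeFactorsList.length ≤ r + 1 ∧
      (∀ p : ℕ, p.Prime → p ∣ m * j + a → (X : ℝ) ^ (h / 5) ≤ p) := by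
    intro j hj
    rw [hG] at hj
    unfold GLn at hj
    rw [mem_filter] at hj
    exact hj
  obtain ⟨Y, hY⟩ : ∃ Y, Y = (H : ℝ) * VV (Zl m a) 0 H := ⟨_, rfl⟩
  have hY0 : 0 < Y := by
    obtain ⟨cV, hcV, hlow⟩ := VZ_low 1 le_rfl
    have h1 := hlow H (by omega) _ hsys
    have h2 : 0 < Real.log H := Real.log_pos (by exact_mod_cast (by omega : 1 < H))
    rw [hY]
    apply mul_pos hH0
    exact lt_of_lt_of_le (by positivity) h1
  have hGc : δ₀ * Y ≤ (G.card : ℝ) := by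
    have h1 := hcount X x2 m a A H hm ham hmX hH
    rw [← hG, ← hY] at h1
    exact h1
  rw [← hY]
  -- three parts
  obtain ⟨y, hy⟩ : ∃ y, y = (H : ℝ) * (X : ℝ) ^ (-η) := ⟨_, rfl⟩
  rw [← hy]
  obtain ⟨G1, hG1⟩ : ∃ G1, G1 = G.filter (fun j => (m * j + a).Prime) := ⟨_, rfl⟩
  obtain ⟨G2, hG2⟩ : ∃ G2, G2 = G.filter (fun j => ¬ (m * j + a).Prime ∧ y < ((m * j + a).minFac : ℝ)) := ⟨_, rfl⟩
  obtain ⟨G3, hG3⟩ : ∃ G3, G3 = G.filter (fun j => ¬ (m * j + a).Prime ∧ ((m * j + a).minFac : ℝ) ≤ y) := ⟨_, rfl⟩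
  have hsum : (G.card : ℝ) ≤ G1.card + G2.card + G3.card := by
    have h1 : G ⊆ (G1 ∪ G2) ∪ G3 := by
      intro j hj
      rw [mem_union, mem_union, hG1, hG2, hG3, mem_filter, mem_filter, mem_filter]
      by_cases h1 : (m * j + a).Prime
      · exact Or.inl (Or.inl ⟨hj, h1⟩)
      · rcases lt_or_ge y ((m * j + a).minFac : ℝ) with h2 | h2
        · exact Or.inl (Or.inr ⟨hj, h1, h2⟩)
        · exact Or.inr ⟨hj, h1, h2⟩
    have h2 := (card_le_card h1).trans ((card_union_le _ _).trans (Nat.add_le_add_right (card_union_le _ _) _))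
    exact_mod_cast h2
  have hYδ : δ * Y ≤ δ₀ / 3 * Y := mul_le_mul_of_nonneg_right hδ1 hY0.le
  by_cases c1 : δ₀ / 3 * Y ≤ (G1.card : ℝ)
  · left
    refine hYδ.trans (c1.trans ?_)
    apply Nat.cast_le.2
    apply card_le_card
    intro j hj
    rw [hG1, mem_filter] at hj
    rw [mem_filter]
    exact ⟨(hGm j hj.1).1, hj.2⟩
  by_cases c2 : δ₀ / 3 * Y ≤ (G2.card : ℝ)
  · right; left
    refine hYδ.trans (c2.trans ?_)
    apply Nat.cast_le.2
    apply card_le_card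
    intro j hj
    rw [hG2, mem_filter] at hj
    rw [mem_filter]
    obtain ⟨j1, j2, j3, j4⟩ := hGm j hj.1
    refine ⟨j1, j2, hj.2.1, j3, ?_⟩
    intro p hp hpd
    have h1 : (m * j + a).minFac ≤ p := Nat.minFac_le_of_dvd hp.two_le hpd
    exact lt_of_lt_of_le hj.2.2 (by exact_mod_cast h1)
  · right; right
    push Not at c1 c2
    have c3 : δ₀ / 3 * Y ≤ (G3.card : ℝ) := by linarith
    have hG3m : ∀ j ∈ G3, j ∈ G ∧ ¬ (m * j + a).Prime ∧ ((m * j + a).minFac : ℝ) ≤ y := by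
      intro j hj
      rw [hG3, mem_filter] at hj
      exact hj
    obtain ⟨t, ht⟩ : ∃ t : ℕ × ℕ × ℕ × ℕ, t = (m, a, A, H) := ⟨_, rfl⟩
    have hJt : J X t = G3 := by
      rw [hJ, ht, hG3, hG, hy]
    have hKt : K X t = Cu * Y := by
      rw [hK, ht, hY]
    have hbox : t ∈ boxL X := by
      rw [ht]
      unfold boxL
      simp only [mem_product, mem_range]
      have hmX' : m ≤ X := by nlinarith
      have haX : a ≤ X := by omega
      have hAX : A ≤ X := by nlinarith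
      exact ⟨by omega, by omega, by omega, by omega⟩
    -- the fibres
    have hfib : ∀ q : ℕ, q.Prime → ((G3.filter (fun j => (m * j + a).minFac = q)).card : ℝ) ≤ Cu * Y / q := by
      intro q hq
      have hq0 : (0 : ℝ) < q := by exact_mod_cast hq.pos
      rcases (G3.filter (fun j => (m * j + a).minFac = q)).eq_empty_or_nonempty with h0 | ⟨j₁, hj₁⟩
      · rw [h0, card_empty, Nat.cast_zero]
        positivity
      · have hel : ∀ j ∈ G3.filter (fun j => (m * j + a).minFac = q), j ∈ Ioc A (A + H) ∧ q ∣ m * j + a ∧ (X : ℝ) ^ (h / 5) ≤ q ∧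
            (q : ℝ) ≤ y ∧ ∀ p : ℕ, p.Prime → (p : ℝ) < (X : ℝ) ^ (h / 5) → j % p ∉ Zl m a p := by
          intro j hj
          rw [mem_filter] at hj
          obtain ⟨k1, k2, k3⟩ := hG3m j hj.1
          obtain ⟨j1, j2, j3, j4⟩ := hGm j k1
          have hd : q ∣ m * j + a := by rw [← hj.2]; exact Nat.minFac_dvd _
          refine ⟨j1, hd, j4 q hq hd, by rw [← hj.2]; exact k3, ?_⟩
          intro p hp hpX hmem
          rw [mem_Zl hp] at hmem
          have := j4 p hp hmem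
          linarith
        obtain ⟨a1, a2, a3, a4, -⟩ := hel j₁ hj₁
        have hqm : ¬ q ∣ m := by
          intro hd
          have h1 : q ∣ a := (Nat.dvd_add_right (hd.mul_right j₁)).1 a2
          have h2 := Nat.dvd_gcd h1 hd
          rw [ham] at h2
          exact hq.one_lt.ne' (Nat.dvd_one.1 h2)
        have h1 := hup H hwR (Zl m a) hsys A q j₁ ((X : ℝ) ^ (h / 5)) hq hwX a3 (by
          calc (q : ℝ) * (H : ℝ) ^ (1 / (E : ℝ)) ≤ y * (H : ℝ) ^ (1 / (E : ℝ)) := mul_le_mul_of_nonneg_right a4 (by positivity)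
            _ = H * ((X : ℝ) ^ (-η) * (H : ℝ) ^ (1 / (E : ℝ))) := by rw [hy]; ring
            _ ≤ H * 1 := mul_le_mul_of_nonneg_left hwη hH0.le
            _ = H := mul_one _)
        have h2 : ((G3.filter (fun j => (m * j + a).minFac = q)).card : ℝ) ≤
            (((Ioc A (A + H)).filter (fun j => j ≡ j₁ [MOD q] ∧ ∀ p : ℕ, p.Prime → (p : ℝ) < (X : ℝ) ^ (h / 5) → j % p ∉ Zl m a p)).card : ℝ) := by
          apply Nat.cast_le.2
          apply card_le_card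
          intro j hj
          obtain ⟨b1, b2, b3, b4, b5⟩ := hel j hj
          rw [mem_filter]
          refine ⟨b1, ?_, b5⟩
          have h3 : m * j + a ≡ m * j₁ + a [MOD q] :=
            ((Nat.modEq_zero_iff_dvd).2 b2).trans ((Nat.modEq_zero_iff_dvd).2 a2).symm
          exact Nat.ModEq.cancel_left_of_coprime (by
            rw [Nat.gcd_comm]
            exact ((Nat.Prime.coprime_iff_not_dvd hq).2 hqm).symm) (Nat.ModEq.add_right_cancel' a h3)
        refine h2.trans (h1.trans (le_of_eq ?_))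
        rw [hY]
        ring
    have hmem : Mem e (J X t) (fun j => (t.1 * j + t.2.1).minFac) (K X t) X := by
      rw [hJt, hKt, ht]
      simp only
      refine ⟨?_, ?_, ?_, by positivity, hfib⟩
      · intro j hj
        have := (hGm j (hG3m j hj).1).2.1
        exact Nat.minFac_prime (by omega)
      · intro j hj
        obtain ⟨j1, j2, j3, j4⟩ := hGm j (hG3m j hj).1
        have h1 := j4 _ (Nat.minFac_prime (by omega)) (Nat.minFac_dvd _)
        have h2 : (X : ℝ) ≤ ((m * j + a).minFac : ℝ) ^ e := by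
          calc (X : ℝ) = (X : ℝ) ^ (1 : ℝ) := (Real.rpow_one _).symm
            _ ≤ (X : ℝ) ^ (h / 5 * e) := Real.rpow_le_rpow_of_exponent_le hX1 heh
            _ = ((X : ℝ) ^ (h / 5)) ^ e := by
                rw [← Real.rpow_natCast, ← Real.rpow_mul hX0.le]
            _ ≤ _ := pow_le_pow_left₀ (by positivity) h1 e
        exact_mod_cast h2
      · intro j hj
        have j1 := (hGm j (hG3m j hj).1).1
        rw [mem_Ioc] at j1
        have h1 : (m * j + a).minFac ≤ m * j + a := Nat.minFac_le (by have := (hGm j (hG3m j hj).1).2.1; omega)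
        have h2 : m * j + a ≤ X := by
          have := Nat.mul_le_mul_left m j1.2
          omega
        exact (h1.trans h2).trans (Nat.le_self_pow (by omega) X)
    -- the elements of the fibres
    have hcof : ∀ q : ℕ, G3.filter (fun j => (m * j + a).minFac = q) ⊆ (Ioc A (A + H)).filter (fun j => Tms q r (m * j + a)) := by
      intro q j hj
      rw [mem_filter] at hj
      obtain ⟨k1, k2, k3⟩ := hG3m j hj.1
      obtain ⟨j1, j2, j3, j4⟩ := hGm j k1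
      rw [mem_filter]
      refine ⟨j1, ?_⟩
      obtain ⟨n, n1, n2, n3, n4⟩ := cofac j2 k2 (r := r) j3
      rw [hj.2] at n2 n4
      exact ⟨n, n1, n2, n3, n4⟩
    have hrichmem : ∀ q : ℕ, q.Prime → δ * (Y / q) ≤ ((G3.filter (fun j => (m * j + a).minFac = q)).card : ℝ) →
        q ∈ RichL δ Y ((X : ℝ) ^ (h / 5)) y r m a A H := by
      intro q hq hle
      have hq0 : (0 : ℝ) < q := by exact_mod_cast hq.pos
      have hpos : 0 < ((G3.filter (fun j => (m * j + a).minFac = q)).card : ℝ) := lt_of_lt_of_le (by positivity) hle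
      obtain ⟨j, hj⟩ := card_pos.1 (by exact_mod_cast hpos)
      rw [mem_filter] at hj
      obtain ⟨k1, k2, k3⟩ := hG3m j hj.1
      obtain ⟨j1, j2, j3, j4⟩ := hGm j k1
      have hd : q ∣ m * j + a := by rw [← hj.2]; exact Nat.minFac_dvd _
      unfold RichL
      rw [mem_filter, mem_Icc]
      rw [mem_Ioc] at j1
      refine ⟨⟨hq.one_le, ?_⟩, hq, j4 q hq hd, by rw [← hj.2]; exact k3, hle.trans ?_⟩
      · have h1 := Nat.le_of_dvd (by omega) hd
        have := Nat.mul_le_mul_left m j1.2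
        omega
      · exact_mod_cast card_le_card (hcof q)
    constructor
    · -- the measure
      have hr1 := rich G3 (Om e X) (fun j => (m * j + a).minFac) (Cu * Y) M (by positivity) hM
        (fun q hq => (mem_Om.1 hq).1.pos) (hmert X xZ) (fun j hj => by
          have hm1 := hmem.prime j (by rw [hJt]; exact hj)
          have hm2 := hmem.low j (by rw [hJt]; exact hj)
          have hm3 := hmem.up j (by rw [hJt]; exact hj)
          rw [ht] at hm1 hm2 hm3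
          rw [mem_Om]
          exact ⟨hm1, hm2, hm3⟩) (fun q hq => hfib q (mem_Om.1 hq).1)
      have h1 : δ₀ / 3 / Cu / 2 ≤ (G3.card : ℝ) / (2 * (Cu * Y)) := by
        rw [le_div_iff₀ (by positivity)]
        calc δ₀ / 3 / Cu / 2 * (2 * (Cu * Y)) = δ₀ / 3 * Y := by field_simp
          _ ≤ _ := c3
      refine h1.trans (hr1.trans ?_)
      apply sum_le_sum_of_subset_of_nonneg
      · intro q hq
        rw [mem_filter] at hq
        have hqp := (mem_Om.1 hq.1).1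
        have hq0 : (0 : ℝ) < q := by exact_mod_cast hqp.pos
        apply hrichmem q hqp
        refine le_trans ?_ hq.2
        calc δ * (Y / q) ≤ 1 / (2 * M) * (δ₀ / 3) * (Y / q) := mul_le_mul_of_nonneg_right hδ3 (by positivity)
          _ = δ₀ / 3 * Y / (2 * M * q) := by
              field_simp
          _ ≤ _ := div_le_div_of_nonneg_right c3 (by positivity)
      · intro q _ _
        positivity
    · obtain ⟨q₁, hq₁, hfib1⟩ := hthin X x1 t hbox hmem (by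
        rw [hJt, hKt, pow_zero, div_one, le_div_iff₀ (by positivity)]
        calc δ₀ / 3 / Cu * (Cu * Y) = δ₀ / 3 * Y := by field_simp
          _ ≤ _ := c3)
      rw [hJt, ht] at hfib1
      simp only at hfib1
      refine ⟨q₁, ?_, hq₁⟩
      have hq0 : (0 : ℝ) < q₁ := by exact_mod_cast (hQ q₁ hq₁).pos
      apply hrichmem q₁ (hQ q₁ hq₁)
      refine le_trans ?_ hfib1
      calc δ * (Y / q₁) ≤ c' * (δ₀ / 3) * (Y / q₁) := mul_le_mul_of_nonneg_right hδ2 (by positivity)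
        _ = c' * (δ₀ / 3 * Y) / q₁ := by ring
        _ ≤ _ := div_le_div_of_nonneg_right (mul_le_mul_of_nonneg_left c3 hc'.le) hq0.le

end Pool.Agent.Q253.Cov
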