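import Pool.Agent.Q253.Cov.PolyU
import Pool.Agent.Q253.Cov.QuadF

/-!
# Almost prime values of quadratic polynomials in all residue classes and all short intervals
-/

set_option autoImplicit false

namespace Pool.Agent.Q253.Cov

open Finset Filter Polynomial
open Pool.Agent.W23.DC (pr tt Mer)
open Pool.Agent.Y882 (PZ tt_lt prod_inj)
open Pool.Agent.Y882.PX
open Pool.Agent.Y843.HS (Pr VV Pr_mem Pr_prime)
open Pool.Agent.Q253.Thin (SysZ VZ_nonneg VZ_low)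
open Pool.Agent.H475R2.BH (rz rho_eq_rz)
open Pool.Agent.Q253.P3 (card_class)

/-- the squares of one prime -/
theorem QP_sq1 {a b c : ℤ} (q : ℕ) (hq : q.Prime) (hqa : ¬ (q : ℤ) ∣ a) (hqD : ¬ (q : ℤ) ∣ b ^ 2 - 4 * a * c) (A H : ℕ) :
      ((((Ioc A (A + H)).filter (fun n : ℕ => ((q ^ 2 : ℕ) : ℤ) ∣ (QP a b c).eval (n : ℤ))).card : ℝ)) ≤ (2 : ℕ) * (H / (q : ℝ) ^ 2 + 1) := by
  classical
  have hqz : Prime (q : ℤ) := Nat.prime_iff_prime_int.1 hq
  have hm : 0 < q ^ 2 := pow_pos hq.pos 2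
  have hq1 : (q : ℤ) ∣ ((q ^ 2 : ℕ) : ℤ) := by
    push_cast
    exact dvd_pow_self _ (by norm_num)
  obtain ⟨E, hE⟩ : ∃ E, E = (Ioc A (A + H)).filter (fun n : ℕ => ((q ^ 2 : ℕ) : ℤ) ∣ (QP a b c).eval (n : ℤ)) := ⟨_, rfl⟩
  rw [← hE]
  have hEm : ∀ n ∈ E, n ∈ Ioc A (A + H) ∧ ((q ^ 2 : ℕ) : ℤ) ∣ a * (n : ℤ) ^ 2 + b * n + c := by
    intro n hn
    rw [hE, mem_filter, QP_eval] at hn
    exact hn
  -- one class
  have hclass : ∀ E' ⊆ E, (∀ x ∈ E', ∀ y ∈ E', ((q ^ 2 : ℕ) : ℤ) ∣ (x : ℤ) - y) → (E'.card : ℝ) ≤ H / (q : ℝ) ^ 2 + 1 := by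
    intro E' hE' hcl
    rcases E'.eq_empty_or_nonempty with h | ⟨x, hx⟩
    · rw [h, card_empty, Nat.cast_zero]
      positivity
    · have h1 := (abs_le.1 (card_class A H (q ^ 2) x hm)).2
      have h2 : (E'.card : ℝ) ≤ (((Ioc A (A + H)).filter (fun j => j ≡ x [MOD q ^ 2])).card : ℝ) := by
        apply Nat.cast_le.2
        apply card_le_card
        intro y hy
        rw [mem_filter]
        refine ⟨(hEm y (hE' hy)).1, ?_⟩
        exact (Nat.modEq_iff_dvd.2 (hcl x hx y hy))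
      push_cast at h1
      linarith
  rcases E.eq_empty_or_nonempty with h | ⟨n0, hn0⟩
  · rw [h, card_empty, Nat.cast_zero]
    positivity
  obtain ⟨-, hn0'⟩ := hEm n0 hn0
  have hdich : ∀ n ∈ E, ((q ^ 2 : ℕ) : ℤ) ∣ (n : ℤ) - n0 ∨ ((q ^ 2 : ℕ) : ℤ) ∣ a * ((n : ℤ) + n0) + b := by
    intro n hn
    obtain ⟨-, hn'⟩ := hEm n hn
    have h3 : ((q ^ 2 : ℕ) : ℤ) ∣ ((n : ℤ) - n0) * (a * ((n : ℤ) + n0) + b) := by
      have := dvd_sub hn' hn0'
      have e : a * (n : ℤ) ^ 2 + b * n + c - (a * (n0 : ℤ) ^ 2 + b * n0 + c) = ((n : ℤ) - n0) * (a * ((n : ℤ) + n0) + b) := by ring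
      rwa [e] at this
    by_cases h4 : (q : ℤ) ∣ (n : ℤ) - n0
    · left
      have h5 : ¬ (q : ℤ) ∣ a * ((n : ℤ) + n0) + b := by
        intro h6
        have h7 : (q : ℤ) ∣ 2 * a * n0 + b := by
          have := dvd_sub h6 (h4.mul_left a)
          have e : a * ((n : ℤ) + n0) + b - a * ((n : ℤ) - n0) = 2 * a * n0 + b := by ring
          rwa [e] at this
        apply hqD
        have h8 := dvd_sub (h7.mul_left (2 * a * n0 + b)) ((hq1.trans hn0').mul_left (4 * a))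
        have e : (2 * a * n0 + b) * (2 * a * n0 + b) - 4 * a * (a * (n0 : ℤ) ^ 2 + b * n0 + c) = b ^ 2 - 4 * a * c := by ring
        rwa [e] at h8
      have h6 : IsCoprime ((q ^ 2 : ℕ) : ℤ) (a * ((n : ℤ) + n0) + b) := by
        push_cast
        apply IsCoprime.pow_left
        exact (Prime.coprime_iff_not_dvd hqz).2 h5
      exact h6.dvd_of_dvd_mul_right h3
    · right
      have h6 : IsCoprime ((q ^ 2 : ℕ) : ℤ) ((n : ℤ) - n0) := by
        push_cast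
        apply IsCoprime.pow_left
        exact (Prime.coprime_iff_not_dvd hqz).2 h4
      exact h6.dvd_of_dvd_mul_left h3
  have hcop : IsCoprime ((q ^ 2 : ℕ) : ℤ) a := by
    push_cast
    apply IsCoprime.pow_left
    exact (Prime.coprime_iff_not_dvd hqz).2 hqa
  have c1 := hclass (E.filter (fun n : ℕ => ((q ^ 2 : ℕ) : ℤ) ∣ (n : ℤ) - n0)) (filter_subset _ _) (by
    intro x hx y hy
    rw [mem_filter] at hx hy
    have := dvd_sub hx.2 hy.2
    rwa [sub_sub_sub_cancel_right] at this)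
  have c2 := hclass (E.filter (fun n : ℕ => ((q ^ 2 : ℕ) : ℤ) ∣ a * ((n : ℤ) + n0) + b)) (filter_subset _ _) (by
    intro x hx y hy
    rw [mem_filter] at hx hy
    have h5 := dvd_sub hx.2 hy.2
    have e : a * ((x : ℤ) + n0) + b - (a * ((y : ℤ) + n0) + b) = a * ((x : ℤ) - y) := by ring
    rw [e] at h5
    exact hcop.dvd_of_dvd_mul_left h5)
  have h3 : (E.card : ℝ) ≤ ((E.filter (fun n : ℕ => ((q ^ 2 : ℕ) : ℤ) ∣ (n : ℤ) - n0)).card : ℝ) +
      ((E.filter (fun n : ℕ => ((q ^ 2 : ℕ) : ℤ) ∣ a * ((n : ℤ) + n0) + b)).card : ℝ) := by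
    have h4 : E ⊆ E.filter (fun n : ℕ => ((q ^ 2 : ℕ) : ℤ) ∣ (n : ℤ) - n0) ∪
        E.filter (fun n : ℕ => ((q ^ 2 : ℕ) : ℤ) ∣ a * ((n : ℤ) + n0) + b) := by
      intro n hn
      rw [mem_union, mem_filter, mem_filter]
      rcases hdich n hn with h | h
      · exact Or.inl ⟨hn, h⟩
      · exact Or.inr ⟨hn, h⟩
    exact_mod_cast (card_le_card h4).trans (card_union_le _ _)
  push_cast
  linarith

/-- the polynomial `f (q j + v)` -/
noncomputable def QC (a b c : ℤ) (q v : ℕ) : ℤ[X] := QP (a * q ^ 2) (q * (2 * a * v + b)) (a * v ^ 2 + b * v + c)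

theorem QC_eval (a b c : ℤ) (q v j : ℕ) : (QC a b c q v).eval (j : ℤ) = (QP a b c).eval (((q * j + v : ℕ) : ℤ)) := by
  unfold QC
  rw [QP_eval, QP_eval]
  push_cast
  ring

/-- coprimality of the class -/
def CC (a b c : ℤ) (q v : ℕ) : Prop := ∀ p : ℕ, p.Prime → p ∣ q → ¬ (p : ℤ) ∣ (QP a b c).eval (v : ℤ)

theorem QC_disc (a b c : ℤ) (q v : ℕ) : ((q : ℤ) * (2 * a * v + b)) ^ 2 - 4 * (a * q ^ 2) * (a * v ^ 2 + b * v + c) = q ^ 2 * (b ^ 2 - 4 * a * c) := by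
  ring

theorem QC_sys {a b c : ℤ} (hg : ∀ q : ℕ, q.Prime → ¬ ((q : ℤ) ∣ a ∧ (q : ℤ) ∣ b ∧ (q : ℤ) ∣ c))
    (hp : ¬ ((2 : ℤ) ∣ a + b ∧ (2 : ℤ) ∣ c)) {q v : ℕ} (hv : CC a b c q v) : SysZ 2 (Zf (QC a b c q v)) := by
  apply QP_sys
  · rintro p hpp ⟨h1, h2, h3⟩
    have hpz : Prime (p : ℤ) := Nat.prime_iff_prime_int.1 hpp
    by_cases hpq : p ∣ q
    · apply hv p hpp hpq
      rw [QP_eval]
      exact h3
    · have hpq' : ¬ (p : ℤ) ∣ (q : ℤ) := fun h => hpq (by exact_mod_cast h)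
      have h4 : (p : ℤ) ∣ a := by
        rcases hpz.dvd_or_dvd h1 with h | h
        · exact h
        · exact absurd (hpz.dvd_of_dvd_pow h) hpq'
      have h5 : (p : ℤ) ∣ b := by
        rcases hpz.dvd_or_dvd h2 with h | h
        · exact absurd h hpq'
        · have := dvd_sub h ((h4.mul_left 2).mul_right v)
          rwa [add_sub_cancel_left] at this
      have h6 : (p : ℤ) ∣ c := by
        have e : a * (v : ℤ) ^ 2 + b * v + c - (a * (v : ℤ) ^ 2) - b * v = c := by ring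
        have := dvd_sub (dvd_sub h3 (h4.mul_right ((v : ℤ) ^ 2))) (h5.mul_right (v : ℤ))
        rwa [e] at this
      exact hg p hpp ⟨h4, h5, h6⟩
  · rintro ⟨h1, h2⟩
    by_cases hq2 : 2 ∣ q
    · apply hv 2 Nat.prime_two hq2
      rw [QP_eval]
      exact_mod_cast h2
    · have hqo : Odd q := by
        rcases Nat.even_or_odd q with h | h
        · exact absurd (even_iff_two_dvd.1 h) hq2
        · exact h
      obtain ⟨w, hw⟩ := hqo
      have hq' : (q : ℤ) = 2 * w + 1 := by exact_mod_cast hw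
      apply hp
      have h3 : (2 : ℤ) ∣ a + b := by
        have e : a * (q : ℤ) ^ 2 + q * (2 * a * v + b) = a + b + 2 * (a * (2 * w ^ 2 + 2 * w) + a * v * q + b * w) := by
          rw [hq']
          ring
        rw [e] at h1
        exact (Int.dvd_add_left (Dvd.intro _ rfl)).1 h1
      refine ⟨h3, ?_⟩
      rcases Int.even_or_odd (v : ℤ) with ⟨u, hu⟩ | ⟨u, hu⟩
      · have e : a * (v : ℤ) ^ 2 + b * v + c = c + 2 * (2 * a * u ^ 2 + b * u) := by
          rw [hu]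
          ring
        rw [e] at h2
        exact (Int.dvd_add_left (Dvd.intro _ rfl)).1 h2
      · have e : a * (v : ℤ) ^ 2 + b * v + c = c + (a + b) + 2 * (2 * a * u ^ 2 + 2 * a * u + b * u) := by
          rw [hu]
          ring
        rw [e] at h2
        have h4 := (Int.dvd_add_left (Dvd.intro _ rfl)).1 h2
        exact (Int.dvd_add_left h3).1 h4

theorem ro_QC_dvd {a b c : ℤ} {q v : ℕ} (hv : CC a b c q v) {p : ℕ} (hp : p.Prime) (hpq : p ∣ q) : ro (QC a b c q v) 0 p = 0 := by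
  rw [← Zf_ro, card_eq_zero]
  unfold Zf
  apply filter_false_of_mem
  intro n _ hd
  rw [QC_eval] at hd
  apply hv p hp hpq
  have h1 : (((q * n + v : ℕ) : ℤ)) - (v : ℤ) ∣ (QP a b c).eval (((q * n + v : ℕ) : ℤ)) - (QP a b c).eval (v : ℤ) :=
    Polynomial.sub_dvd_eval_sub _ _ _
  have h2 : (p : ℤ) ∣ (((q * n + v : ℕ) : ℤ)) - (v : ℤ) := by
    push_cast
    rw [add_sub_cancel_right]
    exact (Int.natCast_dvd_natCast.2 hpq).mul_right _
  have h3 := dvd_sub hd (h2.trans h1)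
  rwa [sub_sub_cancel] at h3

theorem ro_QC {a b c : ℤ} {q v : ℕ} {p : ℕ} (hp : p.Prime) (hpq : ¬ p ∣ q) : ro (QC a b c q v) 0 p = ro (QP a b c) 0 p := by
  have : Fact p.Prime := ⟨hp⟩
  unfold ro
  rw [rho_eq_rz _ _ hp.one_le, rho_eq_rz _ _ hp.one_le]
  unfold rz
  have hne : ((q : ℕ) : ZMod p) ≠ 0 := by
    intro h
    exact hpq ((ZMod.natCast_eq_zero_iff q p).1 h)
  apply Nat.card_congr
  refine Equiv.subtypeEquiv ((Equiv.mulLeft₀ ((q : ℕ) : ZMod p) hne).trans (Equiv.addRight ((v : ℕ) : ZMod p))) ?_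
  intro x
  have e1 : ((QC a b c q v + C 0).map (Int.castRingHom (ZMod p))).eval x =
      (a : ZMod p) * q ^ 2 * x ^ 2 + q * (2 * a * v + b) * x + (a * v ^ 2 + b * v + c) := by
    unfold QC QP
    simp
  have e2 : ∀ y : ZMod p, ((QP a b c + C 0).map (Int.castRingHom (ZMod p))).eval y = (a : ZMod p) * y ^ 2 + b * y + c := by
    intro y
    unfold QP
    simp
  have e3 : ((Equiv.mulLeft₀ ((q : ℕ) : ZMod p) hne).trans (Equiv.addRight ((v : ℕ) : ZMod p))) x = q * x + v := by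
    simp
  rw [e1, e3, e2]
  have e4 : (a : ZMod p) * (q * x + v) ^ 2 + b * (q * x + v) + c =
      (a : ZMod p) * q ^ 2 * x ^ 2 + q * (2 * a * v + b) * x + (a * v ^ 2 + b * v + c) := by ring
  rw [e4]

theorem QC_mer {a b c : ℤ} (ha : 0 < a) (hg : ∀ q : ℕ, q.Prime → ¬ ((q : ℤ) ∣ a ∧ (q : ℤ) ∣ b ∧ (q : ℤ) ∣ c))
    (hpar : ¬ ((2 : ℤ) ∣ a + b ∧ (2 : ℤ) ∣ c)) (hD : ¬ IsSquare (b ^ 2 - 4 * a * c)) (ε₁ υ η : ℝ) (hε : 0 < ε₁) (hυ : υ ≤ 1) (hη : 0 < η) :
    ∃ Y0 : ℕ, ∀ Y : ℕ, Y0 ≤ Y → ∀ q v : ℕ, 1 ≤ q → q ≤ Y → CC a b c q v →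
      Mer (pr Y ε₁ υ) (tt Y) (fun p => (ro (QC a b c q v) 0 p : ℝ) / p) ε₁ υ η := by
  classical
  obtain ⟨Y1, H⟩ := QP_mer (a := a) (b := b) (c := c) ha hD ε₁ υ (η / 2) hε hυ (by positivity)
  have hsys := QP_sys hg hpar
  have h1 : ∀ᶠ Y : ℕ in atTop, 8 / η * Real.log Y ≤ (Y : ℝ) ^ ε₁ := by
    have h1 := (isLittleO_log_rpow_atTop hε).def (show (0 : ℝ) < η / 8 by positivity)
    have h2 := (tendsto_natCast_atTop_atTop (R := ℝ)).eventually h1
    filter_upwards [h2, eventually_ge_atTop 1] with X hX h1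
    have hX1 : (1 : ℝ) ≤ X := by exact_mod_cast h1
    rw [Real.norm_of_nonneg (Real.log_nonneg hX1), Real.norm_of_nonneg (by positivity)] at hX
    calc 8 / η * Real.log X ≤ 8 / η * (η / 8 * (X : ℝ) ^ ε₁) := mul_le_mul_of_nonneg_left hX (by positivity)
      _ = _ := by field_simp
  obtain ⟨Y2, H2⟩ := eventually_atTop.1 h1
  refine ⟨max (max Y1 Y2) 2, ?_⟩
  intro Y hY q v hq1 hqY hv u w hu huw hw
  have y1 : Y1 ≤ Y := ((le_max_left _ _).trans (le_max_left _ _)).trans hY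
  have y2 := H2 Y (((le_max_right _ _).trans (le_max_left _ _)).trans hY)
  have y3 : 2 ≤ Y := (le_max_right _ _).trans hY
  have hYr : (2 : ℝ) ≤ Y := by exact_mod_cast y3
  have hYε : (0 : ℝ) < (Y : ℝ) ^ ε₁ := by positivity
  have g := H Y y1 u w hu huw hw
  obtain ⟨P, hP⟩ : ∃ P, P = (pr Y ε₁ υ).filter (fun p => u ≤ tt Y p ∧ tt Y p < w) := ⟨_, rfl⟩
  rw [← hP] at g ⊢
  have hp : ∀ p ∈ P, p.Prime ∧ (Y : ℝ) ^ ε₁ ≤ p := by
    intro p hp
    rw [hP, mem_filter] at hp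
    have hp1 := hp.1
    unfold pr at hp1
    rw [mem_filter] at hp1
    refine ⟨hp1.2.1, ?_⟩
    by_contra hlt
    push Not at hlt
    have := (tt_lt Y p ε₁ y3 hp1.2.1.pos).2 hlt
    linarith [hp1.2.2.1]
  have hro2 : ∀ p ∈ P, (ro (QP a b c) 0 p : ℝ) ≤ 2 := by
    intro p hpp
    rw [← Zf_ro]
    exact_mod_cast hsys.card p (hp p hpp).1
  have hd : |∑ p ∈ P, ((ro (QC a b c q v) 0 p : ℝ) / p) - ∑ p ∈ P, (ro (QP a b c) 0 p : ℝ) / p| ≤ η / 2 := by
    rw [← sum_sub_distrib]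
    have h3 : ∑ p ∈ P, ((ro (QC a b c q v) 0 p : ℝ) / p - (ro (QP a b c) 0 p : ℝ) / p) =
        - ∑ p ∈ P.filter (fun p => p ∣ q), (ro (QP a b c) 0 p : ℝ) / p := by
      rw [sum_filter, ← sum_neg_distrib]
      apply sum_congr rfl
      intro p hpP
      split_ifs with hpq
      · rw [ro_QC_dvd hv (hp p hpP).1 hpq]
        simp
      · rw [ro_QC (hp p hpP).1 hpq]
        simp
    rw [h3, abs_neg, abs_of_nonneg (sum_nonneg fun p _ => by positivity)]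
    have h4 : ∑ p ∈ P.filter (fun p => p ∣ q), (ro (QP a b c) 0 p : ℝ) / p ≤ ∑ p ∈ P.filter (fun p => p ∣ q), 2 * ((Y : ℝ) ^ ε₁)⁻¹ := by
      apply sum_le_sum
      intro p hpp
      rw [div_eq_mul_inv]
      apply mul_le_mul (hro2 p (mem_filter.1 hpp).1) _ (by positivity) (by norm_num)
      exact inv_anti₀ hYε (hp p (mem_filter.1 hpp).1).2
    refine h4.trans ?_
    rw [sum_const, nsmul_eq_mul]
    have h5 : P.filter (fun p => p ∣ q) ⊆ q.primeFactors := by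
      intro p hpp
      rw [mem_filter] at hpp
      exact Nat.mem_primeFactors.2 ⟨(hp p hpp.1).1, hpp.2, by omega⟩
    have h6 : 2 ^ q.primeFactors.card ≤ q := by
      calc 2 ^ q.primeFactors.card = ∏ p ∈ q.primeFactors, 2 := by rw [prod_const]
        _ ≤ ∏ p ∈ q.primeFactors, p := Finset.prod_le_prod' fun p hp => (Nat.prime_of_mem_primeFactors hp).two_le
        _ ≤ q := Nat.le_of_dvd (by omega) (Nat.prod_primeFactors_dvd q)
    have h7 : ((P.filter (fun p => p ∣ q)).card : ℝ) * Real.log 2 ≤ Real.log Y := by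
      have h8 : (2 : ℝ) ^ (P.filter (fun p => p ∣ q)).card ≤ Y := by
        have h9 : 2 ^ (P.filter (fun p => p ∣ q)).card ≤ Y :=
          (Nat.pow_le_pow_right (by norm_num) (card_le_card h5)).trans (h6.trans hqY)
        exact_mod_cast h9
      have h9 := Real.log_le_log (by positivity) h8
      rwa [Real.log_pow] at h9
    have h8 := Real.log_two_gt_d9
    have h9 : ((P.filter (fun p => p ∣ q)).card : ℝ) ≤ 2 * Real.log Y := by
      have h10 : (0 : ℝ) ≤ (P.filter (fun p => p ∣ q)).card := Nat.cast_nonneg _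
      nlinarith
    rw [← mul_assoc, ← div_eq_mul_inv, div_le_iff₀ hYε]
    have h10 : η / 8 * (8 / η * Real.log Y) ≤ η / 8 * (Y : ℝ) ^ ε₁ := mul_le_mul_of_nonneg_left y2 (by positivity)
    have h11 : η / 8 * (8 / η * Real.log Y) = Real.log Y := by field_simp
    linarith
  calc |∑ p ∈ P, (ro (QC a b c q v) 0 p : ℝ) / p - Real.log (w / u)| =
        |(∑ p ∈ P, (ro (QC a b c q v) 0 p : ℝ) / p - ∑ p ∈ P, (ro (QP a b c) 0 p : ℝ) / p) +
          (∑ p ∈ P, (ro (QP a b c) 0 p : ℝ) / p - Real.log (w / u))| := by ring_nf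
    _ ≤ _ := abs_add_le _ _
    _ ≤ η / 2 + η / 2 := add_le_add hd g
    _ = η := by ring

/-- **Almost prime values of quadratic polynomials in all residue classes and all short intervals.** -/
theorem quadC_count {a b c : ℤ} (ha : 0 < a) (hg : ∀ q : ℕ, q.Prime → ¬ ((q : ℤ) ∣ a ∧ (q : ℤ) ∣ b ∧ (q : ℤ) ∣ c))
    (hp : ¬ ((2 : ℤ) ∣ a + b ∧ (2 : ℤ) ∣ c)) (hD : ¬ IsSquare (b ^ 2 - 4 * a * c)) (r : ℕ) (h : ℝ) (hh1 : h ≤ 1)
    (hr3 : 1 ≤ r) (hr : 50 < 3 * (8 * r - 1) * h) :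
    ∃ δ : ℝ, 0 < δ ∧ ∃ X₀ : ℕ, ∀ X : ℕ, X₀ ≤ X → ∀ q v A H : ℕ, 1 ≤ q → CC a b c q v → q * (A + H) + v ≤ X → (X : ℝ) ^ h ≤ H →
      δ * (H * VV (Zf (QC a b c q v)) 0 H) ≤ ((GQ (QC a b c q v) r h X A H).card : ℝ) := by
  classical
  have hr1 : (1 : ℝ) ≤ r := by exact_mod_cast hr3
  have h8 : (0 : ℝ) < 3 * (8 * r - 1) := by linarith
  have hh0 : 0 < h := by
    by_contra hcon
    push Not at hcon
    nlinarith
  obtain ⟨h₀, hh₀⟩ : ∃ h₀ : ℝ, h₀ = 50 / (3 * (8 * r - 1)) := ⟨_, rfl⟩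
  have hh00 : 0 < h₀ := by rw [hh₀]; positivity
  have hlt : h₀ < h := by
    rw [hh₀, div_lt_iff₀ h8]
    linarith
  obtain ⟨τ, hτ⟩ : ∃ τ, τ = max ((h + h₀) / 2) (9 / 10 * h) := ⟨_, rfl⟩
  have hτ1 : (h + h₀) / 2 ≤ τ := by rw [hτ]; exact le_max_left _ _
  have hτ2 : 9 / 10 * h ≤ τ := by rw [hτ]; exact le_max_right _ _
  have hτh : τ < h := by
    rw [hτ]
    apply max_lt <;> linarith
  have hτ0 : 0 < τ := by linarith
  have hS : 2 < 2 * τ / h₀ := by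
    rw [lt_div_iff₀ hh00]
    linarith
  obtain ⟨δ, ε₁, η, hδ, hε₁, hη, X₀, H1⟩ := pwU 2 (by norm_num) r τ h (2 * τ / h₀) hτ0 hτh hh1 (by
      have e : 2 * τ / h₀ / (24 / 25 * τ) = 25 / 12 / h₀ := by
        field_simp
        ring
      rw [e, hh₀]
      have e2 : 25 / 12 / (50 / (3 * (8 * (r : ℝ) - 1))) = r - 1 / 8 := by
        field_simp
        ring
      rw [e2]
      linarith)
  obtain ⟨X₁, HM⟩ := QC_mer (a := a) (b := b) (c := c) ha hg hp hD ε₁ (24 / 25 * τ) η hε₁ (by linarith) hη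
  obtain ⟨X₂, hsize⟩ := QP_size a b c (2 * τ / h₀) hS
  have hD0 : b ^ 2 - 4 * a * c ≠ 0 := fun h => hD (by rw [h]; exact ⟨0, by simp⟩)
  have ev1 : ∀ᶠ Y : ℕ in atTop, ((a.natAbs + (b ^ 2 - 4 * a * c).natAbs + 1 : ℕ) : ℝ) ≤ (Y : ℝ) ^ (τ / 4) :=
    ((tendsto_rpow_atTop (by positivity)).comp tendsto_natCast_atTop_atTop).eventually_ge_atTop _
  obtain ⟨X₃, hX₃⟩ := eventually_atTop.1 ev1
  obtain ⟨n₀, hn₀⟩ := QP_big (a := a) (b := b) (c := c) ha
  obtain ⟨X₄, hX₄⟩ := VV_large 2 (by norm_num) (δ / 2) h (by positivity) hh0 (n₀ : ℝ)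
  refine ⟨δ / 2, by positivity, max (max X₀ X₁) (max (max X₂ X₃) (max X₄ 2)), ?_⟩
  intro X hX q v A H hq1 hv hqX hH
  have x0 : X₀ ≤ X := ((le_max_left _ _).trans (le_max_left _ _)).trans hX
  have x1 : X₁ ≤ X := ((le_max_right _ _).trans (le_max_left _ _)).trans hX
  have hX' := (le_max_right _ _).trans hX
  have x2 : X₂ ≤ X := ((le_max_left _ _).trans (le_max_left _ _)).trans hX'
  have x3 := hX₃ X (((le_max_right _ _).trans (le_max_left _ _)).trans hX')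
  have x4 : X₄ ≤ X := ((le_max_left _ _).trans (le_max_right _ _)).trans hX'
  have x5 : 2 ≤ X := ((le_max_right _ _).trans (le_max_right _ _)).trans hX'
  have hXr : (2 : ℝ) ≤ X := by exact_mod_cast x5
  have hX1 : (1 : ℝ) ≤ X := by linarith
  have hHX : H ≤ X := by nlinarith
  have hH1 : 1 ≤ H := by
    have : (1 : ℝ) ≤ H := (Real.one_le_rpow hX1 hh0.le).trans hH
    exact_mod_cast this
  have hqX' : q ≤ X := by nlinarith
  have hsys := QC_sys hg hp hv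
  have g1 := H1 X x0 (QC a b c q v) hsys (HM X x1 q v hq1 hqX' hv) A H hHX hH (by
    intro p hpp hpX
    have hpl : a.natAbs + (b ^ 2 - 4 * a * c).natAbs + 1 ≤ p := by
      exact_mod_cast x3.trans hpX
    have hpz : Prime (p : ℤ) := Nat.prime_iff_prime_int.1 hpp
    by_cases hpq : p ∣ q
    · have h1 : (Ioc A (A + H)).filter (fun n : ℕ => ((p ^ 2 : ℕ) : ℤ) ∣ (QC a b c q v).eval (n : ℤ)) = ∅ := by
        apply filter_false_of_mem
        intro n _ hd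
        have h2 : n % p ∈ Zf (QC a b c q v) p := by
          rw [Zf_mem _ hpp.pos]
          refine dvd_trans ?_ hd
          push_cast
          exact dvd_pow_self _ (by norm_num)
        have h3 := ro_QC_dvd hv hpp hpq
        rw [← Zf_ro, card_eq_zero] at h3
        rw [h3] at h2
        exact absurd h2 (notMem_empty _)
      rw [h1, card_empty, Nat.cast_zero]
      positivity
    · have hpq' : ¬ (p : ℤ) ∣ (q : ℤ) := fun h => hpq (by exact_mod_cast h)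
      apply QP_sq1 p hpp
      · intro hd
        rcases hpz.dvd_or_dvd hd with h1 | h1
        · have h2 := Nat.le_of_dvd (Int.natAbs_pos.2 ha.ne') (Int.natCast_dvd.1 h1)
          omega
        · exact hpq' (hpz.dvd_of_dvd_pow h1)
      · rw [QC_disc]
        intro hd
        rcases hpz.dvd_or_dvd hd with h1 | h1
        · exact hpq' (hpz.dvd_of_dvd_pow h1)
        · have h2 := Nat.le_of_dvd (Int.natAbs_pos.2 hD0) (Int.natCast_dvd.1 h1)
          omega) (by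
    intro n hn
    rw [mem_Ioc] at hn
    rw [QC_eval]
    refine ⟨QP_ne hD _, hsize X x2 _ ?_⟩
    have := Nat.mul_le_mul_left q hn.2
    omega)
  have g2 := hX₄ X H x4 hHX hH _ hsys
  have g3 : (((GP (QC a b c q v) r ((X : ℝ) ^ (τ / 4)) A H).card : ℕ) : ℝ) ≤ ((GQ (QC a b c q v) r h X A H).card : ℝ) + n₀ := by
    have g4 : GP (QC a b c q v) r ((X : ℝ) ^ (τ / 4)) A H ⊆ GQ (QC a b c q v) r h X A H ∪ range n₀ := by
      intro n hn
      rw [mem_union, mem_range]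
      by_cases hn1 : n < n₀
      · exact Or.inr hn1
      · left
        push Not at hn1
        unfold GP at hn
        rw [mem_filter] at hn
        unfold GQ GP
        rw [mem_filter, mem_filter]
        refine ⟨⟨hn.1, hn.2.1, fun p hp hpd => ?_⟩, ?_⟩
        · refine le_trans ?_ (hn.2.2 p hp hpd)
          apply Real.rpow_le_rpow_of_exponent_le hX1
          linarith
        · rw [QC_eval]
          apply hn₀
          nlinarith
    have g5 := (card_le_card g4).trans (card_union_le _ _)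
    rw [card_range] at g5
    exact_mod_cast g5
  have e : δ * (H * VV (Zf (QC a b c q v)) 0 H) = δ / 2 * (H * VV (Zf (QC a b c q v)) 0 H) + δ / 2 * (H * VV (Zf (QC a b c q v)) 0 H) := by ring
  linarith

/-- **Narrow progressions in the dense subsets.** -/
theorem quadC_ap {a b c : ℤ} (ha : 0 < a) (hg : ∀ q : ℕ, q.Prime → ¬ ((q : ℤ) ∣ a ∧ (q : ℤ) ∣ b ∧ (q : ℤ) ∣ c))
    (hp : ¬ ((2 : ℤ) ∣ a + b ∧ (2 : ℤ) ∣ c)) (hD : ¬ IsSquare (b ^ 2 - 4 * a * c)) (r : ℕ) (h : ℝ) (hh1 : h ≤ 1)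
    (hr3 : 1 ≤ r) (hr : 50 < 3 * (8 * r - 1) * h) (k : ℕ) (ε : ℝ) (hε : 0 < ε) :
    ∃ D X₀ : ℕ, ∀ X : ℕ, X₀ ≤ X → ∀ q v A H : ℕ, 1 ≤ q → CC a b c q v → q * (A + H) + v ≤ X → (X : ℝ) ^ h ≤ H →
      ∀ S ⊆ GQ (QC a b c q v) r h X A H,
      ε * ((GQ (QC a b c q v) r h X A H).card : ℝ) ≤ S.card →
      ∃ m d : ℕ, 1 ≤ d ∧ (d : ℝ) ≤ Real.log X ^ D ∧ ∀ j < k, m + j * d ∈ S := by
  classical
  have hr1 : (1 : ℝ) ≤ r := by exact_mod_cast hr3
  have hh0 : 0 < h := by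
    by_contra hcon
    push Not at hcon
    nlinarith
  obtain ⟨δ, hδ, X₀, H1⟩ := quadC_count ha hg hp hD r h hh1 hr3 hr
  obtain ⟨D, X₁, H2⟩ := ap_dense k 2 (h / 6) (ε * δ) (by positivity) (by linarith) (by positivity)
  have ev1 : ∀ᶠ X : ℕ in atTop, (X₁ : ℝ) + 1 ≤ (X : ℝ) ^ h :=
    ((tendsto_rpow_atTop hh0).comp tendsto_natCast_atTop_atTop).eventually_ge_atTop _
  obtain ⟨X₂, hX₂⟩ := eventually_atTop.1 ev1
  refine ⟨D, max (max X₀ X₂) 2, ?_⟩
  intro X hX q v A H hq1 hv hqX hH S hS hSc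
  have hsys := QC_sys hg hp hv
  have g1 := H1 X (((le_max_left _ _).trans (le_max_left _ _)).trans hX) q v A H hq1 hv hqX hH
  have g2 := hX₂ X (((le_max_right _ _).trans (le_max_left _ _)).trans hX)
  have hX2 : 2 ≤ X := (le_max_right _ _).trans hX
  have hXr : (2 : ℝ) ≤ X := by exact_mod_cast hX2
  have hHX' : H ≤ X := by nlinarith
  have hHX : (H : ℝ) ≤ X := by exact_mod_cast hHX'
  have hXH : X₁ ≤ H := by
    have : (X₁ : ℝ) ≤ H := by linarith
    exact_mod_cast this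
  have hH1 : (1 : ℝ) ≤ H := by
    have : (0 : ℝ) ≤ X₁ := Nat.cast_nonneg _
    linarith
  have hSG : ∀ n ∈ S, n ∈ Ioc A (A + H) ∧ ∀ p : ℕ, p.Prime → (p : ℤ) ∣ (QC a b c q v).eval (n : ℤ) → (X : ℝ) ^ (h / 5) ≤ p := by
    intro n hn
    have := hS hn
    unfold GQ GP at this
    rw [mem_filter, mem_filter] at this
    exact ⟨this.1.1, this.1.2.2⟩
  obtain ⟨m, d, hd1, hd2, hd3⟩ := H2 H hXH (Zf (QC a b c q v)) hsys A S (fun n hn => (hSG n hn).1) (by
    intro n hn p hpp hpH hmem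
    rw [Zf_mem _ hpp.pos] at hmem
    have h1 := (hSG n hn).2 p hpp hmem
    have h2 : (H : ℝ) ^ (h / 6) ≤ (X : ℝ) ^ (h / 6) := Real.rpow_le_rpow (by linarith) hHX (by positivity)
    have h3 : (X : ℝ) ^ (h / 6) < (X : ℝ) ^ (h / 5) := Real.rpow_lt_rpow_of_exponent_lt (by linarith) (by linarith)
    linarith) (by
    refine le_trans ?_ hSc
    calc ε * δ * (H * VV (Zf (QC a b c q v)) 0 H) = ε * (δ * (H * VV (Zf (QC a b c q v)) 0 H)) := by ring
      _ ≤ _ := mul_le_mul_of_nonneg_left g1 hε.le)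
  refine ⟨m, d, hd1, hd2.trans ?_, hd3⟩
  exact pow_le_pow_left₀ (Real.log_nonneg hH1) (Real.log_le_log (by linarith) hHX) D

end Pool.Agent.Q253.Cov
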