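import Pool.Agent.Q253.Cov.General
import Pool.Agent.Q253.Cov.HitP

/-!
# One thin set of squarefree numbers with large prime factors, hitting every member of a family many times
-/

set_option autoImplicit false

namespace Pool.Agent.Q253.Cov

open Finset Filter

open Classical in
/-- squarefree numbers `m > 1` up to `Z ^ e` with all prime factors at least `Z ^ (1 / e)` -/
noncomputable def Rz (e Z : ℕ) : Finset ℕ :=
  (Icc 2 (Z ^ e)).filter (fun m => Squarefree m ∧ ∀ p : ℕ, p.Prime → p ∣ m → Z ≤ p ^ e)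

theorem mem_Rz {e Z m : ℕ} : m ∈ Rz e Z ↔ 2 ≤ m ∧ m ≤ Z ^ e ∧ Squarefree m ∧ ∀ p : ℕ, p.Prime → p ∣ m → Z ≤ p ^ e := by
  classical
  unfold Rz
  simp only [mem_filter, mem_Icc]
  tauto

theorem Rz_base {e Z m : ℕ} (h : m ∈ Rz e Z) : Z ≤ m ^ e := by
  obtain ⟨h1, _, _, h4⟩ := mem_Rz.1 h
  obtain ⟨p, hp, hpm⟩ := Nat.exists_prime_and_dvd (show m ≠ 1 by omega)
  exact (h4 p hp hpm).trans (Nat.pow_le_pow_left (Nat.le_of_dvd (by omega) hpm) e)

theorem sum_Rz (e Z : ℕ) : ∑ m ∈ Rz e Z, (1 : ℝ) / m ≤ Real.exp (∑ p ∈ Om e Z, (1 : ℝ) / p) := by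
  classical
  have h1 : ∑ m ∈ Rz e Z, (1 : ℝ) / m ≤ ∑ s ∈ (Om e Z).powerset, ∏ p ∈ s, (1 : ℝ) / (p : ℝ) := by
    have h2 : ∀ m ∈ Rz e Z, (1 : ℝ) / m = ∏ p ∈ m.primeFactors, (1 : ℝ) / (p : ℝ) := by
      intro m hm
      have h3 := Nat.prod_primeFactors_of_squarefree (mem_Rz.1 hm).2.2.1
      rw [prod_div_distrib, prod_const_one]
      congr 1
      rw [← Nat.cast_prod, h3]
    rw [sum_congr rfl h2]
    have hinj : Set.InjOn Nat.primeFactors (Rz e Z : Set ℕ) := by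
      intro a ha b hb hab
      have ha' := Nat.prod_primeFactors_of_squarefree (mem_Rz.1 (mem_coe.1 ha)).2.2.1
      have hb' := Nat.prod_primeFactors_of_squarefree (mem_Rz.1 (mem_coe.1 hb)).2.2.1
      rw [← ha', ← hb', hab]
    rw [← sum_image (f := fun s : Finset ℕ => ∏ p ∈ s, (1 : ℝ) / (p : ℝ)) hinj]
    apply sum_le_sum_of_subset_of_nonneg
    · intro s hs
      obtain ⟨m, hm, rfl⟩ := mem_image.1 hs
      rw [mem_powerset]
      intro p hp
      obtain ⟨m1, m2, m3, m4⟩ := mem_Rz.1 hm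
      have hpp := Nat.prime_of_mem_primeFactors hp
      have hpd := Nat.dvd_of_mem_primeFactors hp
      exact mem_Om.2 ⟨hpp, m4 p hpp hpd, (Nat.le_of_dvd (by omega) hpd).trans m2⟩
    · intro s _ _
      exact prod_nonneg fun p _ => by positivity
  refine h1.trans ?_
  rw [← prod_one_add, Real.exp_sum]
  apply Finset.prod_le_prod
  · intro p _
    positivity
  · intro p _
    have := Real.add_one_le_exp ((1 : ℝ) / p)
    linarith

open Classical in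
/-- the union of sets `T i` of numbers above `(2 ^ 2 ^ i) ^ (1 / e)`, with `O(2 ^ i)` elements -/
theorem thin_union_r (T : ℕ → Finset ℕ) (K : ℕ) (e : ℕ) (he : 1 ≤ e)
    (hT : ∀ i, ∀ q ∈ T i, 1 ≤ q ∧ 2 ^ 2 ^ i ≤ q ^ e) (hc : ∀ i, (T i).card ≤ K * 2 ^ i) (x : ℕ) (hx : 2 ≤ x) :
    ((((Icc 1 x).filter (fun q => ∃ i, q ∈ T i)).card : ℕ) : ℝ) ≤ 2 * K * e / Real.log 2 * Real.log x := by
  classical
  have hx9 : 2 ≤ x ^ e := hx.trans (Nat.le_self_pow (by omega) x)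
  have hL1 : 1 ≤ Nat.log 2 (x ^ e) :=
    (Nat.le_log_iff_pow_le (by norm_num) (by omega)).2 (by simpa using hx9)
  obtain ⟨n, hn⟩ : ∃ n, n = Nat.log 2 (Nat.log 2 (x ^ e)) := ⟨_, rfl⟩
  have hsub : (Icc 1 x).filter (fun q => ∃ i, q ∈ T i) ⊆ (range (n + 1)).biUnion T := by
    intro q hq
    rw [mem_filter, mem_Icc] at hq
    obtain ⟨⟨_, hqx⟩, i, hi⟩ := hq
    rw [mem_biUnion]
    refine ⟨i, ?_, hi⟩
    rw [mem_range]
    have h2 := (hT i q hi).2
    have h4 : 2 ^ 2 ^ i ≤ x ^ e := h2.trans (Nat.pow_le_pow_left hqx e)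
    have h5 : 2 ^ i ≤ Nat.log 2 (x ^ e) := (Nat.le_log_iff_pow_le (by norm_num) (by omega)).2 h4
    have h6 : i ≤ n := by
      rw [hn]
      exact (Nat.le_log_iff_pow_le (by norm_num) (by omega)).2 h5
    omega
  have h1 : ((Icc 1 x).filter (fun q => ∃ i, q ∈ T i)).card ≤ ∑ i ∈ range (n + 1), (T i).card :=
    (card_le_card hsub).trans card_biUnion_le
  have h2 : ∑ i ∈ range (n + 1), (T i).card ≤ 2 * K * 2 ^ n := by
    calc ∑ i ∈ range (n + 1), (T i).card ≤ ∑ i ∈ range (n + 1), K * 2 ^ i := sum_le_sum fun i _ => hc i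
      _ = K * ∑ i ∈ range (n + 1), 2 ^ i := by rw [mul_sum]
      _ ≤ K * 2 ^ (n + 1) := by
          apply Nat.mul_le_mul_left
          have := Nat.geomSum_lt (m := 2) (n := n + 1) (s := range (n + 1)) le_rfl (fun k hk => mem_range.1 hk)
          exact this.le
      _ = _ := by ring
  have h3 : 2 ^ n ≤ Nat.log 2 (x ^ e) := by rw [hn]; exact Nat.pow_log_le_self 2 (by omega)
  have hl2 : 0 < Real.log 2 := Real.log_pos (by norm_num)
  have h5 : ((Nat.log 2 (x ^ e) : ℕ) : ℝ) * Real.log 2 ≤ e * Real.log x := by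
    have h6 : (2 : ℝ) ^ (Nat.log 2 (x ^ e)) ≤ (x : ℝ) ^ e := by
      have := Nat.pow_log_le_self 2 (show x ^ e ≠ 0 by positivity)
      exact_mod_cast this
    have h7 := Real.log_le_log (by positivity) h6
    rw [Real.log_pow, Real.log_pow] at h7
    exact h7
  have h6 : (((Icc 1 x).filter (fun q => ∃ i, q ∈ T i)).card : ℝ) ≤ 2 * K * (Nat.log 2 (x ^ e) : ℕ) := by
    have := (h1.trans h2).trans (Nat.mul_le_mul_left (2 * K) h3)
    exact_mod_cast this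
  refine h6.trans ?_
  have h7 : ((Nat.log 2 (x ^ e) : ℕ) : ℝ) ≤ e * Real.log x / Real.log 2 := by
    rw [le_div_iff₀ hl2]
    exact h5
  calc (2 * K * (Nat.log 2 (x ^ e) : ℕ) : ℝ) ≤ 2 * K * (e * Real.log x / Real.log 2) :=
        mul_le_mul_of_nonneg_left h7 (by positivity)
    _ = _ := by ring

open Classical in
/-- **One thin set for polynomially many sets of squarefree numbers with large prime factors, with many hits.** -/
theorem cover_many {ι : Type*} (A e : ℕ) (he : 1 ≤ e) (c : ℝ) (hc : 0 < c) (I : ℕ → Finset ι) (B : ℕ → ι → Finset ℕ) (i₀ : ℕ)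
    (hI : ∀ i, i₀ ≤ i → (I i).card ≤ (2 ^ 2 ^ i) ^ A)
    (hB : ∀ i, i₀ ≤ i → ∀ a ∈ I i, B i a ⊆ Rz e (2 ^ 2 ^ i) ∧ c ≤ ∑ q ∈ B i a, (1 : ℝ) / q) :
    ∃ C : ℝ, 0 < C ∧ ∃ Q : Set ℕ, (∀ q ∈ Q, ∃ i, q ∈ Rz e (2 ^ 2 ^ i)) ∧
      (∀ x : ℕ, 2 ≤ x → {q ∈ Q | q ≤ x}.Finite ∧ ({q ∈ Q | q ≤ x}.ncard : ℝ) ≤ C * Real.log x) ∧
      ∃ i₁ : ℕ, ∀ i, i₁ ≤ i → ∀ a ∈ I i, 2 ^ i ≤ ((B i a).filter (fun q => q ∈ Q)).card := by
  obtain ⟨M, hM, Z₁, hmert⟩ := mertE e he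
  obtain ⟨W, hW⟩ : ∃ W : ℝ, W = Real.exp M := ⟨_, rfl⟩
  have hW0 : 0 < W := by rw [hW]; exact Real.exp_pos _
  obtain ⟨K, hK⟩ : ∃ K : ℕ, (A + 1) * (4 * W / c) ≤ K := exists_nat_ge _
  -- the scales
  obtain ⟨i₁, hi₁, hi₁Z, hi₁w⟩ : ∃ i₁, i₀ ≤ i₁ ∧ (∀ i, i₁ ≤ i → Z₁ ≤ 2 ^ 2 ^ i) ∧
      (∀ i, i₁ ≤ i → ∀ m : ℕ, 1 ≤ m → 2 ^ 2 ^ i ≤ m ^ e → (1 : ℝ) / m * ((K * 2 ^ i : ℕ) : ℝ) ≤ c / 2) := by
    have hlim : Tendsto (fun n : ℕ => (n : ℝ) ^ e / 2 ^ n) atTop (nhds 0) := by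
      have := tendsto_pow_const_div_const_pow_of_one_lt e (show (1 : ℝ) < 2 by norm_num)
      exact this
    have hq : 0 < (c / (2 * (K + 1))) ^ e := by positivity
    obtain ⟨N, hN⟩ := eventually_atTop.1 (hlim.eventually_lt_const hq)
    refine ⟨max i₀ (max Z₁ N), le_max_left _ _, ?_, ?_⟩
    · intro i hi
      calc Z₁ ≤ i := ((le_max_left _ _).trans (le_max_right _ _)).trans hi
        _ ≤ 2 ^ i := Nat.lt_two_pow_self.le
        _ ≤ 2 ^ 2 ^ i := Nat.lt_two_pow_self.le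
    · intro i hi m hm hmm
      have h1 : N ≤ 2 ^ i := (((le_max_right _ _).trans (le_max_right _ _)).trans hi).trans Nat.lt_two_pow_self.le
      have h2 := hN (2 ^ i) h1
      push_cast at h2
      have hm0 : (0 : ℝ) < m := by exact_mod_cast hm
      have h3 : ((2 : ℝ) ^ 2 ^ i) ≤ (m : ℝ) ^ e := by exact_mod_cast hmm
      have h4 : (((2 : ℝ) ^ i) / m) ^ e ≤ (c / (2 * (K + 1))) ^ e := by
        rw [div_pow]
        refine le_trans ?_ h2.le
        apply div_le_div_of_nonneg_left (by positivity) (by positivity) h3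
      have h5 : (2 : ℝ) ^ i / m ≤ c / (2 * (K + 1)) := by
        by_contra hcon
        push Not at hcon
        have := pow_lt_pow_left₀ hcon (by positivity) (show e ≠ 0 by omega)
        linarith
      push_cast
      calc (1 : ℝ) / m * (K * 2 ^ i) = K * (2 ^ i / m) := by ring
        _ ≤ (K + 1) * (2 ^ i / m) := by
            apply mul_le_mul_of_nonneg_right (by linarith) (by positivity)
        _ ≤ (K + 1) * (c / (2 * (K + 1))) := mul_le_mul_of_nonneg_left h5 (by positivity)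
        _ = c / 2 := by field_simp
  have hstep : ∀ i : ℕ, ∃ T : Finset ℕ, T ⊆ Rz e (2 ^ 2 ^ i) ∧ T.card ≤ K * 2 ^ i ∧
      (i₁ ≤ i → ∀ a ∈ I i, 2 ^ i ≤ (B i a ∩ T).card) := by
    intro i
    by_cases hi : i₁ ≤ i
    swap
    · exact ⟨∅, by simp, by simp, fun h => absurd h hi⟩
    obtain ⟨T, hT1, hT2, hT3⟩ := hit_many (Rz e (2 ^ 2 ^ i)) (fun q => (1 : ℝ) / q) (fun q _ => by positivity) W
      c hW0 ((sum_Rz e (2 ^ 2 ^ i)).trans (by rw [hW]; exact Real.exp_le_exp.2 (hmert _ (hi₁Z i hi)))) hc (B i) (I i)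
      (K * 2 ^ i) (fun m hm => hi₁w i hi m (by have := (mem_Rz.1 hm).1; omega) (Rz_base hm))
      (fun a ha => hB i (hi₁.trans hi) a ha)
    refine ⟨T, hT1, hT2, fun _ a ha => ?_⟩
    have h1 := hT3 a ha
    have hI0 : (0 : ℝ) < (I i).card := by exact_mod_cast card_pos.2 ⟨a, ha⟩
    have h2 : Real.log (I i).card ≤ A * 2 ^ i := by
      have h3 : ((I i).card : ℝ) ≤ (2 ^ 2 ^ i) ^ A := by exact_mod_cast hI i (hi₁.trans hi)
      refine (Real.log_le_log hI0 h3).trans ?_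
      rw [Real.log_pow, Real.log_pow]
      push_cast
      have h4 : Real.log 2 ≤ 1 := by have := Real.log_two_lt_d9; linarith
      have h5 : (2 : ℝ) ^ i * Real.log 2 ≤ 2 ^ i * 1 := mul_le_mul_of_nonneg_left h4 (by positivity)
      have h6 : (A : ℝ) * (2 ^ i * Real.log 2) ≤ A * (2 ^ i * 1) := mul_le_mul_of_nonneg_left h5 (by positivity)
      linarith
    have h3 : (A + 1 : ℝ) ≤ c / (4 * W) * K := by
      calc (A + 1 : ℝ) = c / (4 * W) * ((A + 1) * (4 * W / c)) := by field_simp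
        _ ≤ _ := mul_le_mul_of_nonneg_left hK (by positivity)
    have h4 : ((A : ℝ) + 1) * 2 ^ i ≤ c / (4 * W) * K * 2 ^ i := mul_le_mul_of_nonneg_right h3 (by positivity)
    have h5 : (2 : ℝ) ^ i ≤ (((B i a ∩ T).card : ℕ) : ℝ) := by
      push_cast at h1
      linarith
    exact_mod_cast h5
  choose T hT1 hT2 hT3 using hstep
  have hTb : ∀ i, ∀ q ∈ T i, 1 ≤ q ∧ 2 ^ 2 ^ i ≤ q ^ e := fun i q hq =>
    ⟨by have := (mem_Rz.1 (hT1 i hq)).1; omega, Rz_base (hT1 i hq)⟩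
  have hl2 : 0 < Real.log 2 := Real.log_pos (by norm_num)
  refine ⟨2 * (K + 1) * e / Real.log 2, by
    have : (0 : ℝ) < e := by exact_mod_cast he
    positivity, {q | ∃ i, q ∈ T i}, ?_, ?_, i₁, ?_⟩
  · rintro q ⟨i, hi⟩
    exact ⟨i, hT1 i hi⟩
  · intro x hx
    have hsub : {q ∈ {q | ∃ i, q ∈ T i} | q ≤ x} ⊆ (((Icc 1 x).filter (fun q => ∃ i, q ∈ T i) : Finset ℕ) : Set ℕ) := by
      rintro q ⟨⟨i, hi⟩, hqx⟩
      rw [mem_coe, mem_filter, mem_Icc]
      exact ⟨⟨(hTb i q hi).1, hqx⟩, i, hi⟩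
    refine ⟨(finite_toSet _).subset hsub, ?_⟩
    have h1 := Set.ncard_le_ncard hsub (finite_toSet _)
    rw [Set.ncard_coe_finset] at h1
    have h2 := thin_union_r T K e he hTb hT2 x hx
    have hlx : 0 ≤ Real.log x := Real.log_nonneg (by exact_mod_cast (by omega : 1 ≤ x))
    calc _ ≤ (((Icc 1 x).filter (fun q => ∃ i, q ∈ T i)).card : ℝ) := by exact_mod_cast h1
      _ ≤ 2 * K * e / Real.log 2 * Real.log x := h2
      _ ≤ _ := by
          apply mul_le_mul_of_nonneg_right _ hlx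
          apply div_le_div_of_nonneg_right _ hl2.le
          apply mul_le_mul_of_nonneg_right _ (Nat.cast_nonneg _)
          linarith
  · intro i hi a ha
    refine (hT3 i hi a ha).trans (card_le_card ?_)
    intro q hq
    rw [mem_inter] at hq
    rw [mem_filter]
    exact ⟨hq.1, i, hq.2⟩

end Pool.Agent.Q253.Cov
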