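import Pool.Agent.Q253.Cov.General

/-!
# One very thin set of primes for families with few members
-/

set_option autoImplicit false

namespace Pool.Agent.Q253.Cov

open Finset Filter
open Pool.Agent.Q253.Thin (hit2)

/-- `log log` bound for the number of the scales -/
theorem scales_bound (f : ℕ) (hf : 1 ≤ f) {x : ℕ} (hx : 16 ≤ x) :
    ((Nat.log 2 (Nat.log 2 (x ^ f)) : ℕ) : ℝ) + 2 ≤ (2 * f + 6) * Real.log (Real.log x) ∧ 1 ≤ Real.log (Real.log x) := by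
  have hxr : (16 : ℝ) ≤ x := by exact_mod_cast hx
  have hf0 : (0 : ℝ) < f := by exact_mod_cast hf
  have hl2 : (1 : ℝ) / 2 ≤ Real.log 2 := by have := Real.log_two_gt_d9; linarith
  have hl2' : Real.log 2 ≤ 1 := by have := Real.log_two_lt_d9; linarith
  have h16 : (2.77 : ℝ) ≤ Real.log x := by
    have h1 := Real.log_le_log (by norm_num) hxr
    have h2 : Real.log 16 = 4 * Real.log 2 := by
      rw [show (16 : ℝ) = 2 ^ 4 by norm_num, Real.log_pow]
      norm_num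
    have := Real.log_two_gt_d9
    linarith
  have hLL : 1 ≤ Real.log (Real.log x) := by
    rw [Real.le_log_iff_exp_le (by linarith)]
    have := Real.exp_one_lt_d9
    linarith
  refine ⟨?_, hLL⟩
  have hx1 : 1 < x ^ f := Nat.one_lt_pow (by omega) (by omega)
  obtain ⟨N, hN⟩ : ∃ N, N = Nat.log 2 (x ^ f) := ⟨_, rfl⟩
  have hN1 : 1 ≤ N := by
    rw [hN]
    exact (Nat.le_log_iff_pow_le (by norm_num) (by omega)).2 (by rw [pow_one]; exact hx1)
  obtain ⟨n, hn⟩ : ∃ n, n = Nat.log 2 N := ⟨_, rfl⟩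
  rw [← hN, ← hn]
  have h1 : 2 ^ N ≤ x ^ f := by rw [hN]; exact Nat.pow_log_le_self 2 (by omega)
  have h2 : 2 ^ n ≤ N := by rw [hn]; exact Nat.pow_log_le_self 2 (by omega)
  have h3 : (N : ℝ) * Real.log 2 ≤ f * Real.log x := by
    rw [← Real.log_pow, ← Real.log_pow]
    apply Real.log_le_log (by positivity)
    exact_mod_cast h1
  have h4 : (n : ℝ) * Real.log 2 ≤ Real.log N := by
    rw [← Real.log_pow]
    apply Real.log_le_log (by positivity)
    exact_mod_cast h2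
  have hN0 : (0 : ℝ) < N := by exact_mod_cast hN1
  have h5 : (N : ℝ) ≤ 2 * (f * Real.log x) := by nlinarith
  have h6 : Real.log N ≤ Real.log 2 + (Real.log f + Real.log (Real.log x)) := by
    rw [← Real.log_mul (by positivity) (by linarith), ← Real.log_mul (by norm_num) (by positivity)]
    exact Real.log_le_log hN0 h5
  have h7 : Real.log f ≤ f := (Real.log_le_sub_one_of_pos hf0).trans (by linarith)
  have h8 : (n : ℝ) / 2 ≤ 1 + f + Real.log (Real.log x) := by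
    have : (n : ℝ) * (1 / 2) ≤ n * Real.log 2 := mul_le_mul_of_nonneg_left hl2 (Nat.cast_nonneg _)
    linarith
  have h9 : (f : ℝ) ≤ f * Real.log (Real.log x) := by nlinarith
  nlinarith

open Classical in
/-- **One very thin set of primes for families with few members.** -/
theorem thin_cover_log {ι : Type*} (A e : ℕ) (he : 1 ≤ e) (c : ℝ) (hc : 0 < c) (I : ℕ → Finset ι) (B : ℕ → ι → Finset ℕ) (i₀ : ℕ)
    (hI : ∀ i, i₀ ≤ i → (I i).card ≤ 2 ^ (A * (i + 1)))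
    (hB : ∀ i, i₀ ≤ i → ∀ a ∈ I i, B i a ⊆ Om e (2 ^ 2 ^ i) ∧ c ≤ ∑ q ∈ B i a, (1 : ℝ) / q) :
    ∃ C : ℝ, 0 < C ∧ ∃ Q : Set ℕ, (∀ q ∈ Q, q.Prime) ∧
      (∀ x : ℕ, 16 ≤ x → {q ∈ Q | q ≤ x}.Finite ∧ ({q ∈ Q | q ≤ x}.ncard : ℝ) ≤ C * Real.log (Real.log x) ^ 2) ∧
      ∃ i₁ : ℕ, ∀ i, i₁ ≤ i → ∀ a ∈ I i, ∃ q ∈ Q, q ∈ B i a := by
  obtain ⟨M, hM, Z₁, hmert⟩ := mertE e he
  have hl2 : 0 < Real.log 2 := Real.log_pos (by norm_num)
  obtain ⟨C', hC'⟩ : ∃ C' : ℝ, C' = (1 / (c / M) + 2) * ((A + 1) * Real.log 2) := ⟨_, rfl⟩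
  have hC'0 : 0 < C' := by rw [hC']; positivity
  -- the scales
  have hi1 : ∃ i₁, i₀ ≤ i₁ ∧ 1 ≤ i₁ ∧ ∀ i, i₁ ≤ i → Z₁ ≤ 2 ^ 2 ^ i := by
    refine ⟨max (max i₀ 1) Z₁, (le_max_left _ _).trans (le_max_left _ _), (le_max_right _ _).trans (le_max_left _ _), ?_⟩
    intro i hi
    calc Z₁ ≤ i := (le_max_right _ _).trans hi
      _ ≤ 2 ^ i := Nat.lt_two_pow_self.le
      _ ≤ 2 ^ 2 ^ i := Nat.lt_two_pow_self.le
  obtain ⟨i₁, hi₁, hi₁1, hi₁Z⟩ := hi1
  have hstep : ∀ i : ℕ, ∃ T : Finset ℕ, (∀ q ∈ T, q.Prime ∧ 2 ^ 2 ^ i < q ^ (e + 1)) ∧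
      ((T.card : ℝ) ≤ C' * (i + 2)) ∧
      (i₁ ≤ i → ∀ a ∈ I i, ∃ q ∈ T, q ∈ B i a) := by
    intro i
    by_cases hi : i₁ ≤ i
    swap
    · refine ⟨∅, by simp, ?_, fun h => absurd h hi⟩
      simp only [card_empty, Nat.cast_zero]
      positivity
    obtain ⟨Z, hZ⟩ : ∃ Z, Z = 2 ^ 2 ^ i := ⟨_, rfl⟩
    have hhit := hit2 (Om e Z) (fun q => (1 : ℝ) / q) (fun q _ => by positivity) M (c / M) hM
      (hmert Z (by rw [hZ]; exact hi₁Z i hi)) (by positivity) (B i) (I i) ((2 : ℝ) ^ ((A + 1) * (i + 1))) (by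
        calc (2 : ℝ) = 2 ^ 1 := (pow_one _).symm
          _ ≤ _ := pow_le_pow_right₀ (by norm_num) (by nlinarith)) (by
        have h1 : (I i).card ≤ 2 ^ ((A + 1) * (i + 1)) :=
          (hI i (hi₁.trans hi)).trans (Nat.pow_le_pow_right (by norm_num) (by nlinarith))
        exact_mod_cast h1) (by
        intro a ha
        obtain ⟨h1, h2⟩ := hB i (hi₁.trans hi) a ha
        rw [← hZ] at h1
        refine ⟨h1, le_trans (le_of_eq ?_) h2⟩
        field_simp)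
    obtain ⟨T, hT1, hT2, hT3⟩ := hhit
    refine ⟨T, ?_, ?_, fun _ => hT3⟩
    · intro q hq
      obtain ⟨q1, q2, _⟩ := mem_Om.1 (hT1 hq)
      rw [hZ] at q2
      exact ⟨q1, lt_of_le_of_lt q2 (Nat.pow_lt_pow_right q1.one_lt (by omega))⟩
    · refine hT2.trans ?_
      rw [Real.log_pow, hC']
      push_cast
      have h1 : 0 ≤ 1 / (c / M) + 2 := by positivity
      have hi0 : (0 : ℝ) ≤ i := Nat.cast_nonneg _
      have hA0 : (0 : ℝ) ≤ A := Nat.cast_nonneg _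
      calc (1 / (c / M) + 2) * ((A + 1) * (i + 1) * Real.log 2) ≤ (1 / (c / M) + 2) * ((A + 1) * (i + 2) * Real.log 2) := by
            gcongr
            norm_num
        _ = _ := by ring
  choose T hT1 hT2 hT3 using hstep
  obtain ⟨f, hf⟩ : ∃ f, f = e + 1 := ⟨_, rfl⟩
  refine ⟨C' * ((2 * f + 6 : ℝ)) ^ 2, by positivity, {q | ∃ i, q ∈ T i}, ?_, ?_, i₁, ?_⟩
  · rintro q ⟨i, hi⟩
    exact (hT1 i q hi).1
  · intro x hx
    obtain ⟨n, hn⟩ : ∃ n, n = Nat.log 2 (Nat.log 2 (x ^ f)) := ⟨_, rfl⟩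
    obtain ⟨hb, hLL⟩ := scales_bound f (by omega) hx
    rw [← hn] at hb
    have hx1 : 1 < x ^ f := Nat.one_lt_pow (by omega) (by omega)
    have hL1 : 1 ≤ Nat.log 2 (x ^ f) := (Nat.le_log_iff_pow_le (by norm_num) (by omega)).2 (by rw [pow_one]; exact hx1)
    have hsub : {q ∈ {q | ∃ i, q ∈ T i} | q ≤ x} ⊆ (((range (n + 1)).biUnion T : Finset ℕ) : Set ℕ) := by
      rintro q ⟨⟨i, hi⟩, hqx⟩
      rw [mem_coe, mem_biUnion]
      refine ⟨i, ?_, hi⟩
      rw [mem_range]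
      have h2 := (hT1 i q hi).2
      rw [← hf] at h2
      have h4 : 2 ^ 2 ^ i ≤ x ^ f := (h2.le).trans (Nat.pow_le_pow_left hqx f)
      have h5 : 2 ^ i ≤ Nat.log 2 (x ^ f) := (Nat.le_log_iff_pow_le (by norm_num) (by omega)).2 h4
      have h6 : i ≤ n := by
        rw [hn]
        exact (Nat.le_log_iff_pow_le (by norm_num) (by omega)).2 h5
      omega
    refine ⟨(finite_toSet _).subset hsub, ?_⟩
    have h1 := Set.ncard_le_ncard hsub (finite_toSet _)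
    rw [Set.ncard_coe_finset] at h1
    have h2 : (((range (n + 1)).biUnion T).card : ℝ) ≤ ∑ i ∈ range (n + 1), ((T i).card : ℝ) := by
      exact_mod_cast card_biUnion_le
    have h3 : ∑ i ∈ range (n + 1), ((T i).card : ℝ) ≤ ∑ i ∈ range (n + 1), C' * ((n : ℝ) + 2) := by
      apply sum_le_sum
      intro i hi
      refine (hT2 i).trans (mul_le_mul_of_nonneg_left ?_ hC'0.le)
      have : i ≤ n := by
        rw [mem_range] at hi
        omega
      have : (i : ℝ) ≤ n := by exact_mod_cast this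
      linarith
    rw [sum_const, card_range, nsmul_eq_mul] at h3
    push_cast at h3
    have hn0 : (0 : ℝ) ≤ n := Nat.cast_nonneg _
    calc _ ≤ ((n : ℝ) + 1) * (C' * ((n : ℝ) + 2)) := (by exact_mod_cast h1 : _ ≤ (((range (n + 1)).biUnion T).card : ℝ)).trans (h2.trans h3)
      _ ≤ ((n : ℝ) + 2) * (C' * ((n : ℝ) + 2)) := mul_le_mul_of_nonneg_right (by linarith) (by positivity)
      _ = C' * ((n : ℝ) + 2) ^ 2 := by ring
      _ ≤ C' * ((2 * f + 6) * Real.log (Real.log x)) ^ 2 :=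
          mul_le_mul_of_nonneg_left (pow_le_pow_left₀ (by positivity) hb 2) hC'0.le
      _ = _ := by ring
  · intro i hi a ha
    obtain ⟨q, hq1, hq2⟩ := hT3 i hi a ha
    exact ⟨q, ⟨i, hq1⟩, hq2⟩

end Pool.Agent.Q253.Cov
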