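import Pool.Agent.Q253.Cov.Small

/-!
# One very thin set for countably many families
-/

set_option autoImplicit false

namespace Pool.Agent.Q253.Cov

open Finset Filter

open Classical in
/-- **Union of countably many very thin sets, with late starts.** -/
theorem union_thin (Q : ℕ → Set ℕ) (C : ℕ → ℝ) (hC : ∀ n, 0 < C n)
    (hc : ∀ n x : ℕ, 16 ≤ x → {q ∈ Q n | q ≤ x}.Finite ∧ ({q ∈ Q n | q ≤ x}.ncard : ℝ) ≤ C n * Real.log (Real.log x) ^ 2) :
    ∃ y : ℕ → ℕ, ∀ x : ℕ, 16 ≤ x → {q ∈ {q | ∃ n, q ∈ Q n ∧ y n ≤ q} | q ≤ x}.Finite ∧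
      ({q ∈ {q | ∃ n, q ∈ Q n ∧ y n ≤ q} | q ≤ x}.ncard : ℝ) ≤ Real.log (Real.log x) ^ 3 := by
  have hll : Tendsto (fun x : ℕ => Real.log (Real.log x)) atTop atTop :=
    Real.tendsto_log_atTop.comp (Real.tendsto_log_atTop.comp tendsto_natCast_atTop_atTop)
  have hy : ∀ n : ℕ, ∃ y : ℕ, 16 ≤ y ∧ n ≤ y ∧ C n * 2 ^ (n + 1) ≤ Real.log (Real.log y) := by
    intro n
    obtain ⟨y, hy⟩ := eventually_atTop.1 (hll.eventually_ge_atTop (C n * 2 ^ (n + 1)))
    exact ⟨max (max y n) 16, le_max_right _ _, (le_max_right _ _).trans (le_max_left _ _), hy _ ((le_max_left _ _).trans (le_max_left _ _))⟩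
  choose y hy16 hyn hyC using hy
  refine ⟨y, ?_⟩
  intro x hx
  obtain ⟨-, hLL⟩ := scales_bound 1 le_rfl hx
  obtain ⟨LL, hLLd⟩ : ∃ LL, LL = Real.log (Real.log x) := ⟨_, rfl⟩
  rw [← hLLd] at hLL ⊢
  have hLL0 : 0 < LL := by linarith
  obtain ⟨F, hF⟩ : ∃ F : ℕ → Finset ℕ, F = fun n => (hc n x hx).1.toFinset := ⟨_, rfl⟩
  have hFm : ∀ n q, q ∈ F n ↔ q ∈ Q n ∧ q ≤ x := by
    intro n q
    rw [hF]
    simp only [Set.Finite.mem_toFinset, Set.mem_setOf_eq]
  have hFc : ∀ n, ((F n).card : ℝ) ≤ C n * LL ^ 2 := by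
    intro n
    have h1 := (hc n x hx).2
    rw [← hLLd] at h1
    rw [hF]
    simp only
    rwa [← Set.ncard_eq_toFinset_card _ (hc n x hx).1]
  have hsub : {q ∈ {q | ∃ n, q ∈ Q n ∧ y n ≤ q} | q ≤ x} ⊆
      ((((range (x + 1)).filter (fun n => y n ≤ x)).biUnion F : Finset ℕ) : Set ℕ) := by
    rintro q ⟨⟨n, h1, h2⟩, h3⟩
    rw [mem_coe, mem_biUnion]
    refine ⟨n, ?_, (hFm n q).2 ⟨h1, h3⟩⟩
    rw [mem_filter, mem_range]
    have := hyn n
    exact ⟨by omega, h2.trans h3⟩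
  refine ⟨(finite_toSet _).subset hsub, ?_⟩
  have h1 := Set.ncard_le_ncard hsub (finite_toSet _)
  rw [Set.ncard_coe_finset] at h1
  have h2 : (((range (x + 1)).filter (fun n => y n ≤ x)).biUnion F).card ≤ ∑ n ∈ (range (x + 1)).filter (fun n => y n ≤ x), (F n).card :=
    card_biUnion_le
  have h3 : ((∑ n ∈ (range (x + 1)).filter (fun n => y n ≤ x), (F n).card : ℕ) : ℝ) ≤
      ∑ n ∈ (range (x + 1)).filter (fun n => y n ≤ x), (1 / 2) ^ (n + 1) * LL ^ 3 := by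
    push_cast
    apply sum_le_sum
    intro n hn
    rw [mem_filter] at hn
    refine (hFc n).trans ?_
    have h4 : C n * 2 ^ (n + 1) ≤ LL := by
      refine (hyC n).trans ?_
      rw [hLLd]
      have h5 : (16 : ℝ) ≤ y n := by exact_mod_cast hy16 n
      apply Real.log_le_log
      · apply Real.log_pos
        linarith
      · apply Real.log_le_log (by linarith)
        exact_mod_cast hn.2
    have h5 : C n ≤ (1 / 2) ^ (n + 1) * LL := by
      rw [one_div, inv_pow, inv_mul_eq_div, le_div_iff₀ (by positivity)]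
      exact h4
    calc C n * LL ^ 2 ≤ ((1 / 2) ^ (n + 1) * LL) * LL ^ 2 := mul_le_mul_of_nonneg_right h5 (by positivity)
      _ = _ := by ring
  have h4 : ∑ n ∈ (range (x + 1)).filter (fun n => y n ≤ x), (1 / 2 : ℝ) ^ (n + 1) * LL ^ 3 ≤ LL ^ 3 := by
    rw [← sum_mul]
    have h5 : ∑ n ∈ (range (x + 1)).filter (fun n => y n ≤ x), (1 / 2 : ℝ) ^ (n + 1) ≤ 1 := by
      refine (sum_le_sum_of_subset_of_nonneg (filter_subset _ _) (fun n _ _ => by positivity)).trans ?_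
      have h6 : ∑ n ∈ range (x + 1), (1 / 2 : ℝ) ^ (n + 1) = 1 - (1 / 2) ^ (x + 1) := by
        have h7 : ∀ N : ℕ, ∑ n ∈ range N, (1 / 2 : ℝ) ^ (n + 1) = 1 - (1 / 2) ^ N := by
          intro N
          induction N with
          | zero => simp
          | succ N ih => rw [sum_range_succ, ih]; ring
        exact h7 _
      rw [h6]
      have : (0 : ℝ) ≤ (1 / 2) ^ (x + 1) := by positivity
      linarith
    calc _ ≤ 1 * LL ^ 3 := mul_le_mul_of_nonneg_right h5 (by positivity)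
      _ = _ := one_mul _
  calc _ ≤ ((((range (x + 1)).filter (fun n => y n ≤ x)).biUnion F).card : ℝ) := by exact_mod_cast h1
    _ ≤ ((∑ n ∈ (range (x + 1)).filter (fun n => y n ≤ x), (F n).card : ℕ) : ℝ) := by exact_mod_cast h2
    _ ≤ _ := h3.trans h4

end Pool.Agent.Q253.Cov
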